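import Pool.Agent.W774.LacC

set_option autoImplicit false
open MeasureTheory Filter Topology Set

namespace Pool.Agent.W774.Lac

section
variable {n : ℕ → ℕ} {q : ℝ}

lemma ae_unbounded (hq : 1 < q) (hpos : ∀ k, 0 < n k)
    (hgap : ∀ k, q * (n k : ℝ) ≤ (n (k + 1) : ℝ)) (σ : ℝ) (hσ : σ = 1 ∨ σ = -1) :
    ∀ᵐ x : ℝ, ∀ A : ℕ, ∀ m0 : ℕ, ∃ m ≥ m0, σ * S n m x < -(A : ℝ) := by
  rw [ae_all_iff]; intro A
  rw [ae_all_iff]; intro m0
  have h := null_onesided hq hpos hgap σ hσ A m0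
  have h2 := measure_eq_zero_iff_ae_notMem.mp h
  filter_upwards [h2] with x hx
  by_contra hcon
  push Not at hcon
  exact hx (fun m hm => hcon m hm)

lemma sum_le (hq : 1 < q) (hgap : ∀ k, q * (n k : ℝ) ≤ (n (k + 1) : ℝ)) (m : ℕ) :
    ∑ k ∈ Finset.range (m + 1), (n k : ℝ) ≤ (n m : ℝ) * (q / (q - 1)) := by
  have hq1 : 0 < q - 1 := by linarith
  induction m with
  | zero =>
    simp only [zero_add, Finset.range_one, Finset.sum_singleton]
    apply le_mul_of_one_le_right (Nat.cast_nonneg _)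
    rw [one_le_div hq1]; linarith
  | succ m ih =>
    rw [Finset.sum_range_succ]
    have h1 : (n m : ℝ) * (q / (q - 1)) ≤ (n (m + 1) : ℝ) * (1 / (q - 1)) := by
      have := hgap m
      have e : (n m : ℝ) * (q / (q - 1)) = (q * n m) * (1 / (q - 1)) := by ring
      rw [e]; gcongr
    have h2 : (n (m + 1) : ℝ) * (1 / (q - 1)) + (n (m + 1) : ℝ) = (n (m + 1) : ℝ) * (q / (q - 1)) := by
      field_simp; ring
    linarith

lemma cos_lip (c x y : ℝ) (hc : 0 ≤ c) : |Real.cos (c * x) - Real.cos (c * y)| ≤ c * |x - y| := by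
  have h := Real.cos_sub_cos (c * x) (c * y)
  rw [h]
  have h1 : |Real.sin ((c * x - c * y) / 2)| ≤ |(c * x - c * y) / 2| := Real.abs_sin_le_abs
  have h2 : |Real.sin ((c * x + c * y) / 2)| ≤ 1 := Real.abs_sin_le_one _
  rw [abs_mul, abs_mul]
  have e : |(c * x - c * y) / 2| = c * |x - y| / 2 := by
    rw [← mul_sub, abs_div, abs_mul, abs_of_nonneg hc]; norm_num
  rw [e] at h1
  have h3 : |(-2 : ℝ)| = 2 := by norm_num
  rw [h3]
  have h4 : 0 ≤ |Real.sin ((c * x - c * y) / 2)| := abs_nonneg _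
  have h5 : 0 ≤ |Real.sin ((c * x + c * y) / 2)| := abs_nonneg _
  nlinarith

lemma S_lip (hq : 1 < q) (hgap : ∀ k, q * (n k : ℝ) ≤ (n (k + 1) : ℝ)) (m i : ℕ) (hi : i ≤ m + 1)
    (x y : ℝ) : |S n i x - S n i y| ≤ (n m : ℝ) * (q / (q - 1)) * |x - y| := by
  unfold S
  rw [← Finset.sum_sub_distrib]
  calc _ ≤ ∑ k ∈ Finset.range i, |Real.cos ((n k : ℝ) * x) - Real.cos ((n k : ℝ) * y)| :=
        Finset.abs_sum_le_sum_abs _ _
    _ ≤ ∑ k ∈ Finset.range i, (n k : ℝ) * |x - y| :=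
        Finset.sum_le_sum (fun k _ => cos_lip _ _ _ (Nat.cast_nonneg _))
    _ = (∑ k ∈ Finset.range i, (n k : ℝ)) * |x - y| := by rw [Finset.sum_mul]
    _ ≤ (∑ k ∈ Finset.range (m + 1), (n k : ℝ)) * |x - y| := by
        gcongr
    _ ≤ _ := by
        gcongr
        exact sum_le hq hgap m

lemma switch (P : ℕ → Prop) {a b : ℕ} (hab : a ≤ b) (ha : P a) (hb : ¬ P b) :
    ∃ m, a ≤ m ∧ P m ∧ ¬ P (m + 1) := by
  by_contra hcon
  push Not at hcon
  have : ∀ j, P (a + j) := by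
    intro j
    induction j with
    | zero => simpa using ha
    | succ j ih => exact hcon (a + j) (by omega) ih
  obtain ⟨j, rfl⟩ := Nat.exists_eq_add_of_le hab
  exact hb (this j)

lemma near_zero (c x0 : ℝ) (hc : 0 < c) : ∃ y : ℝ, |y - x0| ≤ 2 / c ∧ Real.cos (c * y) = 0 := by
  set t := (c * x0 - Real.pi / 2) / Real.pi with ht
  refine ⟨(Real.pi / 2 + (round t : ℝ) * Real.pi) / c, ?_, ?_⟩
  · have h := abs_sub_round t
    have hpi := Real.pi_pos
    have e : (Real.pi / 2 + (round t : ℝ) * Real.pi) / c - x0 = -((t - round t) * Real.pi / c) := by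
      rw [ht]; field_simp; ring
    rw [e, abs_neg, abs_div, abs_mul, abs_of_pos hpi, abs_of_pos hc]
    have h2 : |t - (round t : ℝ)| * Real.pi ≤ 2 := by
      have := Real.pi_le_four
      nlinarith [abs_nonneg (t - (round t : ℝ))]
    gcongr
  · rw [mul_div_cancel₀ _ hc.ne', Real.cos_eq_zero_iff]
    exact ⟨round t, by ring⟩

lemma crossing (hpos : ∀ k, 0 < n k) (m : ℕ) (ξ x0 : ℝ) (h1 : ξ ≤ S n m x0) (h2 : S n (m + 1) x0 < ξ) :
    ∃ z : ℝ, ∃ i, m ≤ i ∧ i ≤ m + 1 ∧ |z - x0| ≤ 2 / (n m : ℝ) ∧ S n i z = ξ := by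
  have hm : (0 : ℝ) < n m := by exact_mod_cast hpos m
  obtain ⟨y, hy, hy0⟩ := near_zero (n m : ℝ) x0 hm
  have hS : S n (m + 1) y = S n m y := by rw [S_succ, hy0, add_zero]
  have hdist : ∀ z ∈ uIcc x0 y, |z - x0| ≤ 2 / (n m : ℝ) := by
    intro z hz
    have := abs_sub_left_of_mem_uIcc hz
    exact this.trans hy
  rcases le_total (S n m y) ξ with h | h
  · have := intermediate_value_uIcc (a := x0) (b := y) (S_cont n m).continuousOn
    obtain ⟨z, hz, hzξ⟩ := this (mem_uIcc.mpr (Or.inr ⟨h, h1⟩))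
    exact ⟨z, m, le_rfl, by omega, hdist z hz, hzξ⟩
  · have := intermediate_value_uIcc (a := x0) (b := y) (S_cont n (m + 1)).continuousOn
    rw [← hS] at h
    obtain ⟨z, hz, hzξ⟩ := this (mem_uIcc.mpr (Or.inl ⟨h2.le, h⟩))
    exact ⟨z, m + 1, by omega, le_rfl, hdist z hz, hzξ⟩

lemma null_avoid (hq : 1 < q) (hpos : ∀ k, 0 < n k)
    (hgap : ∀ k, q * (n k : ℝ) ≤ (n (k + 1) : ℝ)) (ξ δ : ℝ) (hδ : 0 < δ) (m0 : ℕ) :
    volume {x : ℝ | ∀ m ≥ m0, δ ≤ |S n m x - ξ|} = 0 := by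
  set E : Set ℝ := {x : ℝ | ∀ m ≥ m0, δ ≤ |S n m x - ξ|} with hE
  by_contra hne
  have hdens := Besicovitch.ae_tendsto_measure_inter_div (volume : Measure ℝ) E
  have hne' : (volume.restrict E) ≠ 0 := by
    intro h
    rw [Measure.restrict_eq_zero] at h
    exact hne h
  have : NeZero (volume.restrict E) := ⟨hne'⟩
  have hu1 := ae_restrict_of_ae (s := E) (ae_unbounded hq hpos hgap 1 (Or.inl rfl))
  have hu2 := ae_restrict_of_ae (s := E) (ae_unbounded hq hpos hgap (-1) (Or.inr rfl))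
  obtain ⟨x0, hx0, hx1, hx2⟩ := (hdens.and (hu1.and hu2)).exists
  have hq1 : 0 < q - 1 := by linarith
  set δ1 : ℝ := min 1 (δ * (q - 1) / (2 * q)) with hδ1
  have hδ10 : 0 < δ1 := by
    apply lt_min one_pos
    positivity
  have hδ11 : δ1 ≤ 1 := min_le_left _ _
  have hδ12 : δ1 ≤ δ * (q - 1) / (2 * q) := min_le_right _ _
  have hev : ∀ᶠ ρ in 𝓝[>] (0 : ℝ), ENNReal.ofReal (1 - δ1 / 3) <
      volume (E ∩ Metric.closedBall x0 ρ) / volume (Metric.closedBall x0 ρ) := by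
    apply hx0.eventually_const_lt
    rw [ENNReal.ofReal_lt_one]
    linarith
  have htend : Tendsto (fun m : ℕ => 3 / (n m : ℝ)) atTop (𝓝[>] 0) := by
    rw [tendsto_nhdsWithin_iff]
    constructor
    · have h1 : Tendsto (fun m : ℕ => q ^ m) atTop atTop := tendsto_pow_atTop_atTop_of_one_lt hq
      have h2 : Tendsto (fun m : ℕ => (n m : ℝ)) atTop atTop :=
        tendsto_atTop_mono (fun m => growth hq hpos hgap m) h1
      exact h2.const_div_atTop 3
    · apply Eventually.of_forall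
      intro m
      have : (0 : ℝ) < n m := by exact_mod_cast hpos m
      exact div_pos (by norm_num) this
  obtain ⟨M, hM⟩ := eventually_atTop.mp (htend.eventually hev)
  -- a sign change beyond max M m0
  obtain ⟨A, hA⟩ := exists_nat_ge |ξ|
  have hξ := abs_le.mp (le_refl |ξ|)
  obtain ⟨m1, hm1, hm1'⟩ := hx2 A (max M m0)
  obtain ⟨m2, hm2, hm2'⟩ := hx1 A m1
  obtain ⟨m, hmm, hPm, hPm'⟩ := switch (fun m => ξ ≤ S n m x0) hm2 (by show ξ ≤ S n m1 x0; linarith)
    (by show ¬ (ξ ≤ S n m2 x0); push Not; linarith)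
  push Not at hPm'
  have hmM : M ≤ m := (le_max_left _ _).trans (hm1.trans hmm)
  have hmm0 : m0 ≤ m := (le_max_right _ _).trans (hm1.trans hmm)
  obtain ⟨z, i, hi1, hi2, hz, hzξ⟩ := crossing hpos m ξ x0 hPm hPm'
  have hnm : (0 : ℝ) < n m := by exact_mod_cast hpos m
  have hlt := hM m hmM
  -- the interval around z
  have hsub : Ioo (z - δ1 / n m) (z + δ1 / n m) ⊆ Metric.closedBall x0 (3 / (n m : ℝ)) \ E := by
    intro x hx
    have hxz : |x - z| < δ1 / n m := by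
      rw [abs_lt]; constructor <;> linarith [hx.1, hx.2]
    constructor
    · rw [Metric.mem_closedBall, Real.dist_eq]
      have h1 : |x - x0| ≤ |x - z| + |z - x0| := abs_sub_le _ _ _
      have h2 : δ1 / (n m : ℝ) ≤ 1 / n m := by gcongr
      have h3 : 1 / (n m : ℝ) + 2 / n m = 3 / n m := by ring
      linarith
    · intro hxE
      have h1 := hxE i (by omega)
      have h2 := S_lip hq hgap m i hi2 x z
      rw [hzξ] at h2
      have h3 : (n m : ℝ) * (q / (q - 1)) * |x - z| < δ := by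
        calc (n m : ℝ) * (q / (q - 1)) * |x - z| < (n m : ℝ) * (q / (q - 1)) * (δ1 / n m) := by
              gcongr
          _ = (q / (q - 1)) * δ1 := by field_simp
          _ ≤ (q / (q - 1)) * (δ * (q - 1) / (2 * q)) := by gcongr
          _ = δ / 2 := by field_simp
          _ < δ := by linarith
      linarith
  have hvol : volume (E ∩ Metric.closedBall x0 (3 / (n m : ℝ))) ≤
      ENNReal.ofReal (6 / n m - 2 * δ1 / n m) := by
    have h1 : E ∩ Metric.closedBall x0 (3 / (n m : ℝ)) ⊆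
        Metric.closedBall x0 (3 / (n m : ℝ)) \ Ioo (z - δ1 / n m) (z + δ1 / n m) := by
      rintro x ⟨hxE, hxb⟩
      exact ⟨hxb, fun h => (hsub h).2 hxE⟩
    refine (measure_mono h1).trans ?_
    rw [measure_sdiff (fun x hx => (hsub hx).1) measurableSet_Ioo.nullMeasurableSet
      (by rw [Real.volume_Ioo]; exact ENNReal.ofReal_ne_top), Real.volume_closedBall, Real.volume_Ioo,
      ← ENNReal.ofReal_sub _ (by
        have : 0 ≤ δ1 / (n m : ℝ) := by positivity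
        linarith)]
    apply ENNReal.ofReal_le_ofReal
    have : 2 * (3 / (n m : ℝ)) - (z + δ1 / n m - (z - δ1 / n m)) = 6 / n m - 2 * δ1 / n m := by ring
    rw [this]
  have hcb : volume (Metric.closedBall x0 (3 / (n m : ℝ))) = ENNReal.ofReal (6 / n m) := by
    rw [Real.volume_closedBall]; congr 1; ring
  rw [hcb] at hlt
  have h6 : 0 < 6 / (n m : ℝ) := by positivity
  rw [ENNReal.lt_div_iff_mul_lt (Or.inl (ENNReal.ofReal_pos.mpr h6).ne') (Or.inl ENNReal.ofReal_ne_top),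
    ← ENNReal.ofReal_mul (by linarith)] at hlt
  have h7 : (1 - δ1 / 3) * (6 / (n m : ℝ)) = 6 / n m - 2 * δ1 / n m := by ring
  rw [h7] at hlt
  exact absurd hvol (not_le.mpr hlt)

theorem ae_dense (hq : 1 < q) (hpos : ∀ k, 0 < n k)
    (hgap : ∀ k, q * (n k : ℝ) ≤ (n (k + 1) : ℝ)) :
    ∀ᵐ x : ℝ, ∀ ξ : ℝ, ∀ ε : ℝ, 0 < ε → ∃ᶠ m in atTop, |S n m x - ξ| < ε := by
  have h : ∀ᵐ x : ℝ, ∀ r : ℚ, ∀ j : ℕ, ∀ m0 : ℕ, ∃ m ≥ m0, |S n m x - (r : ℝ)| < 1 / ((j : ℝ) + 1) := by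
    rw [ae_all_iff]; intro r
    rw [ae_all_iff]; intro j
    rw [ae_all_iff]; intro m0
    have h := null_avoid hq hpos hgap r (1 / ((j : ℝ) + 1)) (by positivity) m0
    have h2 := measure_eq_zero_iff_ae_notMem.mp h
    filter_upwards [h2] with x hx
    by_contra hcon
    push Not at hcon
    exact hx (fun m hm => hcon m hm)
  filter_upwards [h] with x hx ξ ε hε
  rw [frequently_atTop]
  intro m0
  obtain ⟨r, hr1, hr2⟩ := exists_rat_btwn (show ξ < ξ + ε / 2 by linarith)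
  obtain ⟨j, hj⟩ := exists_nat_one_div_lt (show 0 < ε / 2 by linarith)
  obtain ⟨m, hm, hm'⟩ := hx r j m0
  refine ⟨m, hm, ?_⟩
  have h1 : |S n m x - ξ| ≤ |S n m x - (r : ℝ)| + |(r : ℝ) - ξ| := abs_sub_le _ _ _
  have h2 : |(r : ℝ) - ξ| < ε / 2 := by rw [abs_lt]; constructor <;> linarith
  linarith

end

end Pool.Agent.W774.Lac
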