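import Pool.Agent.W774.Brannan3

set_option autoImplicit false

namespace Pool.Agent.W774.Brannan

open Finset Complex MeasureTheory Filter Topology
open scoped ComplexConjugate

/-- the comparison function -/
noncomputable def Gf (α : ℝ) (m : ℕ) (q : ℝ) : ℝ :=
  ∫ s in (0 : ℝ)..1, w α m s / Real.sqrt ((1 - s) ^ 2 + s * q ^ 2)

noncomputable def Phi (α : ℝ) (m : ℕ) (q : ℝ) : ℝ := q ^ α + C α * Gf α m q

lemma Y_pos {s q : ℝ} (hs : 0 ≤ s) (hq : 0 < q) : 0 < (1 - s) ^ 2 + s * q ^ 2 := by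
  rcases eq_or_ne s 1 with h | h
  · subst h; simp; positivity
  · have : 0 < (1 - s) ^ 2 := by
      have : (1 - s) ≠ 0 := by intro h2; apply h; linarith
      positivity
    have : 0 ≤ s * q ^ 2 := by positivity
    linarith

lemma Y_low {s q δ : ℝ} (hs : 0 ≤ s) (hδ : 0 < δ) (hδ1 : δ ≤ 1) (hq : δ ≤ q) :
    δ ^ 2 / 2 ≤ (1 - s) ^ 2 + s * q ^ 2 := by
  have h1 : δ ^ 2 ≤ q ^ 2 := by nlinarith
  have h2 : δ ^ 2 ≤ 1 := by nlinarith
  have h3 : s * δ ^ 2 ≤ s * q ^ 2 := mul_le_mul_of_nonneg_left h1 hs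
  have h4 : δ ^ 2 * (1 - s) ^ 2 ≤ (1 - s) ^ 2 := by nlinarith [sq_nonneg (1 - s)]
  have h5 : δ ^ 2 / 2 ≤ δ ^ 2 * ((1 - s) ^ 2 + s) := by
    have : (1 : ℝ) / 2 ≤ (1 - s) ^ 2 + s := by nlinarith [sq_nonneg (s - 1 / 2)]
    nlinarith [sq_nonneg δ]
  nlinarith

/-- derivative of the integrand in `q` -/
lemma hasDerivAt_integrand (c s : ℝ) {q : ℝ} (hY : 0 < (1 - s) ^ 2 + s * q ^ 2) :
    HasDerivAt (fun q : ℝ => c / Real.sqrt ((1 - s) ^ 2 + s * q ^ 2))
      (-(c * s * q / (((1 - s) ^ 2 + s * q ^ 2) * Real.sqrt ((1 - s) ^ 2 + s * q ^ 2)))) q := by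
  have h1 : HasDerivAt (fun q : ℝ => (1 - s) ^ 2 + s * q ^ 2) (s * (2 * q)) q := by
    have := ((hasDerivAt_pow 2 q).const_mul s).const_add ((1 - s) ^ 2)
    simpa using this
  have h2 := h1.sqrt hY.ne'
  have hsq : Real.sqrt ((1 - s) ^ 2 + s * q ^ 2) ≠ 0 := (Real.sqrt_pos.mpr hY).ne'
  have h3 := (h2.inv hsq).const_mul c
  have e : (fun q : ℝ => c / Real.sqrt ((1 - s) ^ 2 + s * q ^ 2)) =
      fun q : ℝ => c * (fun q : ℝ => Real.sqrt ((1 - s) ^ 2 + s * q ^ 2))⁻¹ q := by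
    funext q; simp [div_eq_mul_inv]
  rw [e]
  have h4 : Real.sqrt ((1 - s) ^ 2 + s * q ^ 2) ^ 2 = (1 - s) ^ 2 + s * q ^ 2 := Real.sq_sqrt hY.le
  refine h3.congr_deriv ?_
  rw [h4]
  field_simp

lemma integrand_cont {α : ℝ} (h0 : 0 < α) (h1 : α < 1) {m : ℕ} (hm : 1 ≤ m) {q : ℝ} (hq : 0 < q) :
    ContinuousOn (fun s : ℝ => w α m s / Real.sqrt ((1 - s) ^ 2 + s * q ^ 2)) (Set.Icc 0 1) := by
  refine ContinuousOn.div (w_cont h0 h1 hm).continuousOn ?_ ?_
  · exact (Real.continuous_sqrt.comp (by fun_prop)).continuousOn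
  · intro s hs; exact (Real.sqrt_pos.mpr (Y_pos hs.1 hq)).ne'

lemma integrand'_cont {α : ℝ} (h0 : 0 < α) (h1 : α < 1) {m : ℕ} (hm : 1 ≤ m) {q : ℝ} (hq : 0 < q) :
    ContinuousOn (fun s : ℝ => w α m s * s * q /
      (((1 - s) ^ 2 + s * q ^ 2) * Real.sqrt ((1 - s) ^ 2 + s * q ^ 2))) (Set.Icc 0 1) := by
  refine ContinuousOn.div ?_ ?_ ?_
  · exact (((w_cont h0 h1 hm).mul continuous_id).mul continuous_const).continuousOn
  · refine Continuous.continuousOn ?_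
    refine Continuous.mul (by fun_prop) (Real.continuous_sqrt.comp (by fun_prop))
  · intro s hs
    have := Y_pos hs.1 hq
    have := Real.sqrt_pos.mpr this
    positivity

lemma hasDerivAt_Gf {α : ℝ} (h0 : 0 < α) (h1 : α < 1) {m : ℕ} (hm : 1 ≤ m) {q : ℝ} (hq : 0 < q)
    (hq2 : q ≤ 2) :
    HasDerivAt (Gf α m) (∫ s in (0 : ℝ)..1, -(w α m s * s * q /
      (((1 - s) ^ 2 + s * q ^ 2) * Real.sqrt ((1 - s) ^ 2 + s * q ^ 2)))) q := by
  set δ := q / 2 with hδ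
  have hδ0 : 0 < δ := by positivity
  have hδ1 : δ ≤ 1 := by rw [hδ]; linarith
  have hη : 0 < δ ^ 2 / 2 := by positivity
  refine (intervalIntegral.hasDerivAt_integral_of_dominated_loc_of_deriv_le (μ := volume) (a := 0) (b := 1)
    (F := fun q s => w α m s / Real.sqrt ((1 - s) ^ 2 + s * q ^ 2))
    (F' := fun q s => -(w α m s * s * q /
      (((1 - s) ^ 2 + s * q ^ 2) * Real.sqrt ((1 - s) ^ 2 + s * q ^ 2))))
    (bound := fun _ => 3 / ((δ ^ 2 / 2) * Real.sqrt (δ ^ 2 / 2)))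
    (s := Metric.ball q δ) (Metric.ball_mem_nhds q hδ0) ?_ ?_ ?_ ?_ ?_ ?_).2
  · filter_upwards [Metric.ball_mem_nhds q hδ0] with q' hq'
    have hq'0 : 0 < q' := by
      rw [Metric.mem_ball, Real.dist_eq] at hq'
      have := (abs_lt.mp hq').1
      linarith
    have hc := integrand_cont h0 h1 hm hq'0
    rw [Set.uIoc_of_le zero_le_one]
    exact (hc.mono Set.Ioc_subset_Icc_self).aestronglyMeasurable measurableSet_Ioc
  · refine ContinuousOn.intervalIntegrable ?_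
    rw [Set.uIcc_of_le zero_le_one]
    exact integrand_cont h0 h1 hm hq
  · rw [Set.uIoc_of_le zero_le_one]
    exact ((integrand'_cont h0 h1 hm hq).neg.mono Set.Ioc_subset_Icc_self).aestronglyMeasurable
      measurableSet_Ioc
  · refine Eventually.of_forall fun s hs q' hq' => ?_
    rw [Set.uIoc_of_le zero_le_one] at hs
    rw [Metric.mem_ball, Real.dist_eq] at hq'
    have ha := abs_lt.mp hq'
    have hq'0 : δ ≤ q' := by linarith [ha.1]
    have hq'3 : q' ≤ 3 := by linarith [ha.2]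
    have hY := Y_low hs.1.le hδ0 hδ1 hq'0
    set Y := (1 - s) ^ 2 + s * q' ^ 2
    have hYp : 0 < Y := lt_of_lt_of_le hη hY
    have hsq : Real.sqrt (δ ^ 2 / 2) ≤ Real.sqrt Y := Real.sqrt_le_sqrt hY
    have hsq0 : 0 < Real.sqrt (δ ^ 2 / 2) := Real.sqrt_pos.mpr hη
    have hw0 := w_nonneg α m hs.1.le hs.2
    have hw1 := w_le_one h0 h1 hm hs.1.le hs.2
    rw [norm_neg, Real.norm_of_nonneg (by
      have : 0 ≤ q' := by linarith
      have := hs.1.le
      have := Real.sqrt_nonneg Y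
      positivity)]
    have hnum : w α m s * s * q' ≤ 3 := by
      have h5 : w α m s * s ≤ 1 := by nlinarith [hs.1, hs.2]
      have h6 : 0 ≤ w α m s * s := mul_nonneg hw0 hs.1.le
      nlinarith
    have hden : (δ ^ 2 / 2) * Real.sqrt (δ ^ 2 / 2) ≤ Y * Real.sqrt Y :=
      mul_le_mul hY hsq hsq0.le hYp.le
    exact div_le_div₀ (by norm_num) hnum (by positivity) hden
  · exact intervalIntegrable_const
  · refine Eventually.of_forall fun s hs q' hq' => ?_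
    rw [Set.uIoc_of_le zero_le_one] at hs
    rw [Metric.mem_ball, Real.dist_eq] at hq'
    have ha := abs_lt.mp hq'
    have hq'0 : 0 < q' := by linarith [ha.1]
    exact hasDerivAt_integrand (w α m s) s (Y_pos hs.1.le hq'0)

/-- pointwise bound of the derivative integrand -/
lemma pointwise {α : ℝ} (h0 : 0 < α) (h1 : α < 1) {m : ℕ} (hm : 2 ≤ m) {q : ℝ} (hq : 0 < q)
    {s : ℝ} (hs : 0 ≤ s) (hs1 : s ≤ 1) :
    w α m s * s * q / (((1 - s) ^ 2 + s * q ^ 2) * Real.sqrt ((1 - s) ^ 2 + s * q ^ 2)) ≤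
      q * (q ^ α * ((1 - α) * (1 / (((1 - s) ^ 2 + q ^ 2) * Real.sqrt ((1 - s) ^ 2 + q ^ 2))) +
        (α / q) * ((1 - s) / (((1 - s) ^ 2 + q ^ 2) * Real.sqrt ((1 - s) ^ 2 + q ^ 2))))) := by
  set Z := (1 - s) ^ 2 + q ^ 2 with hZ
  have hZp : 0 < Z := by positivity
  have hZs : 0 < Real.sqrt Z := Real.sqrt_pos.mpr hZp
  have hY := Y_pos hs hq
  set Y := (1 - s) ^ 2 + s * q ^ 2 with hYd
  have hYs : 0 < Real.sqrt Y := Real.sqrt_pos.mpr hY
  have hqα : 0 < q ^ α := Real.rpow_pos_of_pos hq α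
  have ht0 : 0 ≤ 1 - s := by linarith
  -- Young
  have hyoung : (1 - s) ^ α ≤ q ^ α * ((1 - α) + (α / q) * (1 - s)) := by
    have h2 := rpow_one_add_le_one_add_mul_self (s := (1 - s) / q - 1)
      (by have : 0 ≤ (1 - s) / q := by positivity
          linarith) h0.le h1.le
    have e : (1 : ℝ) + ((1 - s) / q - 1) = (1 - s) / q := by ring
    rw [e, Real.div_rpow ht0 hq.le, div_le_iff₀ hqα] at h2
    refine h2.trans (le_of_eq ?_)
    ring
  rcases hs.eq_or_lt with hs0 | hs0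
  · rw [← hs0]
    have : w α m 0 * 0 * q / (Y * Real.sqrt Y) = 0 := by simp
    rw [← hs0] at ht0
    rw [this]
    have : 0 ≤ (1 : ℝ) - α := by linarith
    positivity
  · have hYZ : s * Z ≤ Y := by
      rw [hZ, hYd]
      nlinarith [mul_nonneg (sub_nonneg.mpr hs1) (sq_nonneg (1 - s))]
    have hsqr : Real.sqrt s * Real.sqrt Z ≤ Real.sqrt Y := by
      rw [← Real.sqrt_mul hs]; exact Real.sqrt_le_sqrt hYZ
    have hss : 0 < Real.sqrt s := Real.sqrt_pos.mpr hs0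
    have hss1 : s ≤ Real.sqrt s := by
      have h3 : Real.sqrt s * Real.sqrt s = s := Real.mul_self_sqrt hs
      have h4 : Real.sqrt s ≤ 1 := Real.sqrt_le_one.mpr hs1
      nlinarith
    have hden : (s * Real.sqrt s) * (Z * Real.sqrt Z) ≤ Y * Real.sqrt Y := by
      calc (s * Real.sqrt s) * (Z * Real.sqrt Z) = (s * Z) * (Real.sqrt s * Real.sqrt Z) := by ring
        _ ≤ Y * Real.sqrt Y := mul_le_mul hYZ hsqr (by positivity) hY.le
    have hws : w α m s * s ≤ (s * Real.sqrt s) * (1 - s) ^ α := by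
      unfold w
      have h5 : s ^ ((m : ℝ) - α) ≤ s := by
        have hm' : (2 : ℝ) ≤ m := by exact_mod_cast hm
        calc s ^ ((m : ℝ) - α) ≤ s ^ (1 : ℝ) := Real.rpow_le_rpow_of_exponent_ge hs0 hs1 (by linarith)
          _ = s := Real.rpow_one s
      have h6 : 0 ≤ (1 - s) ^ α := Real.rpow_nonneg ht0 _
      have h7 : s ^ ((m : ℝ) - α) * s ≤ s * Real.sqrt s := by
        calc s ^ ((m : ℝ) - α) * s ≤ s * s := mul_le_mul_of_nonneg_right h5 hs
          _ ≤ s * Real.sqrt s := mul_le_mul_of_nonneg_left hss1 hs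
      calc s ^ ((m : ℝ) - α) * (1 - s) ^ α * s = (s ^ ((m : ℝ) - α) * s) * (1 - s) ^ α := by ring
        _ ≤ _ := mul_le_mul_of_nonneg_right h7 h6
    have hws0 : 0 ≤ w α m s * s := mul_nonneg (w_nonneg α m hs hs1) hs
    have hfrac : w α m s * s / (Y * Real.sqrt Y) ≤ (1 - s) ^ α / (Z * Real.sqrt Z) := by
      rw [div_le_div_iff₀ (by positivity) (by positivity)]
      calc w α m s * s * (Z * Real.sqrt Z) ≤ (s * Real.sqrt s) * (1 - s) ^ α * (Z * Real.sqrt Z) :=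
            mul_le_mul_of_nonneg_right hws (by positivity)
        _ = (1 - s) ^ α * ((s * Real.sqrt s) * (Z * Real.sqrt Z)) := by ring
        _ ≤ (1 - s) ^ α * (Y * Real.sqrt Y) :=
            mul_le_mul_of_nonneg_left hden (Real.rpow_nonneg ht0 _)
    calc w α m s * s * q / (Y * Real.sqrt Y) = q * (w α m s * s / (Y * Real.sqrt Y)) := by ring
      _ ≤ q * ((1 - s) ^ α / (Z * Real.sqrt Z)) := mul_le_mul_of_nonneg_left hfrac hq.le
      _ ≤ q * ((q ^ α * ((1 - α) + (α / q) * (1 - s))) / (Z * Real.sqrt Z)) :=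
          mul_le_mul_of_nonneg_left (div_le_div_of_nonneg_right hyoung (by positivity)) hq.le
      _ = _ := by ring

/-- antiderivative -/
noncomputable def H (α q s : ℝ) : ℝ :=
  q ^ α * ((1 - α) * ((-(1 - s)) / (q ^ 2 * Real.sqrt ((1 - s) ^ 2 + q ^ 2))) +
    (α / q) * (1 / Real.sqrt ((1 - s) ^ 2 + q ^ 2)))

lemma hasDerivAt_H (α : ℝ) {q : ℝ} (hq : 0 < q) (s : ℝ) :
    HasDerivAt (H α q) (q ^ α * ((1 - α) * (1 / (((1 - s) ^ 2 + q ^ 2) * Real.sqrt ((1 - s) ^ 2 + q ^ 2))) +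
        (α / q) * ((1 - s) / (((1 - s) ^ 2 + q ^ 2) * Real.sqrt ((1 - s) ^ 2 + q ^ 2))))) s := by
  have hZp : 0 < (1 - s) ^ 2 + q ^ 2 := by positivity
  have h1 : HasDerivAt (fun s : ℝ => (1 - s) ^ 2 + q ^ 2) (-(2 * (1 - s))) s := by
    have h := (((hasDerivAt_id' s).const_sub 1).fun_pow 2).add_const (q ^ 2)
    refine h.congr_deriv ?_
    simp
  have h2 := h1.sqrt hZp.ne'
  have hZs : 0 < Real.sqrt ((1 - s) ^ 2 + q ^ 2) := Real.sqrt_pos.mpr hZp
  have h3 : HasDerivAt (fun s : ℝ => -(1 - s)) 1 s := by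
    have h := ((hasDerivAt_id' s).const_sub 1).fun_neg
    refine h.congr_deriv ?_
    simp
  have h4 := h3.div (h2.const_mul (q ^ 2)) (by positivity)
  have h5 := (hasDerivAt_const s (1 : ℝ)).div h2 hZs.ne'
  have h6 := ((h4.const_mul (1 - α)).add (h5.const_mul (α / q))).const_mul (q ^ α)
  unfold H
  refine h6.congr_deriv ?_
  set R := Real.sqrt ((1 - s) ^ 2 + q ^ 2) with hR
  have hR2 : R ^ 2 = (1 - s) ^ 2 + q ^ 2 := Real.sq_sqrt hZp.le
  have e1 : (1 : ℝ) / (((1 - s) ^ 2 + q ^ 2) * R) =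
      (1 * (q ^ 2 * R) - -(1 - s) * (q ^ 2 * (-(2 * (1 - s)) / (2 * R)))) / (q ^ 2 * R) ^ 2 := by
    rw [← hR2]
    rw [eq_div_iff (by positivity)]
    field_simp
    rw [hR2]
    ring
  have e2 : (1 - s) / (((1 - s) ^ 2 + q ^ 2) * R) =
      (0 * R - 1 * (-(2 * (1 - s)) / (2 * R))) / R ^ 2 := by
    rw [← hR2]
    field_simp
    ring
  rw [e1, e2]

lemma integral_bound {α : ℝ} (h0 : 0 < α) (h1 : α < 1) {m : ℕ} (hm : 2 ≤ m) {q : ℝ} (hq : 0 < q) :
    ∫ s in (0 : ℝ)..1, w α m s * s * q /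
      (((1 - s) ^ 2 + s * q ^ 2) * Real.sqrt ((1 - s) ^ 2 + s * q ^ 2)) ≤ q ^ (α - 1) := by
  have hcont : Continuous (fun s : ℝ => q ^ α * ((1 - α) * (1 / (((1 - s) ^ 2 + q ^ 2) * Real.sqrt ((1 - s) ^ 2 + q ^ 2))) +
        (α / q) * ((1 - s) / (((1 - s) ^ 2 + q ^ 2) * Real.sqrt ((1 - s) ^ 2 + q ^ 2))))) := by
    have hne : ∀ s : ℝ, ((1 - s) ^ 2 + q ^ 2) * Real.sqrt ((1 - s) ^ 2 + q ^ 2) ≠ 0 := by
      intro s
      have : 0 < (1 - s) ^ 2 + q ^ 2 := by positivity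
      have := Real.sqrt_pos.mpr this
      positivity
    have hc : Continuous (fun s : ℝ => ((1 - s) ^ 2 + q ^ 2) * Real.sqrt ((1 - s) ^ 2 + q ^ 2)) := by
      fun_prop
    refine continuous_const.mul ((continuous_const.mul (continuous_const.div hc hne)).add
      (continuous_const.mul (Continuous.div (by fun_prop) hc hne)))
  have hFTC : ∫ s in (0 : ℝ)..1, q ^ α * ((1 - α) * (1 / (((1 - s) ^ 2 + q ^ 2) * Real.sqrt ((1 - s) ^ 2 + q ^ 2))) +
        (α / q) * ((1 - s) / (((1 - s) ^ 2 + q ^ 2) * Real.sqrt ((1 - s) ^ 2 + q ^ 2)))) = H α q 1 - H α q 0 :=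
    intervalIntegral.integral_eq_sub_of_hasDerivAt (fun s _ => hasDerivAt_H α hq s)
      (hcont.intervalIntegrable 0 1)
  have hle : ∫ s in (0 : ℝ)..1, w α m s * s * q /
      (((1 - s) ^ 2 + s * q ^ 2) * Real.sqrt ((1 - s) ^ 2 + s * q ^ 2)) ≤
      ∫ s in (0 : ℝ)..1, q * (q ^ α * ((1 - α) * (1 / (((1 - s) ^ 2 + q ^ 2) * Real.sqrt ((1 - s) ^ 2 + q ^ 2))) +
        (α / q) * ((1 - s) / (((1 - s) ^ 2 + q ^ 2) * Real.sqrt ((1 - s) ^ 2 + q ^ 2))))) := by
    refine intervalIntegral.integral_mono_on zero_le_one ?_ ((continuous_const.mul hcont).intervalIntegrable 0 1)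
      fun s hs => pointwise h0 h1 hm hq hs.1 hs.2
    refine ContinuousOn.intervalIntegrable ?_
    rw [Set.uIcc_of_le zero_le_one]
    exact integrand'_cont h0 h1 (by omega) hq
  refine hle.trans ?_
  rw [intervalIntegral.integral_const_mul, hFTC]
  have hH : H α q 1 - H α q 0 ≤ q ^ α * (1 / q ^ 2) := by
    unfold H
    have e1 : Real.sqrt ((1 - 1) ^ 2 + q ^ 2) = q := by
      rw [sub_self, zero_pow two_ne_zero, zero_add, Real.sqrt_sq hq.le]
    have e2 : (1 - 0 : ℝ) = 1 := by norm_num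
    rw [e1, e2]
    set R := Real.sqrt (1 ^ 2 + q ^ 2) with hR
    have hR1 : 1 ≤ R := by
      rw [hR]; apply Real.one_le_sqrt.mpr; nlinarith [sq_nonneg q]
    have hqα : 0 < q ^ α := Real.rpow_pos_of_pos hq α
    rw [← mul_sub]
    refine mul_le_mul_of_nonneg_left ?_ hqα.le
    have h2 : 1 / (q ^ 2 * R) ≤ 1 / q ^ 2 := by
      apply one_div_le_one_div_of_le (by positivity)
      nlinarith [sq_nonneg q]
    have h3 : 0 ≤ (α / q) * (1 / R) := by positivity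
    have e3 : (1 - α) * (-(1 - 1) / (q ^ 2 * q)) + α / q * (1 / q) - ((1 - α) * (-1 / (q ^ 2 * R)) + α / q * (1 / R)) =
        (1 - α) * (1 / (q ^ 2 * R)) + α * (1 / q ^ 2) - (α / q) * (1 / R) := by
      field_simp
      ring
    rw [e3]
    nlinarith [mul_le_mul_of_nonneg_left h2 (by linarith : (0 : ℝ) ≤ 1 - α)]
  calc q * (H α q 1 - H α q 0) ≤ q * (q ^ α * (1 / q ^ 2)) := mul_le_mul_of_nonneg_left hH hq.le
    _ = q ^ (α - 1) := by
      rw [Real.rpow_sub_one hq.ne']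
      field_simp

lemma Phi_mono {α : ℝ} (h0 : 0 < α) (h1 : α < 1) {m : ℕ} (hm : 2 ≤ m) :
    MonotoneOn (Phi α m) (Set.Ioc 0 2) := by
  have hder : ∀ q : ℝ, 0 < q → q ≤ 2 → HasDerivAt (Phi α m) (α * q ^ (α - 1) +
      C α * (∫ s in (0 : ℝ)..1, -(w α m s * s * q /
      (((1 - s) ^ 2 + s * q ^ 2) * Real.sqrt ((1 - s) ^ 2 + s * q ^ 2))))) q := by
    intro q hq hq2
    exact (Real.hasDerivAt_rpow_const (Or.inl hq.ne')).add
      ((hasDerivAt_Gf h0 h1 (by omega) hq hq2).const_mul (C α))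
  refine monotoneOn_of_deriv_nonneg (convex_Ioc _ _) ?_ ?_ ?_
  · exact fun q hq => (hder q hq.1 hq.2).continuousAt.continuousWithinAt
  · intro q hq
    rw [interior_Ioc] at hq
    exact (hder q hq.1 hq.2.le).differentiableAt.differentiableWithinAt
  · intro q hq
    rw [interior_Ioc] at hq
    rw [(hder q hq.1 hq.2.le).deriv, intervalIntegral.integral_neg]
    have hb := integral_bound h0 h1 hm hq.1
    have hc0 := C_nonneg h0 h1
    have hc1 := C_le h0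
    have hp : 0 < q ^ (α - 1) := Real.rpow_pos_of_pos hq.1 _
    have h2 := mul_le_mul_of_nonneg_left hb hc0
    have h3 := mul_le_mul_of_nonneg_right hc1 hp.le
    linarith

lemma A1_eq_Phi {α : ℝ} (h0 : 0 < α) (h1 : α < 1) {m : ℕ} (hm : 1 ≤ m) (hodd : Odd m) :
    A1 α m = Phi α m 2 := by
  have hx : ‖(1 : ℂ)‖ = 1 := norm_one
  have hx1 : (1 : ℂ) ≠ -1 := by norm_num
  obtain ⟨L, hL⟩ := A_eq h0 h1 hx hx1
  have hLe := L_eq h0 h1 hx hx1 hL
  have h := hL m hm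
  rw [A_one, hLe] at h
  have e1 : (-(1 : ℂ)) ^ (m + 1) = 1 := by
    rw [Even.neg_pow (hodd.add_one), one_pow]
  have e2 : (1 + (1 : ℂ)) ^ (α : ℂ) = (((2 : ℝ) ^ α : ℝ) : ℂ) := by
    rw [Complex.ofReal_cpow (by norm_num)]; norm_num
  have e3 : J α m 1 = ((Gf α m 2 : ℝ) : ℂ) := by
    unfold J Gf
    rw [← intervalIntegral.integral_ofReal]
    refine intervalIntegral.integral_congr fun s hs => ?_
    rw [Set.uIcc_of_le zero_le_one] at hs
    have : (1 - s) ^ 2 + s * 2 ^ 2 = (1 + s) ^ 2 := by ring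
    simp only [this]
    rw [Real.sqrt_sq (by linarith [hs.1])]
    push_cast
    rw [mul_one]
  rw [e1, e2, e3, one_mul] at h
  unfold Phi
  exact_mod_cast h

lemma A_le_Phi {α : ℝ} (h0 : 0 < α) (h1 : α < 1) {m : ℕ} (hm : 1 ≤ m) {x : ℂ} (hx : ‖x‖ = 1)
    (hx1 : x ≠ -1) : ‖A α m x‖ ≤ Phi α m ‖1 + x‖ := by
  obtain ⟨L, hL⟩ := A_eq h0 h1 hx hx1
  have hLe := L_eq h0 h1 hx hx1 hL
  rw [hL m hm, hLe]
  refine (norm_add_le _ _).trans ?_
  unfold Phi
  refine add_le_add (le_of_eq ?_) ?_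
  · rw [Complex.norm_cpow_real]
  · rw [norm_mul, norm_mul, norm_pow, norm_neg, hx, one_pow, one_mul, Complex.norm_real,
      Real.norm_of_nonneg (C_nonneg h0 h1)]
    exact mul_le_mul_of_nonneg_left (J_norm_le h0 h1 hm hx hx1) (C_nonneg h0 h1)

lemma A_neg_one {α : ℝ} (h0 : 0 ≤ α) (h1 : α ≤ 1) (n : ℕ) : ‖A α (n + 1) (-1)‖ ≤ A1 α (n + 1) := by
  have e : A α (n + 1) (-1) = ((1 - ∑ k ∈ Finset.range (n + 1), b α (k + 1) : ℝ) : ℂ) := by
    unfold A
    rw [Finset.sum_range_succ']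
    push_cast
    simp only [co_zero, pow_zero, mul_one, Complex.ofReal_one]
    have : ∑ k ∈ Finset.range (n + 1), (co α (k + 1) : ℂ) * (-1) ^ (k + 1) =
        - ∑ k ∈ Finset.range (n + 1), (b α (k + 1) : ℂ) := by
      rw [← Finset.sum_neg_distrib]
      refine Finset.sum_congr rfl fun k _ => ?_
      unfold b; push_cast; ring
    rw [this]; ring
  have h2 := sum_b_le h1 (n + 1)
  have h3 : 0 ≤ ∑ k ∈ Finset.range (n + 1), b α (k + 1) :=
    Finset.sum_nonneg fun k _ => b_nonneg h0 h1 k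
  rw [e, Complex.norm_real, Real.norm_of_nonneg (by linarith)]
  have h4 := A1_ge h0 h1 n
  have h5 : b α 2 ≤ α := by rw [b_two]; nlinarith
  linarith

/-- Brannan's inequality for `β = 1` and odd index -/
theorem brannan {α : ℝ} (h0 : 0 < α) {m : ℕ} (hodd : Odd m) {x : ℂ} (hx : ‖x‖ = 1) :
    ‖A α m x‖ ≤ A1 α m := by
  rcases le_or_gt 1 α with h1 | h1
  · exact Q_ge_one h1 m x hx
  · obtain ⟨k, hk⟩ := hodd
    rcases Nat.eq_zero_or_pos k with hk0 | hk0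
    · -- m = 1
      have : m = 1 := by omega
      rw [this, A_succ, A1_succ, A_zero, A1_zero, co_one]
      refine (norm_add_le _ _).trans ?_
      rw [norm_one, norm_mul, zero_add, pow_one, hx, mul_one, Complex.norm_real,
        Real.norm_of_nonneg h0.le]
    · by_cases hx1 : x = -1
      · rw [hx1]
        obtain ⟨n, hn⟩ : ∃ n, m = n + 1 := ⟨m - 1, by omega⟩
        rw [hn]
        exact A_neg_one h0.le h1.le n
      · rw [A1_eq_Phi h0 h1 (by omega) ⟨k, hk⟩]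
        refine (A_le_Phi h0 h1 (by omega) hx hx1).trans ?_
        exact Phi_mono h0 h1 (by omega) ⟨norm_one_add_pos hx1, norm_one_add_le hx⟩
          ⟨by norm_num, le_rfl⟩ (norm_one_add_le hx)

end Pool.Agent.W774.Brannan
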