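import Pool.Agent.W774.CantorMeas

/-! # `H²` of the complement of a Lebesgue-null compact subset of the real line is trivial -/

set_option autoImplicit false
open MeasureTheory Filter Topology Set Metric
open scoped Real ComplexConjugate

namespace Pool.Agent.W774.HardyTrivial

/-- `u` is locally the real part of a holomorphic function on `Ω`. -/
def LocRe (u : ℂ → ℝ) (Ω : Set ℂ) : Prop :=
  ∀ z ∈ Ω, ∃ r > 0, ball z r ⊆ Ω ∧
    ∃ g : ℂ → ℂ, DifferentiableOn ℂ g (ball z r) ∧ ∀ w ∈ ball z r, u w = (g w).re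

lemma harm_comp {u : ℂ → ℝ} {Ω : Set ℂ} (hu : LocRe u Ω) {φ : ℂ → ℂ}
    (hφ : DifferentiableOn ℂ φ (ball 0 1)) (hmap : MapsTo φ (ball 0 1) Ω) :
    InnerProductSpace.HarmonicOnNhd (fun w => u (φ w)) (ball 0 1) := by
  intro w hw
  obtain ⟨r, hr, -, g, hg, hug⟩ := hu (φ w) (hmap hw)
  have hopen : IsOpen (ball (0:ℂ) 1 ∩ φ ⁻¹' ball (φ w) r) :=
    hφ.continuousOn.isOpen_inter_preimage isOpen_ball isOpen_ball
  have hmem : ball (0:ℂ) 1 ∩ φ ⁻¹' ball (φ w) r ∈ 𝓝 w := hopen.mem_nhds ⟨hw, by simpa using hr⟩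
  have hd : DifferentiableOn ℂ (fun x => g (φ x)) (ball (0:ℂ) 1 ∩ φ ⁻¹' ball (φ w) r) :=
    hg.comp (hφ.mono inter_subset_left) (fun x hx => hx.2)
  have han : AnalyticAt ℂ (fun x => g (φ x)) w := hd.analyticAt hmem
  rw [InnerProductSpace.harmonicAt_congr_nhds (f₂ := fun x => (g (φ x)).re)]
  · exact han.harmonicAt_re
  · filter_upwards [hmem] with x hx
    exact hug _ hx.2

lemma LocRe.conj {u : ℂ → ℝ} {Ω : Set ℂ} (hu : LocRe u Ω) :
    LocRe (fun z => u (conj z)) {z | conj z ∈ Ω} := by
  intro z hz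
  obtain ⟨r, hr, hsub, g, hg, hug⟩ := hu (conj z) hz
  have key : ∀ w, w ∈ ball z r → conj w ∈ ball (conj z) r := by
    intro w hw
    rw [mem_ball, Complex.dist_eq] at *
    rw [← map_sub, Complex.norm_conj]; exact hw
  refine ⟨r, hr, fun w hw => hsub (key w hw), fun w => conj (g (conj w)), ?_, ?_⟩
  · intro w hw
    have h1 : DifferentiableAt ℂ g (conj w) :=
      hg.differentiableAt (isOpen_ball.mem_nhds (key w hw))
    have h2 := h1.conj_conj
    rw [Complex.conj_conj] at h2
    exact h2.differentiableWithinAt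
  · intro w hw
    rw [Complex.conj_re]
    exact hug _ (key w hw)

/-- mean value bound -/
lemma mean_bound {F : ℂ → ℂ} {U : ℂ → ℝ} (hF : DifferentiableOn ℂ F (ball 0 1))
    (hU : InnerProductSpace.HarmonicOnNhd U (ball 0 1)) (hFU : ∀ w ∈ ball (0:ℂ) 1, ‖F w‖ ^ 2 ≤ U w)
    {R : ℝ} (hR0 : 0 < R) (hR1 : R < 1) :
    ∫ θ in (0:ℝ)..2 * π, ‖F (circleMap 0 R θ)‖ ^ 2 ≤ 2 * π * U 0 := by
  have hmem : ∀ θ : ℝ, circleMap 0 R θ ∈ ball (0:ℂ) 1 := by
    intro θ
    rw [mem_ball_zero_iff]; simp [abs_of_pos hR0, hR1]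
  have h1 := InnerProductSpace.HarmonicOnNhd.circleAverage_eq (f := U) (c := 0) (R := R)
    (hU.mono (by
      intro z hz
      rw [mem_closedBall_zero_iff, abs_of_pos hR0] at hz
      rw [mem_ball_zero_iff]; linarith))
  rw [Real.circleAverage_def, smul_eq_mul] at h1
  have h2 : ∫ θ in (0:ℝ)..2 * π, U (circleMap 0 R θ) = 2 * π * U 0 := by
    rw [← h1]; field_simp
  rw [← h2]
  have hc1 : Continuous (fun θ => ‖F (circleMap 0 R θ)‖ ^ 2) :=
    ((hF.continuousOn.comp_continuous (continuous_circleMap 0 R) hmem).norm).pow 2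
  have hc2 : Continuous (fun θ => U (circleMap 0 R θ)) :=
    hU.continuousOn.comp_continuous (continuous_circleMap 0 R) hmem
  exact intervalIntegral.integral_mono_on Real.two_pi_pos.le
    (hc1.intervalIntegrable _ _) (hc2.intervalIntegrable _ _) (fun θ _ => hFU _ (hmem θ))

/-- the kernel identity -/
lemma kernel {F G : ℂ → ℂ} (hF : DifferentiableOn ℂ F (ball 0 1))
    (hG : DifferentiableOn ℂ G (ball 0 1)) {R : ℝ} (hR0 : 0 < R) (hR1 : R < 1) {w : ℂ}
    (hw : ‖w‖ < R) :
    (2 * π : ℂ) * (F w - F 0) = ∫ θ in (0:ℝ)..2 * π,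
      (F (circleMap 0 R θ) - conj (G (circleMap 0 R θ))) * (w / (circleMap 0 R θ - w)) := by
  have hmem : ∀ θ : ℝ, circleMap 0 R θ ∈ ball (0:ℂ) 1 := by
    intro θ
    rw [mem_ball_zero_iff]; simp [abs_of_pos hR0, hR1]
  have hne0 : ∀ θ : ℝ, circleMap 0 R θ ≠ 0 := fun θ => circleMap_ne_center hR0.ne'
  have hnw : ∀ θ : ℝ, circleMap 0 R θ - w ≠ 0 := by
    intro θ h
    have : circleMap 0 R θ = w := sub_eq_zero.1 h
    rw [← this] at hw
    simp [abs_of_pos hR0] at hw
  have hsub : closedBall (0:ℂ) R ⊆ ball 0 1 := by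
    intro z hz
    rw [mem_closedBall_zero_iff] at hz
    rw [mem_ball_zero_iff]; linarith
  have hFd : DiffContOnCl ℂ F (ball 0 R) := by
    apply DifferentiableOn.diffContOnCl
    rw [closure_ball _ hR0.ne']; exact hF.mono hsub
  have hcF : Continuous (fun θ => F (circleMap 0 R θ)) :=
    hF.continuousOn.comp_continuous (continuous_circleMap 0 R) hmem
  have hcG : Continuous (fun θ => G (circleMap 0 R θ)) :=
    hG.continuousOn.comp_continuous (continuous_circleMap 0 R) hmem
  have hcK : Continuous (fun θ => w / (circleMap 0 R θ - w)) :=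
    continuous_const.div ((continuous_circleMap 0 R).sub continuous_const) hnw
  -- Cauchy for F
  have e1 : ∀ v : ℂ, ‖v‖ < R → (∫ θ in (0:ℝ)..2 * π,
      circleMap 0 R θ / (circleMap 0 R θ - v) * F (circleMap 0 R θ)) = 2 * π * F v := by
    intro v hv
    have h := hFd.circleIntegral_sub_inv_smul (w := v) (by rwa [mem_ball_zero_iff])
    rw [circleIntegral] at h
    have h2 : (fun θ : ℝ => deriv (circleMap 0 R) θ • ((circleMap 0 R θ - v)⁻¹ • F (circleMap 0 R θ)))
        = fun θ : ℝ => Complex.I * (circleMap 0 R θ / (circleMap 0 R θ - v) * F (circleMap 0 R θ)) := by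
      funext θ
      rw [deriv_circleMap, smul_eq_mul, smul_eq_mul]; ring
    rw [h2, intervalIntegral.integral_const_mul, smul_eq_mul] at h
    have hI : Complex.I ≠ 0 := Complex.I_ne_zero
    have h3 : Complex.I * (∫ θ in (0:ℝ)..2 * π,
      circleMap 0 R θ / (circleMap 0 R θ - v) * F (circleMap 0 R θ)) = Complex.I * (2 * π * F v) := by
      rw [h]; ring
    exact mul_left_cancel₀ hI h3
  have e2 : (∫ θ in (0:ℝ)..2 * π, F (circleMap 0 R θ) * (w / (circleMap 0 R θ - w)))
      = 2 * π * (F w - F 0) := by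
    have h1 := e1 w hw
    have h0 := e1 0 (by simpa using hR0)
    rw [mul_sub, ← h1, ← h0, ← intervalIntegral.integral_sub]
    · apply intervalIntegral.integral_congr
      intro θ _
      simp only [sub_zero]
      rw [div_self (hne0 θ)]
      have := hnw θ
      field_simp
      ring
    · apply Continuous.intervalIntegrable
      exact ((continuous_circleMap 0 R).div ((continuous_circleMap 0 R).sub continuous_const) hnw).mul hcF
    · apply Continuous.intervalIntegrable
      exact ((continuous_circleMap 0 R).div ((continuous_circleMap 0 R).sub continuous_const)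
        (fun θ => by simpa using hne0 θ)).mul hcF
  -- Cauchy-Goursat for G
  have e3 : (∫ θ in (0:ℝ)..2 * π, conj (G (circleMap 0 R θ)) * (w / (circleMap 0 R θ - w))) = 0 := by
    have hden : ∀ z ∈ closedBall (0:ℂ) R, (R:ℂ) ^ 2 - conj w * z ≠ 0 := by
      intro z hz h
      rw [mem_closedBall_zero_iff] at hz
      have h1 : (R:ℂ) ^ 2 = conj w * z := sub_eq_zero.1 h
      have h2 : R ^ 2 = ‖w‖ * ‖z‖ := by
        have := congrArg norm h1
        rw [norm_mul, norm_pow, Complex.norm_conj, Complex.norm_real, Real.norm_eq_abs,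
          abs_of_pos hR0] at this
        exact this
      nlinarith [norm_nonneg w, norm_nonneg z]
    have hd : DiffContOnCl ℂ (fun z => G z * conj w / ((R:ℂ) ^ 2 - conj w * z)) (ball 0 R) := by
      apply DifferentiableOn.diffContOnCl
      rw [closure_ball _ hR0.ne']
      apply DifferentiableOn.div
      · exact (hG.mono hsub).mul_const _
      · fun_prop
      · exact hden
    have h := hd.circleIntegral_eq_zero hR0.le
    rw [circleIntegral] at h
    have h2 : (fun θ : ℝ => deriv (circleMap 0 R) θ • ((fun z => G z * conj w / ((R:ℂ) ^ 2 - conj w * z)) (circleMap 0 R θ)))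
        = fun θ : ℝ => Complex.I * conj (conj (G (circleMap 0 R θ)) * (w / (circleMap 0 R θ - w))) := by
      funext θ
      rw [deriv_circleMap, smul_eq_mul]
      simp only [map_mul, map_div₀, map_sub, Complex.conj_conj]
      set z := circleMap 0 R θ with hz
      have hz0 : z ≠ 0 := hne0 θ
      have hzz : z * conj z = (R:ℂ) ^ 2 := by
        rw [Complex.mul_conj, Complex.normSq_eq_norm_sq, hz, norm_circleMap_zero, sq_abs]
        push_cast; rfl
      have hd1 : (R:ℂ) ^ 2 - conj w * z ≠ 0 := by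
        apply hden
        rw [mem_closedBall_zero_iff, hz, norm_circleMap_zero, abs_of_pos hR0]
      have hd2 : conj z - conj w ≠ 0 := by
        intro h
        apply hnw θ
        have := congrArg (starRingEnd ℂ) h
        simpa using this
      rw [← hzz] at hd1 ⊢
      have hd3 : z * conj z - conj w * z = z * (conj z - conj w) := by ring
      rw [hd3]
      field_simp
    rw [h2, intervalIntegral.integral_const_mul] at h
    have h3 := (mul_eq_zero.1 h).resolve_left Complex.I_ne_zero
    have h4 : (∫ θ in (0:ℝ)..2 * π, conj (conj (G (circleMap 0 R θ)) * (w / (circleMap 0 R θ - w))))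
        = conj (∫ θ in (0:ℝ)..2 * π, (conj (G (circleMap 0 R θ)) * (w / (circleMap 0 R θ - w)))) := by
      rw [intervalIntegral.integral_of_le Real.two_pi_pos.le,
        intervalIntegral.integral_of_le Real.two_pi_pos.le, integral_conj]
    rw [h4] at h3
    simpa using h3
  rw [← e2]
  have e4 : (fun θ : ℝ => (F (circleMap 0 R θ) - conj (G (circleMap 0 R θ)))
        * (w / (circleMap 0 R θ - w)))
      = fun θ : ℝ => F (circleMap 0 R θ) * (w / (circleMap 0 R θ - w))
        - conj (G (circleMap 0 R θ)) * (w / (circleMap 0 R θ - w)) := by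
    funext θ; ring
  rw [e4, intervalIntegral.integral_sub, e3, sub_zero]
  · exact (hcF.mul hcK).intervalIntegrable _ _
  · exact ((Complex.continuous_conj.comp hcG).mul hcK).intervalIntegrable _ _


/-- truncated Vitali: continuous nonnegative functions, bounded in `L²`, tending to `0` a.e. -/
lemma vitali {h : ℕ → ℝ → ℝ} (hc : ∀ n, Continuous (h n)) (h0 : ∀ n θ, 0 ≤ h n θ) {M : ℝ}
    (hM : ∀ n, ∫ θ in (0:ℝ)..2 * π, h n θ ^ 2 ≤ M)
    (hlim : ∀ᵐ θ ∂(volume : Measure ℝ), θ ∈ Set.uIoc 0 (2 * π) → Tendsto (fun n => h n θ) atTop (𝓝 0)) :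
    Tendsto (fun n => ∫ θ in (0:ℝ)..2 * π, h n θ) atTop (𝓝 0) := by
  have hM0 : 0 ≤ M := le_trans
    (intervalIntegral.integral_nonneg Real.two_pi_pos.le (fun θ _ => sq_nonneg (h 0 θ))) (hM 0)
  rw [Metric.tendsto_atTop]
  intro ε hε
  set A : ℝ := 2 * (M + 1) / ε with hA
  have hApos : 0 < A := by positivity
  have h1 : Tendsto (fun n => ∫ θ in (0:ℝ)..2 * π, min (h n θ) A) atTop
      (𝓝 (∫ _θ in (0:ℝ)..2 * π, (0:ℝ))) := by
    apply intervalIntegral.tendsto_integral_filter_of_dominated_convergence (fun _ => A)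
    · exact Eventually.of_forall (fun n => ((hc n).min continuous_const).aestronglyMeasurable)
    · refine Eventually.of_forall (fun n => Eventually.of_forall (fun θ _ => ?_))
      rw [Real.norm_eq_abs, abs_of_nonneg (le_min (h0 n θ) hApos.le)]
      exact min_le_right _ _
    · exact intervalIntegrable_const
    · filter_upwards [hlim] with θ hθ hmem
      have h2 := (hθ hmem).min (tendsto_const_nhds (x := A))
      rwa [min_eq_left hApos.le] at h2
  rw [intervalIntegral.integral_zero, Metric.tendsto_atTop] at h1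
  obtain ⟨N, hN⟩ := h1 (ε / 2) (by positivity)
  refine ⟨N, fun n hn => ?_⟩
  have h3 := hN n hn
  rw [Real.dist_0_eq_abs] at h3 ⊢
  have h4 : ∫ θ in (0:ℝ)..2 * π, h n θ ≤ (∫ θ in (0:ℝ)..2 * π, min (h n θ) A)
      + ∫ θ in (0:ℝ)..2 * π, h n θ ^ 2 / A := by
    rw [← intervalIntegral.integral_add]
    · apply intervalIntegral.integral_mono_on Real.two_pi_pos.le
      · exact (hc n).intervalIntegrable _ _
      · exact (((hc n).min continuous_const).add (((hc n).pow 2).div_const A)).intervalIntegrable _ _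
      · intro θ _
        rcases le_total (h n θ) A with hle | hle
        · rw [min_eq_left hle]
          have : 0 ≤ h n θ ^ 2 / A := by positivity
          linarith
        · have h5 : h n θ ≤ h n θ ^ 2 / A := by
            rw [le_div_iff₀ hApos]; nlinarith [h0 n θ]
          have h6 : 0 ≤ min (h n θ) A := le_min (h0 n θ) hApos.le
          linarith
    · exact ((hc n).min continuous_const).intervalIntegrable _ _
    · exact (((hc n).pow 2).div_const A).intervalIntegrable _ _
  have h7 : ∫ θ in (0:ℝ)..2 * π, h n θ ^ 2 / A ≤ ε / 2 := by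
    rw [intervalIntegral.integral_div, div_le_iff₀ hApos, hA]
    refine (hM n).trans ?_
    field_simp
    linarith
  have h8 : 0 ≤ ∫ θ in (0:ℝ)..2 * π, h n θ :=
    intervalIntegral.integral_nonneg Real.two_pi_pos.le (fun θ _ => h0 n θ)
  rw [abs_of_nonneg h8]
  have := le_abs_self (∫ θ in (0:ℝ)..2 * π, min (h n θ) A)
  linarith

/-- the constancy lemma -/
lemma const_of {F G : ℂ → ℂ} (hF : DifferentiableOn ℂ F (ball 0 1))
    (hG : DifferentiableOn ℂ G (ball 0 1)) {U V : ℂ → ℝ}
    (hU : InnerProductSpace.HarmonicOnNhd U (ball 0 1)) (hFU : ∀ w ∈ ball (0:ℂ) 1, ‖F w‖ ^ 2 ≤ U w)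
    (hV : InnerProductSpace.HarmonicOnNhd V (ball 0 1)) (hGV : ∀ w ∈ ball (0:ℂ) 1, ‖G w‖ ^ 2 ≤ V w)
    (hae : ∀ᵐ θ ∂(volume : Measure ℝ), θ ∈ Set.uIoc 0 (2 * π) →
      Tendsto (fun n : ℕ => F (circleMap 0 (1 - 1 / ((n:ℝ) + 2)) θ)
        - conj (G (circleMap 0 (1 - 1 / ((n:ℝ) + 2)) θ))) atTop (𝓝 0)) :
    ∀ w ∈ ball (0:ℂ) 1, F w = F 0 := by
  set R : ℕ → ℝ := fun n => 1 - 1 / ((n:ℝ) + 2) with hR
  have hR0 : ∀ n, 0 < R n := by
    intro n
    simp only [hR]
    have : 1 / ((n:ℝ) + 2) ≤ 1 / 2 := by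
      apply one_div_le_one_div_of_le (by norm_num)
      have : (0:ℝ) ≤ n := Nat.cast_nonneg n
      linarith
    linarith
  have hR1 : ∀ n, R n < 1 := by
    intro n
    simp only [hR]
    have : 0 < 1 / ((n:ℝ) + 2) := by positivity
    linarith
  have hRlim : Tendsto R atTop (𝓝 1) := by
    have h1 : Tendsto (fun n : ℕ => 1 / ((n:ℝ) + 2)) atTop (𝓝 0) := by
      have := tendsto_one_div_add_atTop_nhds_zero_nat (𝕜 := ℝ)
      have h2 := this.comp (tendsto_add_atTop_nat 1)
      refine h2.congr (fun n => ?_)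
      simp only [Function.comp_apply]; push_cast; ring_nf
    have h2 := h1.const_sub 1
    rwa [sub_zero] at h2
  set h : ℕ → ℝ → ℝ := fun n θ => ‖F (circleMap 0 (R n) θ) - conj (G (circleMap 0 (R n) θ))‖ with hh
  have hmem : ∀ n, ∀ θ : ℝ, circleMap 0 (R n) θ ∈ ball (0:ℂ) 1 := by
    intro n θ
    rw [mem_ball_zero_iff]; simp [abs_of_pos (hR0 n), hR1 n]
  have hcF : ∀ n, Continuous (fun θ => F (circleMap 0 (R n) θ)) := fun n =>
    hF.continuousOn.comp_continuous (continuous_circleMap 0 (R n)) (hmem n)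
  have hcG : ∀ n, Continuous (fun θ => G (circleMap 0 (R n) θ)) := fun n =>
    hG.continuousOn.comp_continuous (continuous_circleMap 0 (R n)) (hmem n)
  have hcc : ∀ n, Continuous (h n) := fun n =>
    ((hcF n).sub (Complex.continuous_conj.comp (hcG n))).norm
  have hv := vitali (h := h) (M := 2 * (2 * π * U 0) + 2 * (2 * π * V 0)) hcc
    (fun n θ => norm_nonneg _) (fun n => by
      have h1 := mean_bound hF hU hFU (hR0 n) (hR1 n)
      have h2 := mean_bound hG hV hGV (hR0 n) (hR1 n)
      calc ∫ θ in (0:ℝ)..2 * π, h n θ ^ 2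
          ≤ ∫ θ in (0:ℝ)..2 * π, (2 * ‖F (circleMap 0 (R n) θ)‖ ^ 2
            + 2 * ‖G (circleMap 0 (R n) θ)‖ ^ 2) := by
            apply intervalIntegral.integral_mono_on Real.two_pi_pos.le
            · exact ((hcc n).pow 2).intervalIntegrable _ _
            · exact ((((hcF n).norm.pow 2).const_mul 2).add
                (((hcG n).norm.pow 2).const_mul 2)).intervalIntegrable _ _
            · intro θ _
              have h3 : h n θ ≤ ‖F (circleMap 0 (R n) θ)‖ + ‖G (circleMap 0 (R n) θ)‖ := by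
                simp only [hh]
                refine (norm_sub_le _ _).trans ?_
                rw [Complex.norm_conj]
              have h4 : 0 ≤ h n θ := norm_nonneg _
              nlinarith [sq_nonneg (‖F (circleMap 0 (R n) θ)‖ - ‖G (circleMap 0 (R n) θ)‖),
                norm_nonneg (F (circleMap 0 (R n) θ)), norm_nonneg (G (circleMap 0 (R n) θ))]
        _ = 2 * (∫ θ in (0:ℝ)..2 * π, ‖F (circleMap 0 (R n) θ)‖ ^ 2)
            + 2 * ∫ θ in (0:ℝ)..2 * π, ‖G (circleMap 0 (R n) θ)‖ ^ 2 := by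
            rw [intervalIntegral.integral_add, intervalIntegral.integral_const_mul,
              intervalIntegral.integral_const_mul]
            · exact (((hcF n).norm.pow 2).const_mul 2).intervalIntegrable _ _
            · exact (((hcG n).norm.pow 2).const_mul 2).intervalIntegrable _ _
        _ ≤ _ := by linarith)
    (by
      filter_upwards [hae] with θ hθ hm
      have := (hθ hm).norm
      rwa [norm_zero] at this)
  intro w hw
  rw [mem_ball_zero_iff] at hw
  have hev : ∀ᶠ n in atTop, ‖w‖ < R n ∧ (1 - ‖w‖) / 2 ≤ R n - ‖w‖ := by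
    have h1 : ∀ᶠ n in atTop, (1 + ‖w‖) / 2 < R n := hRlim.eventually (lt_mem_nhds (by linarith))
    filter_upwards [h1] with n hn
    constructor <;> linarith
  have hbound : ∀ᶠ n in atTop, ‖(2 * π : ℂ) * (F w - F 0)‖
      ≤ (‖w‖ / ((1 - ‖w‖) / 2)) * ∫ θ in (0:ℝ)..2 * π, h n θ := by
    filter_upwards [hev] with n hn
    rw [kernel hF hG (hR0 n) (hR1 n) hn.1, ← intervalIntegral.integral_const_mul]
    refine (intervalIntegral.norm_integral_le_integral_norm Real.two_pi_pos.le).trans ?_
    have hnw : ∀ θ : ℝ, (1 - ‖w‖) / 2 ≤ ‖circleMap 0 (R n) θ - w‖ := by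
      intro θ
      have h1 : ‖circleMap 0 (R n) θ‖ = R n := by rw [norm_circleMap_zero, abs_of_pos (hR0 n)]
      have h2 := norm_sub_norm_le (circleMap 0 (R n) θ) w
      rw [h1] at h2
      linarith [hn.2]
    have hpos : 0 < (1 - ‖w‖) / 2 := by linarith
    have hne : ∀ θ : ℝ, circleMap 0 (R n) θ - w ≠ 0 := by
      intro θ h0
      have := hnw θ
      rw [h0, norm_zero] at this
      linarith
    apply intervalIntegral.integral_mono_on Real.two_pi_pos.le
    · apply Continuous.intervalIntegrable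
      exact (((hcF n).sub (Complex.continuous_conj.comp (hcG n))).mul
        (continuous_const.div ((continuous_circleMap 0 (R n)).sub continuous_const) hne)).norm
    · exact ((hcc n).const_mul _).intervalIntegrable _ _
    · intro θ _
      rw [norm_mul, norm_div, mul_comm]
      apply mul_le_mul_of_nonneg_right _ (norm_nonneg _)
      exact div_le_div_of_nonneg_left (norm_nonneg _) hpos (hnw θ)
  have hlim : Tendsto (fun n => (‖w‖ / ((1 - ‖w‖) / 2)) * ∫ θ in (0:ℝ)..2 * π, h n θ) atTop (𝓝 0) := by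
    have := hv.const_mul (‖w‖ / ((1 - ‖w‖) / 2))
    rwa [mul_zero] at this
  have hle : ‖(2 * π : ℂ) * (F w - F 0)‖ ≤ 0 :=
    ge_of_tendsto hlim hbound
  have h9 : (2 * π : ℂ) * (F w - F 0) = 0 := norm_le_zero_iff.1 hle
  have h10 : (2 * π : ℂ) ≠ 0 := by
    simp [Real.pi_ne_zero]
  exact sub_eq_zero.1 ((mul_eq_zero.1 h9).resolve_left h10)


/-- Cayley transform from the disc to the upper half plane -/
noncomputable def cay (w : ℂ) : ℂ := Complex.I * (1 + w) / (1 - w)

lemma one_sub_ne {w : ℂ} (hw : w ∈ ball (0:ℂ) 1) : 1 - w ≠ 0 := by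
  intro h
  rw [mem_ball_zero_iff] at hw
  have : w = 1 := (sub_eq_zero.1 h).symm
  rw [this, norm_one] at hw
  exact lt_irrefl _ hw

lemma cay_diff : DifferentiableOn ℂ cay (ball 0 1) := by
  unfold cay
  apply DifferentiableOn.div
  · fun_prop
  · fun_prop
  · intro w hw; exact one_sub_ne hw

lemma cay_im {w : ℂ} (hw : w ∈ ball (0:ℂ) 1) : 0 < (cay w).im := by
  have h1 : 1 - w ≠ 0 := one_sub_ne hw
  have h2 : (cay w).im = (1 - Complex.normSq w) / Complex.normSq (1 - w) := by
    unfold cay
    rw [Complex.div_im]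
    have h2 : Complex.normSq (1 - w) ≠ 0 := by simpa using h1
    simp [Complex.normSq_apply] at *
    field_simp
    ring
  rw [h2]
  apply div_pos
  · rw [Complex.normSq_eq_norm_sq]
    rw [mem_ball_zero_iff] at hw
    nlinarith [norm_nonneg w]
  · exact Complex.normSq_pos.2 h1

lemma cay_surj {z : ℂ} (hz : 0 < z.im) : ∃ w ∈ ball (0:ℂ) 1, cay w = z := by
  have h1 : z + Complex.I ≠ 0 := by
    intro h
    have := congrArg Complex.im h
    simp at this
    linarith
  refine ⟨(z - Complex.I) / (z + Complex.I), ?_, ?_⟩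
  · rw [mem_ball_zero_iff, norm_div, div_lt_one (norm_pos_iff.2 h1)]
    rw [← sq_lt_sq₀ (norm_nonneg _) (norm_nonneg _), ← Complex.normSq_eq_norm_sq,
      ← Complex.normSq_eq_norm_sq]
    simp [Complex.normSq_apply]
    nlinarith
  · unfold cay
    have h2 : 1 - (z - Complex.I) / (z + Complex.I) = 2 * Complex.I / (z + Complex.I) := by
      field_simp; ring
    have h3 : 1 + (z - Complex.I) / (z + Complex.I) = 2 * z / (z + Complex.I) := by
      field_simp; ring
    rw [h2, h3]
    have hI := Complex.I_ne_zero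
    field_simp

lemma cay_circle {a : ℝ} (ha : Real.cos a ≠ 0) :
    cay (circleMap 0 1 (π + 2 * a)) = ((Real.tan a : ℝ) : ℂ) ∧ circleMap 0 1 (π + 2 * a) ≠ 1 := by
  set e : ℂ := Complex.exp (a * Complex.I) with he
  have hw : circleMap 0 1 (π + 2 * a) = - e ^ 2 := by
    rw [circleMap, he, ← Complex.exp_nat_mul]
    push_cast
    rw [show ((π:ℂ) + 2 * a) * Complex.I = π * Complex.I + 2 * (a * Complex.I) by ring,
      Complex.exp_add, Complex.exp_pi_mul_I]
    ring
  have hcs : e = Complex.cos a + Complex.sin a * Complex.I := by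
    rw [he, Complex.exp_mul_I]
  have hone : Complex.cos a ^ 2 + Complex.sin a ^ 2 = 1 := by
    rw [add_comm]; exact Complex.sin_sq_add_cos_sq _
  have hI2 : Complex.I ^ 2 = -1 := Complex.I_sq
  have hc : Complex.cos a ≠ 0 := by
    rw [← Complex.ofReal_cos]; exact_mod_cast ha
  have he0 : e ≠ 0 := Complex.exp_ne_zero _
  have hm : 1 - (- e ^ 2) = 2 * Complex.cos a * e := by
    rw [hcs]
    linear_combination (-1) * hone + Complex.sin a ^ 2 * hI2
  have hp : 1 + (- e ^ 2) = - 2 * Complex.I * Complex.sin a * e := by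
    rw [hcs]
    linear_combination (-1) * hone + Complex.sin a ^ 2 * hI2
  constructor
  · rw [hw]
    unfold cay
    rw [hm, hp, Complex.ofReal_tan, Complex.tan_eq_sin_div_cos]
    field_simp
    linear_combination (-Complex.sin a) * hI2
  · rw [hw]
    intro h
    have h2 : 1 - (- e ^ 2) = 0 := by rw [h]; ring
    rw [hm] at h2
    have : (2:ℂ) * Complex.cos a * e ≠ 0 := mul_ne_zero (mul_ne_zero two_ne_zero hc) he0
    exact this h2

/-- **Main statement.** -/
theorem trivial_of_null {C : Set ℝ} (hCc : IsClosed C) (hC0 : volume C = 0) {f : ℂ → ℂ}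
    (hf : DifferentiableOn ℂ f ((fun x : ℝ => (x : ℂ)) '' C)ᶜ) {u : ℂ → ℝ}
    (hu : LocRe u ((fun x : ℝ => (x : ℂ)) '' C)ᶜ)
    (hfu : ∀ z ∈ ((fun x : ℝ => (x : ℂ)) '' C)ᶜ, ‖f z‖ ^ 2 ≤ u z) :
    ∀ z : ℂ, 0 < z.im → f z = f Complex.I := by
  set Ω : Set ℂ := ((fun x : ℝ => (x : ℂ)) '' C)ᶜ with hΩ
  have hopen : IsOpen Ω := by
    rw [hΩ, isOpen_compl_iff]
    exact (Complex.isometry_ofReal.isClosedEmbedding).isClosedMap _ hCc
  have hup : ∀ z : ℂ, z.im ≠ 0 → z ∈ Ω := by
    rintro z hz ⟨x, -, rfl⟩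
    simp at hz
  have hconjΩ : {z : ℂ | conj z ∈ Ω} = Ω := by
    ext z
    simp only [hΩ, mem_compl_iff, mem_image, mem_ofPred_eq, not_exists, not_and]
    constructor
    · intro h x hx hxz
      apply h x hx
      rw [← hxz, Complex.conj_ofReal]
    · intro h x hx hxz
      apply h x hx
      have := congrArg (starRingEnd ℂ) hxz
      rw [Complex.conj_ofReal, Complex.conj_conj] at this
      exact this
  have hu2 : LocRe (fun z => u (conj z)) Ω := by
    have := hu.conj
    rwa [hconjΩ] at this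
  have hmap : MapsTo cay (ball 0 1) Ω := fun w hw => hup _ (cay_im hw).ne'
  set F : ℂ → ℂ := fun w => f (cay w) with hF
  set G : ℂ → ℂ := fun w => conj (f (conj (cay w))) with hG
  have hFd : DifferentiableOn ℂ F (ball 0 1) := hf.comp cay_diff hmap
  have hf2 : DifferentiableOn ℂ (fun z => conj (f (conj z))) Ω := by
    intro z hz
    have hz' : conj z ∈ Ω := by
      have : z ∈ {z : ℂ | conj z ∈ Ω} := by rw [hconjΩ]; exact hz
      exact this
    have h1 := (hf.differentiableAt (hopen.mem_nhds hz')).conj_conj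
    rw [Complex.conj_conj] at h1
    exact h1.differentiableWithinAt
  have hGd : DifferentiableOn ℂ G (ball 0 1) := hf2.comp cay_diff hmap
  have hmem2 : ∀ w ∈ ball (0:ℂ) 1, conj (cay w) ∈ Ω := by
    intro w hw
    apply hup
    rw [Complex.conj_im]
    exact neg_ne_zero.2 (cay_im hw).ne'
  have hconst : ∀ w ∈ ball (0:ℂ) 1, F w = F 0 := by
    refine const_of hFd hGd (harm_comp hu cay_diff hmap) (fun w hw => hfu _ (hmap hw))
      (harm_comp hu2 cay_diff hmap) (fun w hw => ?_) ?_
    · simp only [hG, Complex.norm_conj]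
      exact hfu _ (hmem2 w hw)
    · -- a.e. convergence
      have hnull : volume ((fun x : ℝ => π + 2 * Real.arctan x) '' C ∪ {2 * π}) = 0 := by
        rw [measure_union_null_iff]
        refine ⟨?_, by simp⟩
        apply MeasureTheory.addHaar_image_eq_zero_of_differentiableOn_of_addHaar_eq_zero _ _ hC0
        exact ((Real.differentiable_arctan.const_mul 2).const_add π).differentiableOn
      have hnull' := measure_eq_zero_iff_ae_notMem.1 hnull
      filter_upwards [hnull'] with θ hθ hmem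
      rw [Set.uIoc_of_le Real.two_pi_pos.le] at hmem
      have hθ2 : θ ≠ 2 * π := fun h => hθ (Or.inr h)
      have hθlt : θ < 2 * π := lt_of_le_of_ne hmem.2 hθ2
      set a : ℝ := (θ - π) / 2 with ha
      have ha1 : -(π / 2) < a := by rw [ha]; linarith [hmem.1]
      have ha2 : a < π / 2 := by rw [ha]; linarith
      have hθa : θ = π + 2 * a := by rw [ha]; ring
      have hcos : Real.cos a ≠ 0 := (Real.cos_pos_of_mem_Ioo ⟨ha1, ha2⟩).ne'
      obtain ⟨hc1, hc2⟩ := cay_circle hcos
      rw [← hθa] at hc1 hc2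
      have hnC : Real.tan a ∉ C := by
        intro h
        apply hθ
        left
        refine ⟨Real.tan a, h, ?_⟩
        simp only
        rw [Real.arctan_tan ha1 ha2, ← hθa]
      have hxΩ : ((Real.tan a : ℝ) : ℂ) ∈ Ω := by
        rintro ⟨x, hx, hxe⟩
        have : x = Real.tan a := Complex.ofReal_injective hxe
        exact hnC (this ▸ hx)
      have hfc : ContinuousAt f ((Real.tan a : ℝ) : ℂ) :=
        (hf.differentiableAt (hopen.mem_nhds hxΩ)).continuousAt
      have hcirc : Tendsto (fun n : ℕ => circleMap 0 (1 - 1 / ((n:ℝ) + 2)) θ) atTop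
          (𝓝 (circleMap 0 1 θ)) := by
        have h1 : Tendsto (fun n : ℕ => 1 / ((n:ℝ) + 2)) atTop (𝓝 0) := by
          have := tendsto_one_div_add_atTop_nhds_zero_nat (𝕜 := ℝ)
          have h2 := this.comp (tendsto_add_atTop_nat 1)
          refine h2.congr (fun n => ?_)
          simp only [Function.comp_apply]; push_cast; ring_nf
        have h2 : Tendsto (fun n : ℕ => 1 - 1 / ((n:ℝ) + 2)) atTop (𝓝 1) := by
          have := h1.const_sub 1
          rwa [sub_zero] at this
        have h3 : Continuous (fun r : ℝ => circleMap 0 r θ) := by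
          unfold circleMap; fun_prop
        exact (h3.tendsto 1).comp h2
      have hcay : ContinuousAt cay (circleMap 0 1 θ) := by
        unfold cay
        apply ContinuousAt.div
        · fun_prop
        · fun_prop
        · exact sub_ne_zero.2 (Ne.symm hc2)
      have h4 : Tendsto (fun n : ℕ => cay (circleMap 0 (1 - 1 / ((n:ℝ) + 2)) θ)) atTop
          (𝓝 ((Real.tan a : ℝ) : ℂ)) := by
        have := hcay.tendsto.comp hcirc
        rwa [hc1] at this
      have h5 : Tendsto (fun n : ℕ => conj (cay (circleMap 0 (1 - 1 / ((n:ℝ) + 2)) θ))) atTop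
          (𝓝 ((Real.tan a : ℝ) : ℂ)) := by
        have := (Complex.continuous_conj.tendsto _).comp h4
        rwa [Complex.conj_ofReal] at this
      have h6 := hfc.tendsto.comp h4
      have h7 := hfc.tendsto.comp h5
      have h8 := h6.sub h7
      rw [sub_self] at h8
      refine h8.congr (fun n => ?_)
      simp only [hF, hG, Function.comp_apply, Complex.conj_conj]
  intro z hz
  obtain ⟨w, hw, rfl⟩ := cay_surj hz
  have h1 := hconst w hw
  have h2 : cay 0 = Complex.I := by simp [cay]
  simp only [hF] at h1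
  rw [h1, h2]

lemma connected_compl {C : Set ℝ} (hC0 : volume C = 0) :
    IsConnected ((fun x : ℝ => (x : ℂ)) '' C)ᶜ := by
  have hup : ∀ z : ℂ, z.im ≠ 0 → z ∈ ((fun x : ℝ => (x : ℂ)) '' C)ᶜ := by
    rintro z hz ⟨x, -, rfl⟩
    simp at hz
  refine ⟨⟨Complex.I, hup _ (by simp)⟩, ?_⟩
  obtain ⟨x0, hx0⟩ : ∃ x0, x0 ∉ C := by
    by_contra h
    push Not at h
    have : C = univ := eq_univ_of_forall h
    rw [this] at hC0
    simp at hC0
  set S : ℝ → Set ℂ := fun x => ({z : ℂ | 0 < z.im} ∪ {z : ℂ | z.re = x}) ∪ {z : ℂ | z.im < 0} with hS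
  have hSc : ∀ x, IsPreconnected (S x) := by
    intro x
    have h1 : IsPreconnected {z : ℂ | 0 < z.im} := (convex_halfSpace_im_gt 0).isPreconnected
    have h2 : IsPreconnected {z : ℂ | z.im < 0} := (convex_halfSpace_im_lt 0).isPreconnected
    have h3 : IsPreconnected {z : ℂ | z.re = x} := by
      have : Convex ℝ {z : ℂ | z.re = x} := by
        have h := (convex_singleton (𝕜 := ℝ) x).linear_preimage Complex.reLm
        exact h
      exact this.isPreconnected
    have h4 := h1.union (⟨x, 1⟩ : ℂ) (by simp) (by simp) h3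
    exact h4.union (⟨x, -1⟩ : ℂ) (by simp) (by simp) h2
  have hcover : ((fun x : ℝ => (x : ℂ)) '' C)ᶜ = ⋃₀ (S '' Cᶜ) := by
    ext z
    constructor
    · intro hz
      rw [mem_sUnion]
      rcases lt_trichotomy z.im 0 with h | h | h
      · exact ⟨S x0, ⟨x0, hx0, rfl⟩, Or.inr h⟩
      · refine ⟨S z.re, ⟨z.re, ?_, rfl⟩, Or.inl (Or.inr rfl)⟩
        intro hzC
        apply hz
        refine ⟨z.re, hzC, ?_⟩
        apply Complex.ext <;> simp [h]
      · exact ⟨S x0, ⟨x0, hx0, rfl⟩, Or.inl (Or.inl h)⟩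
    · rw [mem_sUnion]
      rintro ⟨_, ⟨x, hx, rfl⟩, hz⟩
      rcases hz with (hz | hz) | hz
      · exact hup z (ne_of_gt hz)
      · rintro ⟨y, hy, rfl⟩
        apply hx
        have : y = x := by simpa using hz
        exact this ▸ hy
      · exact hup z (ne_of_lt hz)
  rw [hcover]
  apply isPreconnected_sUnion Complex.I
  · rintro _ ⟨x, -, rfl⟩
    exact Or.inl (Or.inl (by simp))
  · rintro _ ⟨x, -, rfl⟩
    exact hSc x

end Pool.Agent.W774.HardyTrivial
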