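import Mathlib

set_option autoImplicit false

/-!
Binomial partial sums `A α n x = ∑_{k ≤ n} binom(α,k) x^k` on the unit circle:
the case `α ≥ 1` of Brannan's inequality.
-/

namespace Pool.Agent.W774.Brannan

open Finset Complex

/-- generalized binomial coefficient -/
noncomputable def co (α : ℝ) (k : ℕ) : ℝ :=
  (∏ j ∈ Finset.range k, (α - (j : ℝ))) / (k.factorial : ℝ)

lemma co_zero (α : ℝ) : co α 0 = 1 := by simp [co]

lemma co_succ (α : ℝ) (k : ℕ) : co α (k + 1) = co α k * (α - k) / (k + 1) := by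
  unfold co
  rw [Finset.prod_range_succ, Nat.factorial_succ]
  push_cast
  have h1 : (k.factorial : ℝ) ≠ 0 := by positivity
  have h2 : ((k : ℝ) + 1) ≠ 0 := by positivity
  field_simp

lemma co_one (α : ℝ) : co α 1 = α := by
  rw [co_succ, co_zero]; simp

lemma co_two (α : ℝ) : co α 2 = α * (α - 1) / 2 := by
  rw [co_succ, co_one]; norm_num

/-- `(k+1) binom(s+1,k+1) = (s+1) binom(s,k)` -/
lemma succ_mul_co (s : ℝ) (k : ℕ) : ((k : ℝ) + 1) * co (s + 1) (k + 1) = (s + 1) * co s k := by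
  induction k with
  | zero => simp [co_zero, co_one]
  | succ k ih =>
    rw [co_succ (s + 1) (k + 1), co_succ s k]
    have h2 : ((k : ℝ) + 1) ≠ 0 := by positivity
    have h3 : ((k : ℝ) + 1 + 1) ≠ 0 := by positivity
    push_cast
    have h4 : co (s + 1) (k + 1) = (s + 1) * co s k / (k + 1) := by
      rw [← ih]; field_simp
    rw [h4]
    field_simp
    ring

/-- Pascal -/
lemma co_pascal (s : ℝ) (k : ℕ) : co (s + 1) (k + 1) = co s (k + 1) + co s k := by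
  have h2 : ((k : ℝ) + 1) ≠ 0 := by positivity
  have h := succ_mul_co s k
  have h4 : co (s + 1) (k + 1) = (s + 1) * co s k / (k + 1) := by
    rw [← h]; field_simp
  rw [h4, co_succ]
  field_simp
  ring

/-- the partial sums -/
noncomputable def A (α : ℝ) (n : ℕ) (x : ℂ) : ℂ := ∑ k ∈ Finset.range (n + 1), (co α k : ℂ) * x ^ k

noncomputable def A1 (α : ℝ) (n : ℕ) : ℝ := ∑ k ∈ Finset.range (n + 1), co α k

lemma A_zero (α : ℝ) (x : ℂ) : A α 0 x = 1 := by simp [A, co_zero]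

lemma A1_zero (α : ℝ) : A1 α 0 = 1 := by simp [A1, co_zero]

lemma A_succ (α : ℝ) (n : ℕ) (x : ℂ) : A α (n + 1) x = A α n x + (co α (n + 1) : ℂ) * x ^ (n + 1) := by
  unfold A; rw [Finset.sum_range_succ _ (n + 1)]

lemma A1_succ (α : ℝ) (n : ℕ) : A1 α (n + 1) = A1 α n + co α (n + 1) := by
  unfold A1; rw [Finset.sum_range_succ _ (n + 1)]

lemma A_pascal (s : ℝ) (n : ℕ) (x : ℂ) : A (s + 1) (n + 1) x = A s (n + 1) x + x * A s n x := by
  induction n with
  | zero =>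
    rw [A_succ, A_succ, A_zero, A_zero, co_one, co_one]; push_cast; ring
  | succ n ih =>
    rw [A_succ (s + 1), ih, A_succ s (n + 1), A_succ s n, co_pascal s (n + 1)]
    push_cast; ring

lemma A1_pascal (s : ℝ) (n : ℕ) : A1 (s + 1) (n + 1) = A1 s (n + 1) + A1 s n := by
  induction n with
  | zero => rw [A1_succ, A1_succ, A1_zero, A1_zero, co_one, co_one]; ring
  | succ n ih => rw [A1_succ (s + 1), ih, A1_succ s (n + 1), A1_succ s n, co_pascal s (n + 1)]; ring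

/-- the full statement for one exponent -/
def Q (α : ℝ) : Prop := ∀ (n : ℕ) (x : ℂ), ‖x‖ = 1 → ‖A α n x‖ ≤ A1 α n

lemma Q_succ {s : ℝ} (h : Q s) : Q (s + 1) := by
  intro n x hx
  cases n with
  | zero => rw [A_zero, A1_zero]; simp
  | succ n =>
    rw [A_pascal, A1_pascal]
    calc ‖A s (n + 1) x + x * A s n x‖ ≤ ‖A s (n + 1) x‖ + ‖x * A s n x‖ := norm_add_le _ _
      _ = ‖A s (n + 1) x‖ + ‖A s n x‖ := by rw [norm_mul, hx, one_mul]
      _ ≤ _ := add_le_add (h _ x hx) (h _ x hx)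

/-- signs of the coefficients for `0 ≤ s ≤ 1` -/
noncomputable def b (s : ℝ) (k : ℕ) : ℝ := - ((-1) ^ k * co s k)

lemma co_eq_b (s : ℝ) (k : ℕ) : co s k = - ((-1) ^ k * b s k) := by
  unfold b
  have : ((-1 : ℝ) ^ k) * (-1) ^ k = 1 := by rw [← mul_pow]; norm_num
  calc co s k = ((-1 : ℝ) ^ k * (-1) ^ k) * co s k := by rw [this, one_mul]
    _ = _ := by ring

lemma b_one (s : ℝ) : b s 1 = s := by simp [b, co_one]

lemma b_two (s : ℝ) : b s 2 = s * (1 - s) / 2 := by simp [b, co_two]; ring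

lemma b_succ (s : ℝ) (k : ℕ) : b s (k + 1) = b s k * (k - s) / (k + 1) := by
  unfold b; rw [co_succ, pow_succ]; ring

lemma b_nonneg {s : ℝ} (h0 : 0 ≤ s) (h1 : s ≤ 1) (k : ℕ) : 0 ≤ b s (k + 1) := by
  induction k with
  | zero => simpa [b_one] using h0
  | succ k ih =>
    rw [b_succ]
    have : (0 : ℝ) ≤ ((k + 1 : ℕ) : ℝ) - s := by push_cast; linarith [Nat.cast_nonneg (α := ℝ) k]
    positivity

lemma mul_b_anti {s : ℝ} (h0 : 0 ≤ s) (h1 : s ≤ 1) (k : ℕ) :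
    ((k : ℝ) + 2) * b s (k + 2) ≤ ((k : ℝ) + 1) * b s (k + 1) := by
  have hb := b_nonneg h0 h1 k
  have : ((k : ℝ) + 2) * b s (k + 2) = b s (k + 1) * (k + 1 - s) := by
    rw [b_succ s (k + 1)]; push_cast; field_simp; ring
  rw [this]
  nlinarith

lemma b_anti {s : ℝ} (h0 : 0 ≤ s) (h1 : s ≤ 1) (k : ℕ) : b s (k + 2) ≤ b s (k + 1) := by
  have hb := b_nonneg h0 h1 k
  have hb2 := b_nonneg h0 h1 (k + 1)
  have := mul_b_anti h0 h1 k
  have hk : (0 : ℝ) ≤ k := Nat.cast_nonneg k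
  nlinarith

lemma mul_b_le {s : ℝ} (h0 : 0 ≤ s) (h1 : s ≤ 1) (k : ℕ) :
    ((k : ℝ) + 2) * b s (k + 2) ≤ 1 / 4 := by
  induction k with
  | zero =>
    simp only [Nat.cast_zero, zero_add, b_two]
    nlinarith [sq_nonneg (s - 1 / 2)]
  | succ k ih =>
    have := mul_b_anti h0 h1 (k + 1)
    push_cast at this ⊢
    have e : (k : ℝ) + 1 + 2 = (k + 1 : ℝ) + 2 := by ring
    have e2 : (k : ℝ) + 1 + 1 = (k : ℝ) + 2 := by ring
    rw [e2] at this
    linarith

lemma mul_b_le_s {s : ℝ} (h0 : 0 ≤ s) (h1 : s ≤ 1) (k : ℕ) :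
    ((k : ℝ) + 1) * b s (k + 1) ≤ s := by
  induction k with
  | zero => simp [b_one]
  | succ k ih =>
    have := mul_b_anti h0 h1 k
    push_cast
    have e2 : (k : ℝ) + 1 + 1 = (k : ℝ) + 2 := by ring
    rw [e2]
    linarith

/-- `∑_{k ≤ n} (-1)^k binom(s+1... )` telescopes -/
lemma alt_sum (s : ℝ) (n : ℕ) : ∑ k ∈ Finset.range (n + 1), (-1 : ℝ) ^ k * co (s + 1) k =
    (-1) ^ n * co s n := by
  induction n with
  | zero => simp [co_zero]
  | succ n ih => rw [Finset.sum_range_succ, ih, co_pascal, pow_succ]; ring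

/-- `∑_{1 ≤ k ≤ n} b_k ≤ 1` -/
lemma sum_b_le {s : ℝ} (h1 : s ≤ 1) (n : ℕ) :
    ∑ k ∈ Finset.range n, b s (k + 1) ≤ 1 := by
  have h := alt_sum (s - 1) n
  rw [sub_add_cancel, Finset.sum_range_succ'] at h
  simp only [pow_zero, co_zero, mul_one] at h
  have h2 : ∑ k ∈ Finset.range n, b s (k + 1) = 1 - (-1) ^ n * co (s - 1) n := by
    rw [← h]; simp [b]
  have h3 : ∀ n : ℕ, 0 ≤ (-1 : ℝ) ^ n * co (s - 1) n := by
    intro n
    induction n with
    | zero => simp [co_zero]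
    | succ n ih =>
      rw [co_succ]
      have : (-1 : ℝ) ^ (n + 1) * (co (s - 1) n * (s - 1 - n) / (n + 1)) =
        ((-1) ^ n * co (s - 1) n) * ((1 - s + n) / (n + 1)) := by rw [pow_succ]; ring
      rw [this]
      have : (0 : ℝ) ≤ 1 - s + n := by linarith [Nat.cast_nonneg (α := ℝ) n]
      positivity
  rw [h2]; linarith [h3 n]

lemma abs_co {s : ℝ} (h0 : 0 ≤ s) (h1 : s ≤ 1) (k : ℕ) : |co s (k + 1)| = b s (k + 1) := by
  rw [co_eq_b, abs_neg, abs_mul, abs_pow, abs_neg, abs_one, one_pow, one_mul,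
    abs_of_nonneg (b_nonneg h0 h1 k)]

lemma sum_abs_co_le {s : ℝ} (h0 : 0 ≤ s) (h1 : s ≤ 1) (n : ℕ) :
    ∑ k ∈ Finset.range n, |co s k| ≤ 2 := by
  cases n with
  | zero => simp
  | succ n =>
    rw [Finset.sum_range_succ']
    simp only [co_zero, abs_one]
    have : ∑ k ∈ Finset.range n, |co s (k + 1)| = ∑ k ∈ Finset.range n, b s (k + 1) :=
      Finset.sum_congr rfl fun k _ => abs_co h0 h1 k
    rw [this]
    linarith [sum_b_le h1 n]

/-- Abel summation -/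
lemma abel_aux {s : ℝ} (h0 : 0 ≤ s) (h1 : s ≤ 1) {y : ℂ} (hy : ‖y‖ = 1) (n : ℕ) :
    ‖(1 - y) * ∑ k ∈ Finset.range (n + 1), (b s (k + 2) : ℂ) * y ^ (k + 2)
      + (b s (n + 2) : ℂ) * y ^ (n + 3)‖ ≤ 2 * b s 2 - b s (n + 2) := by
  induction n with
  | zero =>
    have : (1 - y) * ∑ k ∈ Finset.range (0 + 1), (b s (k + 2) : ℂ) * y ^ (k + 2)
      + (b s (0 + 2) : ℂ) * y ^ (0 + 3) = (b s 2 : ℂ) * y ^ 2 := by
      simp; ring
    rw [this, norm_mul, norm_pow, hy, one_pow, mul_one, Complex.norm_real,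
      Real.norm_of_nonneg (b_nonneg h0 h1 1)]
    linarith
  | succ n ih =>
    have e : (1 - y) * ∑ k ∈ Finset.range (n + 1 + 1), (b s (k + 2) : ℂ) * y ^ (k + 2)
      + (b s (n + 1 + 2) : ℂ) * y ^ (n + 1 + 3) =
      ((1 - y) * ∑ k ∈ Finset.range (n + 1), (b s (k + 2) : ℂ) * y ^ (k + 2)
      + (b s (n + 2) : ℂ) * y ^ (n + 3)) - ((b s (n + 2) - b s (n + 3) : ℝ) : ℂ) * y ^ (n + 3) := by
      rw [Finset.sum_range_succ]
      push_cast
      have e1 : n + 1 + 2 = n + 3 := rfl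
      have e2 : n + 1 + 3 = n + 4 := rfl
      rw [e1, e2]
      ring
    rw [e]
    have h3 : ‖((b s (n + 2) - b s (n + 3) : ℝ) : ℂ) * y ^ (n + 3)‖ = b s (n + 2) - b s (n + 3) := by
      rw [norm_mul, norm_pow, hy, one_pow, mul_one, Complex.norm_real,
        Real.norm_of_nonneg (by linarith [b_anti h0 h1 (n + 1)])]
    have := norm_sub_le ((1 - y) * ∑ k ∈ Finset.range (n + 1), (b s (k + 2) : ℂ) * y ^ (k + 2)
      + (b s (n + 2) : ℂ) * y ^ (n + 3)) (((b s (n + 2) - b s (n + 3) : ℝ) : ℂ) * y ^ (n + 3))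
    rw [h3] at this
    have e1 : n + 1 + 2 = n + 3 := rfl
    rw [e1]
    linarith

lemma abel {s : ℝ} (h0 : 0 ≤ s) (h1 : s ≤ 1) {y : ℂ} (hy : ‖y‖ = 1) (n : ℕ) :
    ‖(1 - y) * ∑ k ∈ Finset.range n, (b s (k + 2) : ℂ) * y ^ (k + 2)‖ ≤ 2 * b s 2 := by
  cases n with
  | zero => simp; exact b_nonneg h0 h1 1
  | succ n =>
    have h := abel_aux h0 h1 hy n
    have h3 : ‖(b s (n + 2) : ℂ) * y ^ (n + 3)‖ = b s (n + 2) := by
      rw [norm_mul, norm_pow, hy, one_pow, mul_one, Complex.norm_real,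
        Real.norm_of_nonneg (b_nonneg h0 h1 (n + 1))]
    have := norm_sub_le ((1 - y) * ∑ k ∈ Finset.range (n + 1), (b s (k + 2) : ℂ) * y ^ (k + 2)
      + (b s (n + 2) : ℂ) * y ^ (n + 3)) ((b s (n + 2) : ℂ) * y ^ (n + 3))
    rw [h3, add_sub_cancel_right] at this
    linarith

lemma A_split (s : ℝ) (n : ℕ) (x : ℂ) : A s (n + 1) x = 1 + s * x
    - ∑ k ∈ Finset.range n, (b s (k + 2) : ℂ) * (-x) ^ (k + 2) := by
  induction n with
  | zero => rw [A_succ, A_zero, co_one]; simp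
  | succ n ih =>
    rw [A_succ, ih, Finset.sum_range_succ, co_eq_b]
    push_cast
    rw [neg_pow x (n + 2)]
    have e1 : n + 1 + 1 = n + 2 := rfl
    rw [e1]
    ring

lemma A1_split (s : ℝ) (n : ℕ) : A1 s (n + 1) = 1 + s
    - ∑ k ∈ Finset.range n, b s (k + 2) * (-1) ^ (k + 2) := by
  induction n with
  | zero => rw [A1_succ, A1_zero, co_one]; simp
  | succ n ih =>
    rw [A1_succ, ih, Finset.sum_range_succ, co_eq_b]
    have e1 : n + 1 + 1 = n + 2 := rfl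
    rw [e1]
    ring

lemma A1_ge {s : ℝ} (h0 : 0 ≤ s) (h1 : s ≤ 1) (n : ℕ) : 1 + s - b s 2 ≤ A1 s (n + 1) := by
  rw [A1_split]
  have h := abel h0 h1 (y := -1) (by simp) n
  have e : (1 - (-1 : ℂ)) * ∑ k ∈ Finset.range n, (b s (k + 2) : ℂ) * (-1) ^ (k + 2) =
      ((2 * ∑ k ∈ Finset.range n, b s (k + 2) * (-1) ^ (k + 2) : ℝ) : ℂ) := by
    push_cast; ring
  rw [e, Complex.norm_real, Real.norm_eq_abs] at h
  have := le_abs_self (2 * ∑ k ∈ Finset.range n, b s (k + 2) * (-1) ^ (k + 2))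
  linarith

lemma A_ge {s : ℝ} (h0 : 0 ≤ s) (h1 : s ≤ 1) (n : ℕ) {x : ℂ} (hx : ‖x‖ = 1) (hre : 0 ≤ x.re) :
    3 / 4 ≤ ‖A s (n + 1) x‖ := by
  rw [A_split]
  have h := abel h0 h1 (y := -x) (by simpa using hx) n
  rw [norm_mul, sub_neg_eq_add] at h
  have h2 : 1 ≤ ‖1 + x‖ := by
    have := Complex.re_le_norm (1 + x)
    simp at this; linarith
  have h3 : ‖∑ k ∈ Finset.range n, (b s (k + 2) : ℂ) * (-x) ^ (k + 2)‖ ≤ 2 * b s 2 := by
    have h4 : 0 ≤ ‖∑ k ∈ Finset.range n, (b s (k + 2) : ℂ) * (-x) ^ (k + 2)‖ := norm_nonneg _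
    nlinarith
  have h5 : 2 * b s 2 ≤ 1 / 4 := by
    have := mul_b_le h0 h1 0
    simpa using this
  have h6 : 1 ≤ ‖1 + (s : ℂ) * x‖ := by
    have := Complex.re_le_norm (1 + (s : ℂ) * x)
    simp at this
    nlinarith [mul_nonneg h0 hre]
  have h7 := norm_sub_norm_le (1 + (s : ℂ) * x)
    (∑ k ∈ Finset.range n, (b s (k + 2) : ℂ) * (-x) ^ (k + 2))
  linarith

/-- the crude bound in the left half plane -/
lemma left_half {s : ℝ} (h0 : 0 ≤ s) (h1 : s ≤ 1) (n : ℕ) {x : ℂ} (hx : ‖x‖ = 1) (hre : x.re ≤ 0) :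
    ‖A (s + 1) (n + 2) x‖ ≤ A1 (s + 1) (n + 2) := by
  -- upper bound
  have hco : ∀ k, |co (s + 1) (k + 2)| = (-1) ^ k * co (s + 1) (k + 2) := by
    intro k
    have hk : 0 ≤ (-1 : ℝ) ^ k * co (s + 1) (k + 2) := by
      induction k with
      | zero => rw [co_two]; simp; positivity
      | succ k ih =>
        rw [co_succ, pow_succ]
        have : (-1 : ℝ) ^ k * -1 * (co (s + 1) (k + 1 + 1) * (s + 1 - ((k + 1 + 1 : ℕ) : ℝ)) /
          (((k + 1 + 1 : ℕ) : ℝ) + 1)) = ((-1 : ℝ) ^ k * co (s + 1) (k + 2)) *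
            ((1 - s + k) / (((k + 1 + 1 : ℕ) : ℝ) + 1)) := by
          push_cast
          have e1 : k + 1 + 1 = k + 2 := rfl
          rw [e1]; ring
        have e1 : k + 1 + 1 + 1 = k + 3 := rfl
        have e2 : k + 1 + 2 = k + 3 := rfl
        rw [this]
        have : (0 : ℝ) ≤ 1 - s + k := by linarith [Nat.cast_nonneg (α := ℝ) k]
        positivity
    have h5 : |co (s + 1) (k + 2)| = |(-1) ^ k * co (s + 1) (k + 2)| := by
      rw [abs_mul, abs_pow, abs_neg, abs_one, one_pow, one_mul]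
    rw [h5, abs_of_nonneg hk]
  have hsum : ∑ k ∈ Finset.range (n + 1), |co (s + 1) (k + 2)| ≤ s := by
    have h := alt_sum s (n + 2)
    rw [Finset.sum_range_succ', Finset.sum_range_succ'] at h
    simp only [pow_zero, co_zero, mul_one, zero_add, pow_one, co_one] at h
    have e : ∑ k ∈ Finset.range (n + 1), |co (s + 1) (k + 2)| =
        ∑ k ∈ Finset.range (n + 1), (-1 : ℝ) ^ (k + 1 + 1) * co (s + 1) (k + 1 + 1) := by
      refine Finset.sum_congr rfl fun k _ => ?_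
      rw [hco]
      have e1 : k + 1 + 1 = k + 2 := rfl
      rw [e1, pow_succ, pow_succ]; ring
    have h6 : (-1 : ℝ) ^ (n + 2) * co s (n + 2) = - b s (n + 2) := by
      unfold b; ring
    rw [h6] at h
    rw [e]
    have := b_nonneg h0 h1 (n + 1)
    linarith
  have hup : ‖A (s + 1) (n + 2) x‖ ≤ ‖1 + ((s + 1 : ℝ) : ℂ) * x‖ + s := by
    have e : A (s + 1) (n + 2) x = (1 + ((s + 1 : ℝ) : ℂ) * x) +
        ∑ k ∈ Finset.range (n + 1), (co (s + 1) (k + 2) : ℂ) * x ^ (k + 2) := by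
      unfold A
      rw [Finset.sum_range_succ', Finset.sum_range_succ']
      simp only [co_zero, zero_add, co_one]
      simp
      ring
    rw [e]
    refine (norm_add_le _ _).trans (add_le_add le_rfl ?_)
    refine (norm_sum_le _ _).trans (le_trans (le_of_eq ?_) hsum)
    refine Finset.sum_congr rfl fun k _ => ?_
    rw [norm_mul, norm_pow, hx, one_pow, mul_one, Complex.norm_real, Real.norm_eq_abs]
  have h1x : ‖1 + ((s + 1 : ℝ) : ℂ) * x‖ ^ 2 ≤ 1 + (s + 1) ^ 2 := by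
    rw [← Complex.normSq_eq_norm_sq, Complex.normSq_apply]
    have hn : x.re * x.re + x.im * x.im = 1 := by
      rw [← Complex.normSq_apply, Complex.normSq_eq_norm_sq, hx]; norm_num
    simp
    nlinarith [mul_nonneg (by linarith : (0 : ℝ) ≤ s + 1) (neg_nonneg.mpr hre)]
  have hlow : 2 * (1 + s - b s 2) ≤ A1 (s + 1) (n + 2) := by
    rw [A1_pascal s (n + 1)]
    have := A1_ge h0 h1 n
    have := A1_ge h0 h1 (n + 1)
    linarith
  rw [b_two] at hlow
  have h8 : ‖1 + ((s + 1 : ℝ) : ℂ) * x‖ ≤ 2 + s ^ 2 := by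
    refine le_of_sq_le_sq ?_ (by positivity)
    refine h1x.trans ?_
    nlinarith [sq_nonneg (s - 1 / 2), sq_nonneg s, sq_nonneg (s ^ 2)]
  nlinarith

end Pool.Agent.W774.Brannan
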