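import Pool.Agent.W774.Brannan1

set_option autoImplicit false

namespace Pool.Agent.W774.Brannan

open Finset Complex
open scoped ComplexConjugate

lemma abs_im_pow {x : ℂ} (hx : ‖x‖ = 1) (j : ℕ) : |(x ^ j).im| ≤ j * |x.im| := by
  induction j with
  | zero => simp
  | succ j ih =>
    rw [pow_succ, Complex.mul_im]
    have h1 : |(x ^ j).re| ≤ 1 := by
      have := Complex.abs_re_le_norm (x ^ j)
      rwa [norm_pow, hx, one_pow] at this
    have h2 : |x.re| ≤ 1 := by
      have := Complex.abs_re_le_norm x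
      rwa [hx] at this
    calc |(x ^ j).re * x.im + (x ^ j).im * x.re|
        ≤ |(x ^ j).re * x.im| + |(x ^ j).im * x.re| := abs_add_le _ _
      _ = |(x ^ j).re| * |x.im| + |(x ^ j).im| * |x.re| := by rw [abs_mul, abs_mul]
      _ ≤ 1 * |x.im| + (j * |x.im|) * 1 := by
          refine add_le_add (mul_le_mul_of_nonneg_right h1 (abs_nonneg _))
            (mul_le_mul ih h2 (abs_nonneg _) (by positivity))
      _ = ((j + 1 : ℕ) : ℝ) * |x.im| := by push_cast; ring

/-- key sign -/
lemma key_im {s : ℝ} (h0 : 0 ≤ s) (h1 : s ≤ 1) (n : ℕ) {x : ℂ} (hx : ‖x‖ = 1) (hre : 0 ≤ x.re)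
    (him : 0 ≤ x.im) :
    0 ≤ (conj (A (s + 1) (n + 2) x) * (x * A s (n + 1) x)).im := by
  set E := A s (n + 1) x with hE
  have hg : A (s + 1) (n + 2) x = E + (co s (n + 2) : ℂ) * x ^ (n + 2) + x * E := by
    rw [A_pascal s (n + 1), A_succ s (n + 1)]
  have hxx : conj x * x = 1 := by
    rw [mul_comm, Complex.mul_conj, Complex.normSq_eq_norm_sq, hx]; norm_num
  have e1 : conj (A (s + 1) (n + 2) x) * (x * E) =
      (((‖E‖ ^ 2 : ℝ) : ℂ)) * x + ((co s (n + 2) : ℝ) : ℂ) * (conj x ^ (n + 1) * E) +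
        (((‖x * E‖ ^ 2 : ℝ) : ℂ)) := by
    rw [hg]
    simp only [map_add, map_mul, map_pow, Complex.conj_ofReal]
    have h2 : conj E * E = ((‖E‖ ^ 2 : ℝ) : ℂ) := by
      rw [mul_comm, Complex.mul_conj, Complex.normSq_eq_norm_sq]
    have h3 : conj x * conj E * (x * E) = ((‖x * E‖ ^ 2 : ℝ) : ℂ) := by
      rw [← map_mul, mul_comm, Complex.mul_conj, Complex.normSq_eq_norm_sq]
    have h4 : conj x ^ (n + 2) * (x * E) = conj x ^ (n + 1) * E := by
      rw [pow_succ]
      calc conj x ^ (n + 1) * conj x * (x * E) = conj x ^ (n + 1) * ((conj x * x) * E) := by ring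
        _ = _ := by rw [hxx, one_mul]
    rw [← h2, ← h3, ← h4]
    ring
  rw [e1]
  have h5 : ((((‖E‖ ^ 2 : ℝ) : ℂ)) * x + ((co s (n + 2) : ℝ) : ℂ) * (conj x ^ (n + 1) * E) +
        (((‖x * E‖ ^ 2 : ℝ) : ℂ))).im = ‖E‖ ^ 2 * x.im + co s (n + 2) * (conj x ^ (n + 1) * E).im := by
    rw [Complex.add_im, Complex.add_im, Complex.im_ofReal_mul, Complex.im_ofReal_mul,
      Complex.ofReal_im, add_zero]
  rw [h5]
  have hEn : 3 / 4 ≤ ‖E‖ := A_ge h0 h1 n hx hre
  -- bound of the second term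
  have h6 : conj x ^ (n + 1) * E = ∑ k ∈ Finset.range (n + 2), (co s k : ℂ) * conj x ^ (n + 1 - k) := by
    rw [hE, A, Finset.mul_sum]
    refine Finset.sum_congr rfl fun k hk => ?_
    have hk' : k ≤ n + 1 := by
      have := Finset.mem_range.mp hk; omega
    have : conj x ^ (n + 1) = conj x ^ (n + 1 - k) * conj x ^ k := by
      rw [← pow_add]; congr 1; omega
    rw [this]
    calc conj x ^ (n + 1 - k) * conj x ^ k * ((co s k : ℂ) * x ^ k)
        = (co s k : ℂ) * conj x ^ (n + 1 - k) * (conj x * x) ^ k := by rw [mul_pow]; ring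
      _ = _ := by rw [hxx, one_pow, mul_one]
  have hcx : ‖conj x‖ = 1 := by rw [Complex.norm_conj, hx]
  have h7 : |(conj x ^ (n + 1) * E).im| ≤ 2 * ((n + 1 : ℕ) : ℝ) * x.im := by
    rw [h6, Complex.im_sum]
    calc |∑ k ∈ Finset.range (n + 2), ((co s k : ℂ) * conj x ^ (n + 1 - k)).im|
        ≤ ∑ k ∈ Finset.range (n + 2), |((co s k : ℂ) * conj x ^ (n + 1 - k)).im| :=
          Finset.abs_sum_le_sum_abs _ _
      _ ≤ ∑ k ∈ Finset.range (n + 2), |co s k| * (((n + 1 : ℕ) : ℝ) * x.im) := by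
          refine Finset.sum_le_sum fun k _ => ?_
          rw [Complex.im_ofReal_mul, abs_mul]
          refine mul_le_mul_of_nonneg_left ?_ (abs_nonneg _)
          refine (abs_im_pow hcx _).trans ?_
          rw [Complex.conj_im, abs_neg, abs_of_nonneg him]
          refine mul_le_mul_of_nonneg_right ?_ him
          exact_mod_cast Nat.sub_le _ _
      _ = (∑ k ∈ Finset.range (n + 2), |co s k|) * (((n + 1 : ℕ) : ℝ) * x.im) := by
          rw [Finset.sum_mul]
      _ ≤ 2 * (((n + 1 : ℕ) : ℝ) * x.im) := by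
          refine mul_le_mul_of_nonneg_right (sum_abs_co_le h0 h1 _) (by positivity)
      _ = _ := by ring
  have h8 : |co s (n + 2)| * ((n : ℝ) + 2) ≤ 1 / 4 := by
    have := mul_b_le h0 h1 n
    have h9 := abs_co h0 h1 (n + 1)
    have e3 : n + 1 + 1 = n + 2 := rfl
    rw [e3] at h9
    rw [h9]; linarith
  have h10 : |co s (n + 2) * (conj x ^ (n + 1) * E).im| ≤ 1 / 2 * x.im := by
    rw [abs_mul]
    have h11 : |co s (n + 2)| * |(conj x ^ (n + 1) * E).im| ≤
        |co s (n + 2)| * (2 * ((n + 1 : ℕ) : ℝ) * x.im) :=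
      mul_le_mul_of_nonneg_left h7 (abs_nonneg _)
    have h12 : |co s (n + 2)| * ((n : ℝ) + 1) ≤ 1 / 4 := by
      have := abs_nonneg (co s (n + 2)); nlinarith
    push_cast at h11
    nlinarith
  have h13 := neg_abs_le (co s (n + 2) * (conj x ^ (n + 1) * E).im)
  have h14 : (9 / 16 : ℝ) ≤ ‖E‖ ^ 2 := by nlinarith
  nlinarith

lemma hasDerivAt_A (s : ℝ) (n : ℕ) (θ : ℝ) :
    HasDerivAt (fun t : ℝ => A (s + 1) (n + 1) (Complex.exp (t * I)))
      (I * ((s + 1 : ℝ) : ℂ) * (Complex.exp (θ * I) * A s n (Complex.exp (θ * I)))) θ := by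
  have hx : HasDerivAt (fun t : ℝ => Complex.exp (t * I)) (Complex.exp (θ * I) * I) θ := by
    have h := ((hasDerivAt_id θ).ofReal_comp.mul_const I).cexp
    simpa using h
  have h : ∀ k ∈ Finset.range (n + 1 + 1), HasDerivAt
      (fun t : ℝ => (co (s + 1) k : ℂ) * Complex.exp (t * I) ^ k)
      ((co (s + 1) k : ℂ) * (k * Complex.exp (θ * I) ^ (k - 1) * (Complex.exp (θ * I) * I))) θ :=
    fun k _ => (hx.pow k).const_mul _
  have h2 := HasDerivAt.fun_sum h
  have e : ∑ k ∈ Finset.range (n + 1 + 1),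
      (co (s + 1) k : ℂ) * (k * Complex.exp (θ * I) ^ (k - 1) * (Complex.exp (θ * I) * I)) =
      I * ((s + 1 : ℝ) : ℂ) * (Complex.exp (θ * I) * A s n (Complex.exp (θ * I))) := by
    rw [Finset.sum_range_succ', A, Finset.mul_sum, Finset.mul_sum]
    simp only [CharP.cast_eq_zero, zero_mul, mul_zero, add_zero]
    refine Finset.sum_congr rfl fun k _ => ?_
    have h3 : (((k : ℝ) + 1) * co (s + 1) (k + 1) : ℝ) = (s + 1) * co s k := succ_mul_co s k
    have h4 : ((k : ℂ) + 1) * (co (s + 1) (k + 1) : ℂ) = ((s : ℂ) + 1) * (co s k : ℂ) := by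
      exact_mod_cast h3
    rw [Nat.add_sub_cancel]
    push_cast
    linear_combination (Complex.exp (θ * I) ^ k * (Complex.exp (θ * I) * I)) * h4
  rw [e] at h2
  exact h2

lemma right_half {s : ℝ} (h0 : 0 ≤ s) (h1 : s ≤ 1) (n : ℕ) {θ : ℝ} (hθ0 : 0 ≤ θ)
    (hθ : θ ≤ Real.pi / 2) :
    ‖A (s + 1) (n + 2) (Complex.exp (θ * I))‖ ^ 2 ≤ ‖A (s + 1) (n + 2) 1‖ ^ 2 := by
  have hder : ∀ t : ℝ, HasDerivAt (fun t : ℝ => ‖A (s + 1) (n + 2) (Complex.exp (t * I))‖ ^ 2)
      (2 * inner ℝ (A (s + 1) (n + 2) (Complex.exp (t * I)))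
        (I * ((s + 1 : ℝ) : ℂ) * (Complex.exp (t * I) * A s (n + 1) (Complex.exp (t * I))))) t :=
    fun t => (hasDerivAt_A s (n + 1) t).norm_sq
  have hanti : AntitoneOn (fun t : ℝ => ‖A (s + 1) (n + 2) (Complex.exp (t * I))‖ ^ 2)
      (Set.Icc 0 (Real.pi / 2)) := by
    refine antitoneOn_of_deriv_nonpos (convex_Icc _ _) ?_ ?_ ?_
    · exact fun t _ => (hder t).continuousAt.continuousWithinAt
    · exact fun t _ => (hder t).differentiableAt.differentiableWithinAt
    · intro t ht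
      rw [interior_Icc] at ht
      rw [(hder t).deriv, Complex.inner]
      have hx : ‖Complex.exp (t * I)‖ = 1 := Complex.norm_exp_ofReal_mul_I t
      have hre : 0 ≤ (Complex.exp (t * I)).re := by
        rw [Complex.exp_ofReal_mul_I_re]
        exact Real.cos_nonneg_of_neg_pi_div_two_le_of_le (by linarith [ht.1, Real.pi_pos]) ht.2.le
      have him : 0 ≤ (Complex.exp (t * I)).im := by
        rw [Complex.exp_ofReal_mul_I_im]
        exact Real.sin_nonneg_of_nonneg_of_le_pi ht.1.le (by linarith [ht.2, Real.pi_pos])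
      have hk := key_im h0 h1 n hx hre him
      set x := Complex.exp (t * I)
      have e : (I * ((s + 1 : ℝ) : ℂ) * (x * A s (n + 1) x) * conj (A (s + 1) (n + 2) x)).re =
          - ((s + 1) * (conj (A (s + 1) (n + 2) x) * (x * A s (n + 1) x)).im) := by
        have : I * ((s + 1 : ℝ) : ℂ) * (x * A s (n + 1) x) * conj (A (s + 1) (n + 2) x) =
          ((s + 1 : ℝ) : ℂ) * (I * (conj (A (s + 1) (n + 2) x) * (x * A s (n + 1) x))) := by ring
        rw [this, Complex.re_ofReal_mul, Complex.I_mul_re]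
        ring
      first
        | rw [e]
        | rw [mul_comm (conj (A (s + 1) (n + 2) x)) _, e]
      nlinarith [mul_nonneg (by linarith : (0 : ℝ) ≤ s + 1) hk]
  have := hanti (a := 0) (b := θ) ⟨le_rfl, by positivity⟩ ⟨hθ0, hθ⟩ hθ0
  simpa using this

lemma A_one (α : ℝ) (n : ℕ) : A α n 1 = (A1 α n : ℂ) := by
  unfold A A1; push_cast; simp

lemma conj_A (α : ℝ) (n : ℕ) (x : ℂ) : A α n (conj x) = conj (A α n x) := by
  unfold A; simp [map_sum]

lemma A1_nonneg_of {s : ℝ} (h0 : 0 ≤ s) (h1 : s ≤ 1) (n : ℕ) : 0 ≤ A1 (s + 1) (n + 2) := by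
  rw [A1_pascal s (n + 1)]
  have h2 := A1_ge h0 h1 n
  have h3 := A1_ge h0 h1 (n + 1)
  have h4 : b s 2 ≤ 1 := by rw [b_two]; nlinarith
  linarith

theorem Q_base {s : ℝ} (h0 : 0 ≤ s) (h1 : s ≤ 1) : Q (s + 1) := by
  intro n x hx
  match n with
  | 0 => rw [A_zero, A1_zero]; simp
  | 1 =>
    rw [A_succ, A1_succ, A_zero, A1_zero, co_one]
    refine (norm_add_le _ _).trans ?_
    rw [norm_one, norm_mul, zero_add, pow_one, hx, mul_one, Complex.norm_real,
      Real.norm_of_nonneg (by linarith)]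
  | n + 2 =>
    rcases le_or_gt x.re 0 with hre | hre
    · exact left_half h0 h1 n hx hre
    · -- right half plane
      have main : ∀ y : ℂ, ‖y‖ = 1 → 0 < y.re → 0 ≤ y.im → ‖A (s + 1) (n + 2) y‖ ≤ A1 (s + 1) (n + 2) := by
        intro y hy hre him
        have hy0 : y ≠ 0 := by intro h; rw [h] at hy; simp at hy
        have harg : Complex.exp (y.arg * I) = y := by
          have := Complex.norm_mul_exp_arg_mul_I y
          rwa [hy, Complex.ofReal_one, one_mul] at this
        have ha0 : 0 ≤ y.arg := Complex.arg_nonneg_iff.mpr him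
        have ha1 : y.arg ≤ Real.pi / 2 := by
          have := (Complex.abs_arg_le_pi_div_two_iff).mpr hre.le
          exact (abs_le.mp this).2
        have h := right_half h0 h1 n ha0 ha1
        rw [harg, A_one, Complex.norm_real, Real.norm_of_nonneg (A1_nonneg_of h0 h1 n)] at h
        exact le_of_sq_le_sq h (A1_nonneg_of h0 h1 n)
      rcases le_total 0 x.im with him | him
      · exact main x hx hre him
      · have := main (conj x) (by rw [Complex.norm_conj, hx]) (by rwa [Complex.conj_re])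
          (by rw [Complex.conj_im]; linarith)
        rwa [conj_A, Complex.norm_conj] at this

theorem Q_ge_one {α : ℝ} (hα : 1 ≤ α) : Q α := by
  obtain ⟨m, hm⟩ := exists_nat_ge α
  -- induction on the integer part
  have : ∀ k : ℕ, ∀ α : ℝ, 1 ≤ α → α ≤ k + 2 → Q α := by
    intro k
    induction k with
    | zero =>
      intro α h1 h2
      have : α = (α - 1) + 1 := by ring
      rw [this]
      exact Q_base (by linarith) (by push_cast at h2; linarith)
    | succ k ih =>
      intro α h1 h2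
      rcases le_or_gt α 2 with h | h
      · have : α = (α - 1) + 1 := by ring
        rw [this]
        exact Q_base (by linarith) (by linarith)
      · have : α = (α - 1) + 1 := by ring
        rw [this]
        refine Q_succ (ih (α - 1) (by linarith) ?_)
        push_cast at h2; linarith
  exact this m α hα (by linarith)

end Pool.Agent.W774.Brannan
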