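import Pool.Agent.W774.Brannan2

set_option autoImplicit false

namespace Pool.Agent.W774.Brannan

open Finset Complex MeasureTheory Filter Topology
open scoped ComplexConjugate

/-- the weight `s^(m-α) (1-s)^α` -/
noncomputable def w (α : ℝ) (m : ℕ) (s : ℝ) : ℝ := s ^ ((m : ℝ) - α) * (1 - s) ^ α

noncomputable def W (α : ℝ) (m : ℕ) : ℝ := ∫ s in (0 : ℝ)..1, w α m s

/-- the constant -/
noncomputable def C (α : ℝ) : ℝ := Real.sin (Real.pi * α) / Real.pi

lemma C_nonneg {α : ℝ} (h0 : 0 < α) (h1 : α < 1) : 0 ≤ C α := by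
  unfold C
  refine div_nonneg (Real.sin_nonneg_of_nonneg_of_le_pi (by positivity) ?_) Real.pi_pos.le
  nlinarith [Real.pi_pos]

lemma C_le {α : ℝ} (h0 : 0 < α) : C α ≤ α := by
  unfold C
  rw [div_le_iff₀ Real.pi_pos]
  have := Real.sin_le (x := Real.pi * α) (by positivity)
  linarith

lemma w_nonneg (α : ℝ) (m : ℕ) {s : ℝ} (hs : 0 ≤ s) (hs1 : s ≤ 1) : 0 ≤ w α m s := by
  unfold w
  exact mul_nonneg (Real.rpow_nonneg hs _) (Real.rpow_nonneg (by linarith) _)

lemma w_le_one {α : ℝ} (h0 : 0 < α) (h1 : α < 1) {m : ℕ} (hm : 1 ≤ m) {s : ℝ} (hs : 0 ≤ s)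
    (hs1 : s ≤ 1) : w α m s ≤ 1 := by
  have hm' : (1 : ℝ) ≤ m := by exact_mod_cast hm
  unfold w
  have h2 : s ^ ((m : ℝ) - α) ≤ 1 := Real.rpow_le_one hs hs1 (by linarith)
  have h3 : (1 - s) ^ α ≤ 1 := Real.rpow_le_one (by linarith) (by linarith) h0.le
  have h4 : 0 ≤ s ^ ((m : ℝ) - α) := Real.rpow_nonneg hs _
  have h5 : 0 ≤ (1 - s) ^ α := Real.rpow_nonneg (by linarith) _
  nlinarith

lemma w_cont {α : ℝ} (h0 : 0 < α) (h1 : α < 1) {m : ℕ} (hm : 1 ≤ m) : Continuous (w α m) := by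
  have hm' : (1 : ℝ) ≤ m := by exact_mod_cast hm
  unfold w
  refine Continuous.mul ?_ ?_
  · exact Real.continuous_rpow_const (by linarith)
  · exact (Real.continuous_rpow_const h0.le).comp (continuous_const.sub continuous_id)

lemma W_eq {α : ℝ} (h0 : 0 < α) (h1 : α < 1) (m : ℕ) :
    W α m = Real.Gamma (m + 1 - α) * Real.Gamma (1 + α) / Real.Gamma (m + 2) := by
  have hm' : (0 : ℝ) ≤ m := Nat.cast_nonneg m
  have h := ProbabilityTheory.beta_eq_betaIntegralReal ((m : ℝ) + 1 - α) (1 + α) (by linarith) (by linarith)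
  unfold ProbabilityTheory.beta at h
  have e : ((m : ℝ) + 1 - α) + (1 + α) = m + 2 := by ring
  rw [e] at h
  rw [h, W, Complex.betaIntegral]
  have h2 : ∫ x : ℝ in (0:ℝ)..1, (x : ℂ) ^ ((((m : ℝ) + 1 - α : ℝ) : ℂ) - 1) *
      (1 - (x : ℂ)) ^ (((1 + α : ℝ) : ℂ) - 1) = ∫ x : ℝ in (0:ℝ)..1, ((w α m x : ℝ) : ℂ) := by
    refine intervalIntegral.integral_congr fun x hx => ?_
    rw [Set.uIcc_of_le zero_le_one] at hx
    unfold w
    rw [Complex.ofReal_mul, Complex.ofReal_cpow hx.1, Complex.ofReal_cpow (by linarith [hx.2])]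
    push_cast
    congr 2 <;> ring
  rw [h2, intervalIntegral.integral_ofReal, Complex.ofReal_re]

lemma C_mul_W {α : ℝ} (h0 : 0 < α) (h1 : α < 1) (m : ℕ) : C α * W α m = b α (m + 1) := by
  rw [W_eq h0 h1]
  induction m with
  | zero =>
    rw [b_one]
    have h2 : Real.Gamma (1 + α) = α * Real.Gamma α := by
      rw [add_comm]; exact Real.Gamma_add_one h0.ne'
    have h3 := Real.Gamma_mul_Gamma_one_sub α
    have h4 : 0 < Real.sin (Real.pi * α) :=
      Real.sin_pos_of_pos_of_lt_pi (by positivity) (by nlinarith [Real.pi_pos])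
    have h5 : Real.Gamma 2 = 1 := Real.Gamma_two
    simp only [Nat.cast_zero, zero_add]
    rw [h2, h5, C]
    have h6 : Real.Gamma (1 - α) * (α * Real.Gamma α) / 1 = α * (Real.Gamma α * Real.Gamma (1 - α)) := by
      ring
    rw [h6, h3]
    field_simp
  | succ m ih =>
    have hm' : (0 : ℝ) ≤ m := Nat.cast_nonneg m
    rw [b_succ, ← ih]
    have h2 : Real.Gamma (((m + 1 : ℕ) : ℝ) + 1 - α) = (m + 1 - α) * Real.Gamma (m + 1 - α) := by
      rw [← Real.Gamma_add_one (by linarith : (m : ℝ) + 1 - α ≠ 0)]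
      congr 1; push_cast; ring
    have h3 : Real.Gamma (((m + 1 : ℕ) : ℝ) + 2) = (m + 2) * Real.Gamma (m + 2) := by
      rw [← Real.Gamma_add_one (by linarith : (m : ℝ) + 2 ≠ 0)]
      congr 1; push_cast; ring
    rw [h2, h3]
    have h4 : Real.Gamma ((m : ℝ) + 2) ≠ 0 := (Real.Gamma_pos_of_pos (by linarith)).ne'
    push_cast
    have h5 : (m : ℝ) + 2 ≠ 0 := by linarith
    have h6 : (m : ℝ) + 1 + 1 ≠ 0 := by linarith
    field_simp
    ring

/-- squared modulus of `1 + s x` -/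
lemma norm_sq_one_add {x : ℂ} (hx : ‖x‖ = 1) (s : ℝ) :
    ‖1 + (s : ℂ) * x‖ ^ 2 = (1 - s) ^ 2 + s * ‖1 + x‖ ^ 2 := by
  have hn : x.re * x.re + x.im * x.im = 1 := by
    rw [← Complex.normSq_apply, Complex.normSq_eq_norm_sq, hx]; norm_num
  rw [← Complex.normSq_eq_norm_sq, ← Complex.normSq_eq_norm_sq, Complex.normSq_apply,
    Complex.normSq_apply]
  simp
  linear_combination (s ^ 2 - s) * hn

lemma norm_one_add_le {x : ℂ} (hx : ‖x‖ = 1) : ‖1 + x‖ ≤ 2 := by
  have := norm_add_le (1 : ℂ) x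
  rw [hx, norm_one] at this; linarith

lemma norm_one_add_pos {x : ℂ} (hx1 : x ≠ -1) : 0 < ‖1 + x‖ := by
  rw [norm_pos_iff]
  intro h
  exact hx1 (by linear_combination h)

lemma low_bound {x : ℂ} (hx : ‖x‖ = 1) {s : ℝ} (hs : 0 ≤ s) (hs1 : s ≤ 1) :
    ‖1 + x‖ / 2 ≤ ‖1 + (s : ℂ) * x‖ := by
  refine le_of_sq_le_sq ?_ (norm_nonneg _)
  rw [norm_sq_one_add hx, div_pow]
  have h2 := norm_one_add_le hx
  have h0 : 0 ≤ ‖1 + x‖ := norm_nonneg _
  set q := ‖1 + x‖
  nlinarith [sq_nonneg (1 - s), mul_nonneg hs (sq_nonneg q), mul_nonneg (sub_nonneg.mpr hs1) (sq_nonneg q),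
    mul_nonneg (sq_nonneg (1 - s)) (mul_nonneg h0 (sub_nonneg.mpr h2)), mul_le_mul h2 h2 h0 (by norm_num : (0:ℝ) ≤ 2)]

lemma one_add_ne {x : ℂ} (hx : ‖x‖ = 1) (hx1 : x ≠ -1) {s : ℝ} (hs : 0 ≤ s) (hs1 : s ≤ 1) :
    (1 + (s : ℂ) * x) ≠ 0 := by
  rw [← norm_pos_iff]
  have := low_bound hx hs hs1
  have := norm_one_add_pos hx1
  linarith

/-- the remainder integral -/
noncomputable def J (α : ℝ) (m : ℕ) (x : ℂ) : ℂ := ∫ s in (0 : ℝ)..1, (w α m s : ℂ) / (1 + (s : ℂ) * x)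

lemma J_intble {α : ℝ} (h0 : 0 < α) (h1 : α < 1) {m : ℕ} (hm : 1 ≤ m) {x : ℂ} (hx : ‖x‖ = 1)
    (hx1 : x ≠ -1) :
    IntervalIntegrable (fun s : ℝ => (w α m s : ℂ) / (1 + (s : ℂ) * x)) volume 0 1 := by
  refine ContinuousOn.intervalIntegrable ?_
  rw [Set.uIcc_of_le zero_le_one]
  refine ContinuousOn.div ?_ ?_ ?_
  · exact (Complex.continuous_ofReal.comp (w_cont h0 h1 hm)).continuousOn
  · fun_prop
  · intro s hs; exact one_add_ne hx hx1 hs.1 hs.2

lemma J_rec {α : ℝ} (h0 : 0 < α) (h1 : α < 1) {m : ℕ} (hm : 1 ≤ m) {x : ℂ} (hx : ‖x‖ = 1)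
    (hx1 : x ≠ -1) : J α m x + x * J α (m + 1) x = (W α m : ℂ) := by
  unfold J W
  rw [← intervalIntegral.integral_const_mul, ← intervalIntegral.integral_add (J_intble h0 h1 hm hx hx1)
    ((J_intble h0 h1 (by omega) hx hx1).const_mul x), ← intervalIntegral.integral_ofReal]
  refine intervalIntegral.integral_congr fun s hs => ?_
  rw [Set.uIcc_of_le zero_le_one] at hs
  have hne := one_add_ne hx hx1 hs.1 hs.2
  have hm' : (1 : ℝ) ≤ m := by exact_mod_cast hm
  have hw : w α (m + 1) s = s * w α m s := by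
    unfold w
    have : (((m + 1 : ℕ) : ℝ) - α) = 1 + ((m : ℝ) - α) := by push_cast; ring
    rw [this, Real.rpow_add_of_nonneg hs.1 (by norm_num) (by linarith), Real.rpow_one]
    ring
  rw [hw]
  push_cast
  field_simp

lemma J_norm_le {α : ℝ} (h0 : 0 < α) (h1 : α < 1) {m : ℕ} (hm : 1 ≤ m) {x : ℂ} (hx : ‖x‖ = 1)
    (hx1 : x ≠ -1) :
    ‖J α m x‖ ≤ ∫ s in (0 : ℝ)..1, w α m s / Real.sqrt ((1 - s) ^ 2 + s * ‖1 + x‖ ^ 2) := by
  unfold J
  refine (intervalIntegral.norm_integral_le_integral_norm zero_le_one).trans (le_of_eq ?_)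
  refine intervalIntegral.integral_congr fun s hs => ?_
  rw [Set.uIcc_of_le zero_le_one] at hs
  rw [norm_div, Complex.norm_real, Real.norm_of_nonneg (w_nonneg α m hs.1 hs.2),
    ← norm_sq_one_add hx, Real.sqrt_sq (norm_nonneg _)]

lemma J_norm_le' {α : ℝ} (h0 : 0 < α) (h1 : α < 1) {m : ℕ} (hm : 1 ≤ m) {x : ℂ} (hx : ‖x‖ = 1)
    (hx1 : x ≠ -1) : ‖J α m x‖ ≤ W α m * (2 / ‖1 + x‖) := by
  unfold J W
  refine (intervalIntegral.norm_integral_le_integral_norm zero_le_one).trans ?_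
  rw [← intervalIntegral.integral_mul_const]
  refine intervalIntegral.integral_mono_on zero_le_one (J_intble h0 h1 hm hx hx1).norm
    (((w_cont h0 h1 hm).mul continuous_const).intervalIntegrable 0 1) fun s hs => ?_
  rw [norm_div, Complex.norm_real, Real.norm_of_nonneg (w_nonneg α m hs.1 hs.2), div_eq_mul_inv]
  refine mul_le_mul_of_nonneg_left ?_ (w_nonneg α m hs.1 hs.2)
  have h2 := low_bound hx hs.1 hs.2
  have h3 := norm_one_add_pos hx1
  rw [show 2 / ‖1 + x‖ = (‖1 + x‖ / 2)⁻¹ by rw [inv_div]]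
  exact inv_anti₀ (by positivity) h2

/-- partial sums via the remainder integral -/
lemma A_eq {α : ℝ} (h0 : 0 < α) (h1 : α < 1) {x : ℂ} (hx : ‖x‖ = 1) (hx1 : x ≠ -1) :
    ∃ L : ℂ, ∀ m : ℕ, 1 ≤ m → A α m x = L + (-x) ^ (m + 1) * (C α : ℂ) * J α m x := by
  refine ⟨A α 1 x - (-x) ^ 2 * (C α : ℂ) * J α 1 x, ?_⟩
  intro m hm
  induction m, hm using Nat.le_induction with
  | base => ring
  | succ m hm ih =>
    rw [A_succ, ih]
    have hr := J_rec h0 h1 hm hx hx1
    have hc : (C α : ℂ) * (W α m : ℂ) = (b α (m + 1) : ℂ) := by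
      rw [← Complex.ofReal_mul, C_mul_W h0 h1]
    have hb : (co α (m + 1) : ℂ) * x ^ (m + 1) = - (b α (m + 1) : ℂ) * (-x) ^ (m + 1) := by
      rw [co_eq_b, neg_pow x (m + 1)]; push_cast; ring
    rw [hb, ← hc, ← hr]
    ring

lemma choose_eq_co (α : ℝ) (n : ℕ) : Ring.choose (α : ℂ) n = (co α n : ℂ) := by
  have h : ∀ n : ℕ, (descPochhammer ℤ n).smeval (α : ℂ) = ((∏ j ∈ Finset.range n, (α - (j : ℝ)) : ℝ) : ℂ) := by
    intro n
    induction n with
    | zero => simp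
    | succ n ih =>
      rw [descPochhammer_succ_right, Polynomial.smeval_mul, ih, Finset.prod_range_succ]
      simp [Polynomial.smeval_sub, Polynomial.smeval_natCast]
  have h2 := Ring.descPochhammer_eq_factorial_smul_choose (α : ℂ) n
  rw [h] at h2
  unfold co
  have h3 : (n.factorial : ℂ) ≠ 0 := by exact_mod_cast n.factorial_ne_zero
  rw [nsmul_eq_mul] at h2
  rw [Complex.ofReal_div, h2]
  push_cast
  field_simp

lemma hasSum_co (α : ℝ) {z : ℂ} (hz : ‖z‖ < 1) :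
    HasSum (fun n => (co α n : ℂ) * z ^ n) ((1 + z) ^ (α : ℂ)) := by
  have h := (Complex.one_add_cpow_hasFPowerSeriesOnBall_zero (a := (α : ℂ))).hasSum (y := z)
    (by rw [← ENNReal.ofReal_one, Metric.eball_ofReal]; simpa using hz)
  simp only [binomialSeries_apply, zero_add, List.ofFn_const, List.prod_replicate, smul_eq_mul,
    choose_eq_co] at h
  exact h

lemma L_eq {α : ℝ} (h0 : 0 < α) (h1 : α < 1) {x : ℂ} (hx : ‖x‖ = 1) (hx1 : x ≠ -1) {L : ℂ}
    (hL : ∀ m : ℕ, 1 ≤ m → A α m x = L + (-x) ^ (m + 1) * (C α : ℂ) * J α m x) :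
    L = (1 + x) ^ (α : ℂ) := by
  have hpos := norm_one_add_pos hx1
  -- convergence of the partial sums to L
  have hlim : Tendsto (fun m => A α m x) atTop (𝓝 L) := by
    rw [tendsto_iff_norm_sub_tendsto_zero]
    have hb : Tendsto (fun m : ℕ => (α * (2 / ‖1 + x‖)) * (1 / ((m : ℝ) + 1))) atTop (𝓝 0) := by
      have := tendsto_one_div_add_atTop_nhds_zero_nat (𝕜 := ℝ)
      simpa using this.const_mul (α * (2 / ‖1 + x‖))
    refine squeeze_zero' (Eventually.of_forall fun _ => norm_nonneg _) ?_ hb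
    filter_upwards [eventually_ge_atTop 1] with m hm
    rw [hL m hm, add_sub_cancel_left, norm_mul, norm_mul, norm_pow, norm_neg, hx, one_pow, one_mul,
      Complex.norm_real, Real.norm_of_nonneg (C_nonneg h0 h1)]
    have hj := J_norm_le' h0 h1 hm hx hx1
    have hbl := mul_b_le_s h0.le h1.le m
    have hm' : (0 : ℝ) < (m : ℝ) + 1 := by positivity
    calc C α * ‖J α m x‖ ≤ C α * (W α m * (2 / ‖1 + x‖)) :=
          mul_le_mul_of_nonneg_left hj (C_nonneg h0 h1)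
      _ = (C α * W α m) * (2 / ‖1 + x‖) := by ring
      _ = b α (m + 1) * (2 / ‖1 + x‖) := by rw [C_mul_W h0 h1]
      _ ≤ (α * (1 / ((m : ℝ) + 1))) * (2 / ‖1 + x‖) := by
          refine mul_le_mul_of_nonneg_right ?_ (by positivity)
          rw [mul_one_div, le_div_iff₀ hm']; linarith
      _ = _ := by ring
  have hlim2 : Tendsto (fun n ↦ ∑ i ∈ Finset.range n, (co α i : ℂ) * x ^ i) atTop (𝓝 L) := by
    rw [← tendsto_add_atTop_iff_nat 1]
    exact hlim
  have habel := Complex.tendsto_tsum_powerSeries_nhdsWithin_lt hlim2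
  rw [tendsto_map'_iff] at habel
  have h2 : Tendsto ((fun z : ℂ ↦ ∑' n, ((co α n : ℂ) * x ^ n) * z ^ n) ∘ Complex.ofReal) (𝓝[<] 1)
      (𝓝 ((1 + x) ^ (α : ℂ))) := by
    have h3 : Tendsto (fun r : ℝ => (1 + (r : ℂ) * x) ^ (α : ℂ)) (𝓝[<] 1) (𝓝 ((1 + x) ^ (α : ℂ))) := by
      have hslit : (1 + ((1 : ℝ) : ℂ) * x) ∈ Complex.slitPlane := by
        rw [Complex.ofReal_one, one_mul]
        left
        have hn : x.re * x.re + x.im * x.im = 1 := by
          rw [← Complex.normSq_apply, Complex.normSq_eq_norm_sq, hx]; norm_num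
        have h5 : -1 ≤ x.re := by nlinarith [mul_self_nonneg x.im]
        rcases h5.lt_or_eq with h6 | h6
        · simp; linarith
        · exfalso
          apply hx1
          apply Complex.ext
          · simp [← h6]
          · have : x.im * x.im = 0 := by rw [← h6] at hn; linarith
            simpa using this
      have hc : ContinuousAt (fun r : ℝ => (1 + (r : ℂ) * x) ^ (α : ℂ)) 1 := by
        refine ContinuousAt.cpow ?_ continuousAt_const hslit
        fun_prop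
      have := hc.tendsto
      simp only [Complex.ofReal_one, one_mul] at this
      exact this.mono_left nhdsWithin_le_nhds
    refine h3.congr' ?_
    have : ∀ᶠ r : ℝ in 𝓝[<] 1, r ∈ Set.Ioo (0 : ℝ) 1 := Ioo_mem_nhdsLT zero_lt_one
    filter_upwards [this] with r hr
    have hz : ‖(r : ℂ) * x‖ < 1 := by
      rw [norm_mul, hx, mul_one, Complex.norm_real, Real.norm_of_nonneg hr.1.le]; exact hr.2
    have hs := (hasSum_co α hz).tsum_eq
    simp only [Function.comp]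
    rw [← hs]
    refine tsum_congr fun n => ?_
    rw [mul_pow]; ring
  exact tendsto_nhds_unique habel h2

end Pool.Agent.W774.Brannan
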