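import Mathlib

/-! # A finite-energy probability measure on the middle-third Cantor set (Lebesgue-null) -/

set_option autoImplicit false
open MeasureTheory Filter Topology Set

namespace Pool.Agent.W774.CantorMeas

/-- summability of the digit series -/
lemma summ (x : ℝ) : Summable (fun k : ℕ => (⌊(2:ℝ) ^ (k + 1) * x⌋ : ℝ) / 3 ^ (k + 1)) := by
  have h1 : Summable (fun k : ℕ => |x| * ((2:ℝ) / 3) ^ (k + 1) + (1 / 3 : ℝ) ^ (k + 1)) := by
    apply Summable.add
    · apply Summable.mul_left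
      exact (summable_nat_add_iff 1).2 (summable_geometric_of_lt_one (by norm_num) (by norm_num))
    · exact (summable_nat_add_iff 1).2 (summable_geometric_of_lt_one (by norm_num) (by norm_num))
  refine Summable.of_norm_bounded h1 (fun k => ?_)
  have h2 : |(⌊(2:ℝ) ^ (k + 1) * x⌋ : ℝ)| ≤ 2 ^ (k + 1) * |x| + 1 := by
    have h3 := Int.floor_le ((2:ℝ) ^ (k + 1) * x)
    have h4 := Int.lt_floor_add_one ((2:ℝ) ^ (k + 1) * x)
    have h5 : |(2:ℝ) ^ (k + 1) * x| = 2 ^ (k + 1) * |x| := by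
      rw [abs_mul, abs_of_pos (by positivity : (0:ℝ) < 2 ^ (k + 1))]
    have h6 := abs_le.1 (le_of_eq h5)
    rw [abs_le]
    constructor <;> linarith [h6.1, h6.2]
  rw [Real.norm_eq_abs, abs_div, abs_of_pos (by positivity : (0:ℝ) < 3 ^ (k + 1)), div_pow, div_pow,
    one_pow, div_le_iff₀ (by positivity)]
  have h7 : (|x| * (2 ^ (k + 1) / 3 ^ (k + 1)) + 1 / 3 ^ (k + 1)) * (3:ℝ) ^ (k + 1)
      = 2 ^ (k + 1) * |x| + 1 := by
    field_simp
  rw [h7]; exact h2

/-- the map sending binary digits `b_k` to ternary digits `2 b_k` -/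
noncomputable def psi (x : ℝ) : ℝ :=
  (2 / 3) * ∑' k : ℕ, (⌊(2:ℝ) ^ (k + 1) * x⌋ : ℝ) / 3 ^ (k + 1)

lemma psi_mono : Monotone psi := by
  intro x y hxy
  unfold psi
  apply mul_le_mul_of_nonneg_left _ (by norm_num)
  apply Summable.tsum_le_tsum _ (summ x) (summ y)
  intro k
  apply div_le_div_of_nonneg_right _ (by positivity)
  exact_mod_cast Int.floor_le_floor (mul_le_mul_of_nonneg_left hxy (by positivity))

lemma psi_lower {x y : ℝ} (hxy : x < y) (h1 : y - x ≤ 1) : (y - x) ^ 2 / 6 ≤ psi y - psi x := by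
  -- least k with 2^k (y-x) ≥ 1
  have hd : 0 < y - x := sub_pos.2 hxy
  obtain ⟨n, hn1, hn2⟩ : ∃ n : ℕ, 1 ≤ (2:ℝ) ^ (n + 1) * (y - x) ∧ (2:ℝ) ^ n * (y - x) ≤ 1 := by
    have hex : ∃ n : ℕ, 1 ≤ (2:ℝ) ^ (n + 1) * (y - x) := by
      obtain ⟨n, hn⟩ := pow_unbounded_of_one_lt (1 / (y - x)) (by norm_num : (1:ℝ) < 2)
      refine ⟨n, ?_⟩
      rw [div_lt_iff₀ hd] at hn
      rw [pow_succ]; nlinarith [hn]
    classical
    refine ⟨Nat.find hex, Nat.find_spec hex, ?_⟩
    by_contra hcon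
    push Not at hcon
    rcases Nat.eq_zero_or_pos (Nat.find hex) with h0 | hpos
    · rw [h0] at hcon; simp at hcon; linarith
    · have := Nat.find_min hex (Nat.sub_lt hpos one_pos)
      apply this
      rw [Nat.sub_add_cancel (show 1 ≤ Nat.find hex from hpos)]; exact hcon.le
  have hterm : ∀ k : ℕ, 0 ≤ (⌊(2:ℝ) ^ (k + 1) * y⌋ : ℝ) / 3 ^ (k + 1)
      - (⌊(2:ℝ) ^ (k + 1) * x⌋ : ℝ) / 3 ^ (k + 1) := by
    intro k
    rw [← sub_div]
    apply div_nonneg _ (by positivity)
    rw [sub_nonneg]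
    exact_mod_cast Int.floor_le_floor (mul_le_mul_of_nonneg_left hxy.le (by positivity))
  have hs := (summ y).sub (summ x)
  have h2 : ((⌊(2:ℝ) ^ (n + 1) * y⌋ : ℝ) / 3 ^ (n + 1) - (⌊(2:ℝ) ^ (n + 1) * x⌋ : ℝ) / 3 ^ (n + 1))
      ≤ ∑' k : ℕ, ((⌊(2:ℝ) ^ (k + 1) * y⌋ : ℝ) / 3 ^ (k + 1)
        - (⌊(2:ℝ) ^ (k + 1) * x⌋ : ℝ) / 3 ^ (k + 1)) :=
    hs.le_tsum n (fun k _ => hterm k)
  have h3 : psi y - psi x = (2 / 3) * ∑' k : ℕ, ((⌊(2:ℝ) ^ (k + 1) * y⌋ : ℝ) / 3 ^ (k + 1)
        - (⌊(2:ℝ) ^ (k + 1) * x⌋ : ℝ) / 3 ^ (k + 1)) := by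
    unfold psi
    rw [(summ y).tsum_sub (summ x)]; ring
  have h4 : (1:ℝ) ≤ (⌊(2:ℝ) ^ (n + 1) * y⌋ : ℝ) - (⌊(2:ℝ) ^ (n + 1) * x⌋ : ℝ) := by
    have h5 : ⌊(2:ℝ) ^ (n + 1) * x⌋ + 1 ≤ ⌊(2:ℝ) ^ (n + 1) * y⌋ := by
      rw [Int.le_floor]
      push_cast
      have := Int.floor_le ((2:ℝ) ^ (n + 1) * x)
      nlinarith
    have h6 : ((⌊(2:ℝ) ^ (n + 1) * x⌋ : ℤ) : ℝ) + 1 ≤ (⌊(2:ℝ) ^ (n + 1) * y⌋ : ℝ) := by
      exact_mod_cast h5
    linarith
  have h7 : (1:ℝ) / 3 ^ (n + 1) ≤ ∑' k : ℕ, ((⌊(2:ℝ) ^ (k + 1) * y⌋ : ℝ) / 3 ^ (k + 1)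
        - (⌊(2:ℝ) ^ (k + 1) * x⌋ : ℝ) / 3 ^ (k + 1)) := by
    refine le_trans ?_ h2
    rw [← sub_div]
    exact div_le_div_of_nonneg_right h4 (by positivity)
  have h8 : (y - x) ^ 2 / 4 ≤ 1 / 3 ^ (n + 1) := by
    -- y - x ≤ 2^{-n}; (y-x)^2/4 ≤ 4^{-(n+1)}
    have h9 : (y - x) ^ 2 * 4 ^ n ≤ 1 := by
      have : (y - x) ^ 2 * 4 ^ n = ((2:ℝ) ^ n * (y - x)) ^ 2 := by
        rw [mul_pow, ← pow_mul, mul_comm n 2, pow_mul]; norm_num; ring
      rw [this]
      have h0 : 0 ≤ (2:ℝ) ^ n * (y - x) := by positivity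
      nlinarith
    rw [div_le_div_iff₀ (by norm_num) (by positivity)]
    have h10 : (3:ℝ) ^ (n + 1) ≤ 4 * 4 ^ n := by
      rw [← pow_succ']
      exact pow_le_pow_left₀ (by norm_num) (by norm_num) _
    nlinarith [sq_nonneg (y - x)]
  rw [h3]
  linarith [h7, h8]

lemma psi_feq {b : ℤ} {y : ℝ} (hy0 : 0 ≤ y) (hy1 : y < 1) :
    psi ((b + y) / 2) = (2 * b + psi y) / 3 := by
  unfold psi
  have h1 : (fun k : ℕ => (⌊(2:ℝ) ^ (k + 1) * ((b + y) / 2)⌋ : ℝ) / 3 ^ (k + 1))
      = fun k : ℕ => (b : ℝ) / 3 * (2 / 3) ^ k + (⌊(2:ℝ) ^ k * y⌋ : ℝ) / 3 ^ (k + 1) := by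
    funext k
    have h2 : (2:ℝ) ^ (k + 1) * ((b + y) / 2) = (2:ℝ) ^ k * y + ((2 ^ k * b : ℤ) : ℝ) := by
      push_cast; rw [pow_succ]; ring
    rw [h2, Int.floor_add_intCast]
    push_cast
    rw [div_pow, pow_succ]
    field_simp
    ring
  have hs1 : Summable (fun k : ℕ => (b : ℝ) / 3 * (2 / 3) ^ k) :=
    (summable_geometric_of_lt_one (by norm_num) (by norm_num)).mul_left _
  have hs2 : Summable (fun k : ℕ => (⌊(2:ℝ) ^ k * y⌋ : ℝ) / 3 ^ (k + 1)) := by
    rw [← summable_nat_add_iff 1]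
    have := (summ y).mul_left (1 / 3)
    refine this.congr (fun k => ?_)
    rw [pow_succ 3 (k + 1)]; field_simp
  rw [h1, hs1.tsum_add hs2, tsum_mul_left, tsum_geometric_of_lt_one (by norm_num) (by norm_num)]
  rw [hs2.tsum_eq_zero_add]
  have h3 : ⌊(2:ℝ) ^ 0 * y⌋ = 0 := by
    rw [pow_zero, one_mul]; exact Int.floor_eq_zero_iff.2 ⟨hy0, hy1⟩
  have h4 : (∑' k : ℕ, (⌊(2:ℝ) ^ (k + 1) * y⌋ : ℝ) / 3 ^ (k + 1 + 1))
      = (1 / 3) * ∑' k : ℕ, (⌊(2:ℝ) ^ (k + 1) * y⌋ : ℝ) / 3 ^ (k + 1) := by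
    rw [← tsum_mul_left]
    congr 1; funext k
    rw [pow_succ 3 (k + 1)]; field_simp
  rw [h4, h3]
  push_cast
  ring

lemma psi_zero : psi 0 = 0 := by simp [psi]

lemma psi_nonneg {x : ℝ} (hx : 0 ≤ x) : 0 ≤ psi x := by
  rw [← psi_zero]; exact psi_mono hx

lemma psi_mem_pre (n : ℕ) : ∀ x : ℝ, 0 ≤ x → x < 1 → psi x ∈ preCantorSet n := by
  induction n with
  | zero =>
    intro x hx0 hx1
    rw [preCantorSet_zero]
    refine ⟨psi_nonneg hx0, ?_⟩
    -- psi x ≤ 1
    unfold psi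
    have h : ∑' k : ℕ, (⌊(2:ℝ) ^ (k + 1) * x⌋ : ℝ) / 3 ^ (k + 1)
        ≤ ∑' k : ℕ, ((2 / 3 : ℝ) * (2 / 3) ^ k - (1 / 3) * (1 / 3) ^ k) := by
      apply Summable.tsum_le_tsum _ (summ x)
      · exact ((summable_geometric_of_lt_one (by norm_num) (by norm_num)).mul_left _).sub
          ((summable_geometric_of_lt_one (by norm_num) (by norm_num)).mul_left _)
      · intro k
        rw [div_le_iff₀ (by positivity)]
        have h1 : ⌊(2:ℝ) ^ (k + 1) * x⌋ ≤ 2 ^ (k + 1) - 1 := by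
          have h2 : ⌊(2:ℝ) ^ (k + 1) * x⌋ < 2 ^ (k + 1) := by
            rw [Int.floor_lt]; push_cast
            have : (0:ℝ) < 2 ^ (k + 1) := by positivity
            nlinarith
          omega
        have h3 : ((⌊(2:ℝ) ^ (k + 1) * x⌋ : ℤ) : ℝ) ≤ 2 ^ (k + 1) - 1 := by exact_mod_cast h1
        refine h3.trans (le_of_eq ?_)
        rw [div_pow, div_pow, one_pow, pow_succ, pow_succ]
        field_simp
    have h2 : ∑' k : ℕ, ((2 / 3 : ℝ) * (2 / 3) ^ k - (1 / 3) * (1 / 3) ^ k) = 3 / 2 := by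
      rw [Summable.tsum_sub, tsum_mul_left, tsum_mul_left,
        tsum_geometric_of_lt_one (by norm_num) (by norm_num),
        tsum_geometric_of_lt_one (by norm_num) (by norm_num)]
      · norm_num
      · exact (summable_geometric_of_lt_one (by norm_num) (by norm_num)).mul_left _
      · exact (summable_geometric_of_lt_one (by norm_num) (by norm_num)).mul_left _
    rw [h2] at h
    linarith
  | succ n ih =>
    intro x hx0 hx1
    rw [preCantorSet_succ]
    rcases lt_or_ge x (1 / 2) with h | h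
    · left
      refine ⟨psi (2 * x), ih _ (by linarith) (by linarith), ?_⟩
      have := psi_feq (b := 0) (y := 2 * x) (by linarith) (by linarith)
      have h2 : ((0:ℤ) + 2 * x : ℝ) / 2 = x := by push_cast; ring
      rw [h2] at this
      rw [this]; push_cast; ring
    · right
      refine ⟨psi (2 * x - 1), ih _ (by linarith) (by linarith), ?_⟩
      have := psi_feq (b := 1) (y := 2 * x - 1) (by linarith) (by linarith)
      have h2 : ((1:ℤ) + (2 * x - 1) : ℝ) / 2 = x := by push_cast; ring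
      rw [h2] at this
      rw [this]; push_cast; ring

lemma psi_mem {x : ℝ} (h0 : 0 ≤ x) (h1 : x < 1) : psi x ∈ cantorSet := by
  rw [cantorSet]; exact mem_iInter.2 (fun n => psi_mem_pre n x h0 h1)

lemma volume_cantor : volume cantorSet = 0 := by
  have h1 : volume cantorSet ≤ volume ((· / 3) '' cantorSet : Set ℝ)
      + volume ((fun x : ℝ ↦ (2 + x) / 3) '' cantorSet) := by
    conv_lhs => rw [cantorSet_eq_union_halves]
    exact measure_union_le _ _
  have h2 : ((· / 3) '' cantorSet : Set ℝ) = (AffineMap.homothety (0:ℝ) (1/3:ℝ)) '' cantorSet := by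
    ext y
    simp only [mem_image, AffineMap.homothety_apply]
    constructor <;> rintro ⟨x, hx, rfl⟩ <;> refine ⟨x, hx, ?_⟩ <;> simp <;> ring
  have h3 : ((fun x : ℝ ↦ (2 + x) / 3) '' cantorSet) = (AffineMap.homothety (1:ℝ) (1/3:ℝ)) '' cantorSet := by
    ext y
    simp only [mem_image, AffineMap.homothety_apply]
    constructor <;> rintro ⟨x, hx, rfl⟩ <;> refine ⟨x, hx, ?_⟩ <;> simp <;> ring
  rw [h2, h3, Measure.addHaar_image_homothety, Measure.addHaar_image_homothety] at h1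
  have hfin : volume cantorSet ≠ ⊤ :=
    (lt_of_le_of_lt (measure_mono cantorSet_subset_unitInterval) (by simp)).ne
  simp only [Module.finrank_self, pow_one] at h1
  have h4 : ENNReal.ofReal |(1 / 3 : ℝ)| = ENNReal.ofReal (1/3) := by
    rw [abs_of_pos (by norm_num)]
  rw [h4] at h1
  lift volume cantorSet to NNReal using hfin with m
  have h5 : ((m : NNReal) : ℝ) ≤ (1/3) * m + (1/3) * m := by
    have := ENNReal.toReal_mono (by finiteness) h1
    rw [ENNReal.toReal_add (by finiteness) (by finiteness), ENNReal.toReal_mul,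
      ENNReal.toReal_ofReal (by norm_num)] at this
    simpa using this
  have h6 : (m : ℝ) = 0 := by linarith [m.2]
  have : m = 0 := by exact_mod_cast h6
  simp [this]


lemma psi_inj : Function.Injective psi := by
  have key : ∀ x y : ℝ, x < y → psi x < psi y := by
    intro x y hxy
    set z := min y (x + 1) with hz
    have hxz : x < z := lt_min hxy (by linarith)
    have h1 := psi_lower hxz (by have := min_le_right y (x + 1); linarith)
    have h2 : psi z ≤ psi y := psi_mono (min_le_left _ _)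
    have h3 : 0 < (z - x) ^ 2 / 6 := by
      have : 0 < z - x := sub_pos.2 hxz
      positivity
    linarith
  intro x y hxy
  rcases lt_trichotomy x y with h | h | h
  · exact absurd hxy (key x y h).ne
  · exact h
  · exact absurd hxy (key y x h).ne'

lemma psi_meas : Measurable psi := psi_mono.measurable

/-- the map into the complex plane -/
noncomputable def cpsi (x : ℝ) : ℂ := (psi x : ℂ)

lemma cpsi_meas : Measurable cpsi := Complex.measurable_ofReal.comp psi_meas

lemma cpsi_inj : Function.Injective cpsi := fun _ _ h => psi_inj (Complex.ofReal_injective h)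

/-- the Cantor measure on the plane -/
noncomputable def mu : Measure ℂ := Measure.map cpsi (volume.restrict (Ico (0:ℝ) 1))

instance : IsProbabilityMeasure (volume.restrict (Ico (0:ℝ) 1)) := ⟨by simp⟩

instance : IsProbabilityMeasure mu := by
  unfold mu
  exact Measure.isProbabilityMeasure_map cpsi_meas.aemeasurable

instance : NullSingletonClass mu := by
  constructor
  intro z
  unfold mu
  rw [Measure.map_apply cpsi_meas (measurableSet_singleton z)]
  apply Set.Subsingleton.measure_zero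
  intro x hx y hy
  simp only [mem_preimage, mem_singleton_iff] at hx hy
  exact cpsi_inj (hx.trans hy.symm)

/-- the Cantor set in the plane -/
def E : Set ℂ := (fun x : ℝ => (x : ℂ)) '' cantorSet

lemma E_compact : IsCompact E := isCompact_cantorSet.image Complex.continuous_ofReal

lemma mu_compl : mu Eᶜ = 0 := by
  unfold mu
  rw [Measure.map_apply cpsi_meas E_compact.isClosed.measurableSet.compl,
    Measure.restrict_apply (cpsi_meas E_compact.isClosed.measurableSet.compl)]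
  have : cpsi ⁻¹' Eᶜ ∩ Ico 0 1 = ∅ := by
    rw [eq_empty_iff_forall_notMem]
    rintro x ⟨hx1, hx2⟩
    exact hx1 ⟨psi x, psi_mem hx2.1 hx2.2, rfl⟩
  rw [this]; simp

lemma psi_le_one {x : ℝ} (h0 : 0 ≤ x) (h1 : x < 1) : psi x ≤ 1 :=
  (cantorSet_subset_unitInterval (psi_mem h0 h1)).2

lemma integrable_log_unit :
    Integrable (fun p : ℝ × ℝ => Real.log (p.1 - p.2))
      ((volume.restrict (Ico (0:ℝ) 1)).prod (volume.restrict (Ico (0:ℝ) 1))) := by
  have hf : Integrable (indicator (Ico (0:ℝ) 1) (fun _ => (1:ℝ))) volume := by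
    rw [integrable_indicator_iff measurableSet_Ico]
    exact integrableOn_const (by simp)
  have hg : Integrable (indicator (Ioc (-1:ℝ) 1) Real.log) volume := by
    rw [integrable_indicator_iff measurableSet_Ioc]
    have := (intervalIntegral.intervalIntegrable_log' (a := -1) (b := 1)).1
    exact this
  have h := Integrable.convolution_integrand (ContinuousLinearMap.mul ℝ ℝ) hf hg
  rw [Measure.prod_restrict]
  have h2 : IntegrableOn (fun p : ℝ × ℝ => Real.log (p.1 - p.2)) (Ico (0:ℝ) 1 ×ˢ Ico (0:ℝ) 1)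
      (volume.prod volume) := by
    refine (h.integrableOn (s := Ico (0:ℝ) 1 ×ˢ Ico (0:ℝ) 1)).congr_fun ?_
      (measurableSet_Ico.prod measurableSet_Ico)
    rintro ⟨x, t⟩ ⟨hx, ht⟩
    simp only [ContinuousLinearMap.mul_apply']
    rw [indicator_of_mem ht, one_mul, indicator_of_mem]
    constructor
    · linarith [hx.1, ht.2]
    · linarith [hx.2, ht.1]
  exact h2

lemma energy : Integrable (fun p : ℂ × ℂ => Real.log ‖p.1 - p.2‖) (mu.prod mu) := by
  unfold mu
  rw [Measure.map_prod_map _ _ cpsi_meas cpsi_meas]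
  have hm : Measurable (fun p : ℂ × ℂ => Real.log ‖p.1 - p.2‖) :=
    Real.measurable_log.comp ((measurable_fst.sub measurable_snd).norm)
  rw [integrable_map_measure hm.aestronglyMeasurable
    (cpsi_meas.prodMap cpsi_meas).aemeasurable]
  have hg : Integrable (fun p : ℝ × ℝ => Real.log 6 + 2 * ‖Real.log (p.1 - p.2)‖)
      ((volume.restrict (Ico (0:ℝ) 1)).prod (volume.restrict (Ico (0:ℝ) 1))) :=
    (integrable_const _).add (integrable_log_unit.norm.const_mul 2)
  refine Integrable.mono' hg (hm.comp (cpsi_meas.prodMap cpsi_meas)).aestronglyMeasurable ?_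
  rw [Measure.prod_restrict, ae_restrict_iff' (measurableSet_Ico.prod measurableSet_Ico)]
  refine Eventually.of_forall ?_
  rintro ⟨x, y⟩ ⟨hx, hy⟩
  simp only [Function.comp_apply, Prod.map_apply, cpsi]
  simp only [mem_Ico] at hx hy
  have hn : ‖(psi x : ℂ) - (psi y : ℂ)‖ = |psi x - psi y| := by
    rw [← Complex.ofReal_sub, Complex.norm_real, Real.norm_eq_abs]
  rw [hn, Real.log_abs]
  rcases eq_or_ne x y with rfl | hne
  · simp; exact Real.log_nonneg (by norm_num)
  · have hlow : (x - y) ^ 2 / 6 ≤ |psi x - psi y| := by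
      rcases lt_or_gt_of_ne hne with h | h
      · have := psi_lower h (by linarith)
        rw [abs_sub_comm]
        calc (x - y) ^ 2 / 6 = (y - x) ^ 2 / 6 := by ring
          _ ≤ psi y - psi x := this
          _ ≤ |psi y - psi x| := le_abs_self _
      · have := psi_lower h (by linarith)
        exact this.trans (le_abs_self _)
    have hup : |psi x - psi y| ≤ 1 := by
      rw [abs_le]
      have := psi_nonneg hx.1
      have := psi_nonneg hy.1
      have := psi_le_one hx.1 hx.2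
      have := psi_le_one hy.1 hy.2
      constructor <;> linarith
    have hxy : 0 < (x - y) ^ 2 / 6 := by
      have : x - y ≠ 0 := sub_ne_zero.2 hne
      positivity
    have hpos : 0 < |psi x - psi y| := lt_of_lt_of_le hxy hlow
    have hl1 : Real.log |psi x - psi y| ≤ 0 := Real.log_nonpos hpos.le hup
    have hl2 : Real.log ((x - y) ^ 2 / 6) ≤ Real.log |psi x - psi y| :=
      Real.log_le_log hxy hlow
    have hl3 : Real.log ((x - y) ^ 2 / 6) = 2 * Real.log (x - y) - Real.log 6 := by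
      rw [Real.log_div (by have : x - y ≠ 0 := sub_ne_zero.2 hne; positivity) (by norm_num),
        Real.log_pow]
      push_cast; ring
    rw [Real.log_abs] at hl1 hl2
    rw [hl3] at hl2
    rw [Real.norm_eq_abs, Real.norm_eq_abs, abs_of_nonpos hl1]
    have := neg_abs_le (Real.log (x - y))
    linarith

end Pool.Agent.W774.CantorMeas
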