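import Mathlib

set_option autoImplicit false

namespace Pool.Agent.W774.Kemperman

/-- Kemperman's inequality. -/
def Kemp (f : ℝ → ℝ) : Prop := ∀ x h : ℝ, 0 < h → 2 * f x ≤ f (x + h) + f (x + 2 * h)

variable {f : ℝ → ℝ}

lemma Kemp.ap (hf : Kemp f) {a b c : ℝ} (hab : a < b) (hc : c = 2 * b - a) :
    2 * f a ≤ f b + f c := by
  have h := hf a (b - a) (by linarith)
  have e1 : a + (b - a) = b := by ring
  have e2 : a + 2 * (b - a) = c := by rw [hc]; ring
  rwa [e1, e2] at h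

/-- Sublevel sets are closed under reflection to the left. -/
lemma Kemp.refl (hf : Kemp f) {n u v : ℝ} (huv : u < v) (hu : f u ≤ n) (hv : f v ≤ n) :
    f (2 * u - v) ≤ n := by
  have h := hf.ap (a := 2 * u - v) (b := u) (c := v) (by linarith) (by ring)
  linarith

/-- `DenseOn f n p q`: the sublevel set `{f ≤ n}` meets every subinterval of `(p, q)`. -/
def DenseOn (f : ℝ → ℝ) (n p q : ℝ) : Prop :=
  ∀ y z : ℝ, p ≤ y → y < z → z ≤ q → ∃ a, y < a ∧ a < z ∧ f a ≤ n

lemma exists_dense (f : ℝ → ℝ) (M : ℝ) :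
    ∃ (n p q : ℝ), M < p ∧ p < q ∧ DenseOn f n p q := by
  have hU : (⋃ n : ℕ, closure {x : ℝ | f x ≤ n}) = Set.univ := by
    apply Set.eq_univ_of_forall
    intro x
    obtain ⟨n, hn⟩ := exists_nat_ge (f x)
    exact Set.mem_iUnion.2 ⟨n, subset_closure hn⟩
  have hd := dense_iUnion_interior_of_closed (fun n : ℕ => isClosed_closure) hU
  obtain ⟨x, hx1, hx2⟩ := hd.exists_between (show M < M + 1 by linarith)
  obtain ⟨n, hn⟩ := Set.mem_iUnion.1 hx1
  obtain ⟨δ, hδ, hball⟩ := Metric.isOpen_iff.1 isOpen_interior x hn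
  set η := min (δ / 2) ((x - M) / 2) with hη
  have hη0 : 0 < η := lt_min (by linarith) (by linarith [hx2.1])
  have hη1 : η ≤ δ / 2 := min_le_left _ _
  have hη2 : η ≤ (x - M) / 2 := min_le_right _ _
  refine ⟨n, x - η, x + η, by linarith [hx2.1], by linarith, ?_⟩
  intro y z hy hyz hz
  have hm : (y + z) / 2 ∈ closure {x : ℝ | f x ≤ n} := by
    apply interior_subset
    apply hball
    rw [Metric.mem_ball, Real.dist_eq, abs_lt]
    constructor <;> linarith
  have := mem_closure_iff.1 hm (Set.Ioo y z) isOpen_Ioo ⟨by linarith, by linarith⟩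
  obtain ⟨a, ha1, ha2⟩ := this
  exact ⟨a, ha1.1, ha1.2, ha2⟩

lemma DenseOn.step (hf : Kemp f) {n p q : ℝ} (hpq : p < q) (h : DenseOn f n p q) :
    DenseOn f n (2 * p - q) q := by
  intro y z hy hyz hz
  rcases lt_or_ge p z with hpz | hpz
  · obtain ⟨a, ha1, ha2, ha3⟩ := h (max y p) z (le_max_right _ _) (max_lt hyz hpz) hz
    exact ⟨a, lt_of_le_of_lt (le_max_left _ _) ha1, ha2, ha3⟩
  · set c := (y + z) / 2 with hc
    have hcy : y < c := by rw [hc]; linarith
    have hcz : c < z := by rw [hc]; linarith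
    obtain ⟨v, hv1, hv2, hv3⟩ := h (max (2 * p - c) p) q (le_max_right _ _)
      (max_lt (by linarith) hpq) le_rfl
    have hv1' : 2 * p - c < v := lt_of_le_of_lt (le_max_left _ _) hv1
    have hv1'' : p < v := lt_of_le_of_lt (le_max_right _ _) hv1
    obtain ⟨u, hu1, hu2, hu3⟩ := h ((c + v) / 2) (min ((c + v) / 2 + (z - c) / 2) v)
      (by linarith) (lt_min (by linarith) (by linarith)) (le_trans (min_le_right _ _) hv2.le)
    have hu2' : u < (c + v) / 2 + (z - c) / 2 := lt_of_lt_of_le hu2 (min_le_left _ _)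
    have hu2'' : u < v := lt_of_lt_of_le hu2 (min_le_right _ _)
    exact ⟨2 * u - v, by linarith, by linarith, hf.refl hu2'' hu3 hv3⟩

lemma DenseOn.all (hf : Kemp f) {n p q : ℝ} (hpq : p < q) (h : DenseOn f n p q) :
    ∀ y z : ℝ, y < z → z ≤ q → ∃ a, y < a ∧ a < z ∧ f a ≤ n := by
  have key : ∀ k : ℕ, DenseOn f n (q - 2 ^ k * (q - p)) q := by
    intro k
    induction k with
    | zero => simpa using h
    | succ k ih =>
      have h2 : (0 : ℝ) < 2 ^ k := by positivity
      have := DenseOn.step hf (p := q - 2 ^ k * (q - p)) (by nlinarith) ih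
      have e : 2 * (q - 2 ^ k * (q - p)) - q = q - 2 ^ (k + 1) * (q - p) := by ring
      rwa [e] at this
  intro y z hyz hz
  obtain ⟨k, hk⟩ := pow_unbounded_of_one_lt ((q - y) / (q - p)) (one_lt_two (α := ℝ))
  have hqp : 0 < q - p := by linarith
  rw [div_lt_iff₀ hqp] at hk
  exact key k y z (by linarith) hyz hz

/-- Pairs of points of the sublevel set can be copied far to the left. -/
lemma copy (hf : Kemp f) {n q : ℝ}
    (hD : ∀ y z : ℝ, y < z → z ≤ q → ∃ a, y < a ∧ a < z ∧ f a ≤ n)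
    {b b' s₀ ε : ℝ} (hb : f b ≤ n) (hb' : f b' ≤ n) (hbb : b < b') (hbq : b ≤ q)
    (hs : s₀ + 2 * (b' - b) < b) (hε : 0 < ε) :
    ∃ s, s₀ < s ∧ s < s₀ + ε ∧ f s ≤ n ∧ f (s + (b' - b)) ≤ n := by
  set g := b - s₀ - 2 * (b' - b) with hg
  have hg0 : 0 < g := by rw [hg]; linarith
  set e := min ε (g / 2) with he
  have he0 : 0 < e := lt_min hε (by linarith)
  have he1 : e ≤ ε := min_le_left _ _
  have he2 : e ≤ g / 2 := min_le_right _ _
  obtain ⟨w₂, h1, h2, h3⟩ := hD (b - g / 4) b (by linarith) hbq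
  obtain ⟨w₁, k1, k2, k3⟩ := hD (w₂ - (b - s₀) / 2) (w₂ - (b - s₀ - e) / 2) (by linarith)
    (by linarith)
  have r1 : f (2 * w₂ - b') ≤ n := hf.refl (by linarith) h3 hb'
  have r2 : f (2 * w₂ - b) ≤ n := hf.refl (by linarith) h3 hb
  have r3 : f (2 * w₁ - (2 * w₂ - b)) ≤ n := hf.refl (by linarith) k3 r2
  have r4 : f (2 * w₁ - (2 * w₂ - b')) ≤ n := hf.refl (by linarith) k3 r1
  refine ⟨2 * w₁ - (2 * w₂ - b), by linarith, by linarith, r3, ?_⟩
  have : 2 * w₁ - (2 * w₂ - b) + (b' - b) = 2 * w₁ - (2 * w₂ - b') := by ring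
  rw [this]; exact r4

lemma single (hf : Kemp f) {n q δ : ℝ} (hδ : 0 < δ)
    (hD : ∀ y z : ℝ, y < z → z ≤ q → ∃ a, y < a ∧ a < z ∧ f a ≤ n)
    {u v c : ℝ} (hu : q - δ < u) (huv : u < v) (hv : v < q) (fu : f u ≤ n) (fv : f v ≤ n)
    (hc : c ≤ q - 8 * δ) : f c - n ≤ (1 / 4) * (f (c + 2 * (v - u)) - n) := by
  obtain ⟨s, h1, h2, h3, h4⟩ := copy hf hD (s₀ := c) (ε := v - u) fu fv huv (by linarith)
    (by linarith) (by linarith)
  have a1 := hf.ap (a := c) (b := s) (c := 2 * s - c) h1 rfl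
  have a2 := hf.ap (a := 2 * s - c) (b := s + (v - u)) (c := c + 2 * (v - u)) (by linarith)
    (by ring)
  linarith

lemma chain (hf : Kemp f) {n q δ : ℝ} (hδ : 0 < δ)
    (hD : ∀ y z : ℝ, y < z → z ≤ q → ∃ a, y < a ∧ a < z ∧ f a ≤ n) (k : ℕ) :
    ∀ {u v c : ℝ}, q - δ < u → u < v → v < q → f u ≤ n → f v ≤ n →
      c + 2 * (v - u) ≤ q - 8 * δ →
      f c - n ≤ (1 / 4) ^ (k + 1) * (f (c + 2 * (v - u)) - n) := by
  induction k with
  | zero =>
    intro u v c hu huv hv fu fv hc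
    have := single hf hδ hD hu huv hv fu fv (c := c) (by linarith)
    simpa using this
  | succ k ih =>
    intro u v c hu huv hv fu fv hc
    obtain ⟨m, hm1, hm2, fm⟩ := hD u v huv hv.le
    have i1 := ih (u := u) (v := m) (c := c) hu hm1 (by linarith) fu fm (by linarith)
    have i2 := single hf hδ hD (u := m) (v := v) (c := c + 2 * (m - u)) (by linarith) hm2 hv fm fv
      (by linarith)
    have e : c + 2 * (m - u) + 2 * (v - m) = c + 2 * (v - u) := by ring
    rw [e] at i2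
    have hp : (0 : ℝ) < (1 / 4) ^ (k + 1) := by positivity
    calc f c - n ≤ (1 / 4) ^ (k + 1) * (f (c + 2 * (m - u)) - n) := i1
      _ ≤ (1 / 4) ^ (k + 1) * ((1 / 4) * (f (c + 2 * (v - u)) - n)) := by
          exact mul_le_mul_of_nonneg_left i2 hp.le
      _ = (1 / 4) ^ (k + 1 + 1) * (f (c + 2 * (v - u)) - n) := by ring

/-- A solution is bounded above by `n` to the left of any interval in which `{f ≤ n}` is dense. -/
lemma bounded (hf : Kemp f) {n q : ℝ}
    (hD : ∀ y z : ℝ, y < z → z ≤ q → ∃ a, y < a ∧ a < z ∧ f a ≤ n) {a : ℝ} (ha : a < q) :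
    f a ≤ n := by
  set δ := (q - a) / 10 with hδ
  have hδ0 : 0 < δ := by rw [hδ]; linarith
  have haδ : a = q - 10 * δ := by rw [hδ]; ring
  obtain ⟨u, hu1, hu2, fu⟩ := hD (q - δ) q (by linarith) le_rfl
  obtain ⟨v, hv1, hv2, fv⟩ := hD u q hu2 le_rfl
  by_contra hcon
  push Not at hcon
  have hpos : 0 < f a - n := by linarith
  have hk := fun k : ℕ => chain hf hδ0 hD k (u := u) (v := v) (c := a) hu1 hv1 hv2 fu fv
    (by linarith)
  have hC : 0 < f (a + 2 * (v - u)) - n := by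
    have := hk 0
    by_contra hneg
    push Not at hneg
    have : (1 / 4 : ℝ) ^ (0 + 1) * (f (a + 2 * (v - u)) - n) ≤ 0 := by
      apply mul_nonpos_of_nonneg_of_nonpos (by positivity) hneg
    linarith
  obtain ⟨k, hk2⟩ := exists_pow_lt_of_lt_one (div_pos hpos hC) (show (1 / 4 : ℝ) < 1 by norm_num)
  rw [lt_div_iff₀ hC] at hk2
  have h3 := hk k
  have h4 : (1 / 4 : ℝ) ^ (k + 1) * (f (a + 2 * (v - u)) - n)
      ≤ (1 / 4 : ℝ) ^ k * (f (a + 2 * (v - u)) - n) := by
    apply mul_le_mul_of_nonneg_right _ hC.le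
    rw [pow_succ]
    have : (0 : ℝ) < (1 / 4) ^ k := by positivity
    linarith
  linarith

/-- **Kemperman's problem**: every real function with `2 f(x) ≤ f(x+h) + f(x+2h)` for all `x` and
all `h > 0` is nondecreasing. -/
theorem monotone_of_kemp (hf : Kemp f) : Monotone f := by
  intro x y hxy
  rcases hxy.eq_or_lt with rfl | hxy
  · exact le_rfl
  by_contra hcon
  push Not at hcon
  obtain ⟨n, p, q, hMp, hpq, hden⟩ := exists_dense f y
  have hD := DenseOn.all hf hpq hden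
  have hb : ∀ a, a < q → f a ≤ n := fun a ha => bounded hf hD ha
  have key : ∀ k : ℕ, 2 ^ k * (f x - f y) ≤ f (y - (y - x) / 2 ^ k) - f y := by
    intro k
    induction k with
    | zero => simp
    | succ k ih =>
      have h2 : (0 : ℝ) < 2 ^ k := by positivity
      have hh : 0 < (y - x) / 2 ^ (k + 1) := div_pos (by linarith) (by positivity)
      have e0 : (y - x) / 2 ^ k = 2 * ((y - x) / 2 ^ (k + 1)) := by
        field_simp
        ring
      have := hf.ap (a := y - (y - x) / 2 ^ k) (b := y - (y - x) / 2 ^ (k + 1)) (c := y)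
        (by rw [e0]; linarith) (by rw [e0]; ring)
      have e1 : (2 : ℝ) ^ (k + 1) * (f x - f y) = 2 * (2 ^ k * (f x - f y)) := by ring
      rw [e1]
      linarith
  obtain ⟨k, hk⟩ := pow_unbounded_of_one_lt ((n - f y) / (f x - f y)) (one_lt_two (α := ℝ))
  rw [div_lt_iff₀ (by linarith)] at hk
  have h1 := key k
  have h2 : f (y - (y - x) / 2 ^ k) ≤ n := by
    apply hb
    have : 0 < (y - x) / 2 ^ k := div_pos (by linarith) (by positivity)
    linarith
  linarith

end Pool.Agent.W774.Kemperman
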