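import Mathlib

set_option autoImplicit false
open MeasureTheory Filter Topology Set

namespace Pool.Agent.W774.Lac

/-- partial sums of the lacunary cosine series -/
noncomputable def S (n : ℕ → ℕ) (m : ℕ) (x : ℝ) : ℝ :=
  ∑ k ∈ Finset.range m, Real.cos ((n k : ℝ) * x)

lemma S_succ (n : ℕ → ℕ) (m : ℕ) (x : ℝ) : S n (m + 1) x = S n m x + Real.cos ((n m : ℝ) * x) := by
  simp [S, Finset.sum_range_succ]

lemma S_zero (n : ℕ → ℕ) (x : ℝ) : S n 0 x = 0 := by simp [S]

lemma S_cont (n : ℕ → ℕ) (m : ℕ) : Continuous (S n m) := by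
  unfold S
  fun_prop

/-- decay of the cosine integrals of `f` against frequencies above `D` -/
def Q (a b : ℝ) (f : ℝ → ℝ) (D B : ℝ) : Prop :=
  ∀ N : ℝ, D < N → |∫ x in a..b, f x * Real.cos (N * x)| ≤ B / (N - D)

lemma abs_int_cos (a b N : ℝ) (hN : 0 < N) : |∫ x in a..b, Real.cos (N * x)| ≤ 2 / N := by
  rw [intervalIntegral.integral_comp_mul_left (fun x => Real.cos x) hN.ne', integral_cos, smul_eq_mul,
    abs_mul, abs_of_pos (inv_pos.mpr hN)]
  have h1 := Real.abs_sin_le_one (N * b)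
  have h2 := Real.abs_sin_le_one (N * a)
  have h3 : |Real.sin (N * b) - Real.sin (N * a)| ≤ 2 := by
    calc _ ≤ |Real.sin (N * b)| + |Real.sin (N * a)| := abs_sub _ _
      _ ≤ 2 := by linarith
  rw [div_eq_inv_mul]
  exact mul_le_mul_of_nonneg_left h3 (inv_pos.mpr hN).le

lemma Q_one (a b : ℝ) : Q a b (fun _ => 1) 0 2 := by
  intro N hN
  simpa using abs_int_cos a b N hN

lemma Q_mono {a b : ℝ} {f : ℝ → ℝ} {D D' B : ℝ} (hB : 0 ≤ B) (h : Q a b f D B) (hD : D ≤ D') :
    Q a b f D' B := by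
  intro N hN
  refine (h N (by linarith)).trans ?_
  apply div_le_div_of_nonneg_left hB (by linarith) (by linarith)

lemma Q_mul_cos {a b : ℝ} {f : ℝ → ℝ} (hf : Continuous f) {D B γ : ℝ} (hB : 0 ≤ B) (hγ : 0 ≤ γ)
    (h : Q a b f D B) : Q a b (fun x => f x * Real.cos (γ * x)) (D + γ) B := by
  intro N hN
  have e : ∀ x : ℝ, f x * Real.cos (γ * x) * Real.cos (N * x) =
      (1 / 2) * (f x * Real.cos ((N - γ) * x)) + (1 / 2) * (f x * Real.cos ((N + γ) * x)) := by
    intro x
    have h1 : (N - γ) * x = N * x - γ * x := by ring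
    have h2 : (N + γ) * x = N * x + γ * x := by ring
    rw [h1, h2, Real.cos_sub, Real.cos_add]
    ring
  simp_rw [e]
  rw [intervalIntegral.integral_add, intervalIntegral.integral_const_mul,
    intervalIntegral.integral_const_mul]
  · have h1 := h (N - γ) (by linarith)
    have h2 := h (N + γ) (by linarith)
    have h3 : B / (N + γ - D) ≤ B / (N - (D + γ)) := by
      apply div_le_div_of_nonneg_left hB (by linarith) (by linarith)
    have h4 : N - γ - D = N - (D + γ) := by ring
    rw [h4] at h1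
    calc _ ≤ |1 / 2 * ∫ x in a..b, f x * Real.cos ((N - γ) * x)| +
          |1 / 2 * ∫ x in a..b, f x * Real.cos ((N + γ) * x)| := abs_add_le _ _
      _ = (1 / 2) * |∫ x in a..b, f x * Real.cos ((N - γ) * x)| +
          (1 / 2) * |∫ x in a..b, f x * Real.cos ((N + γ) * x)| := by
          rw [abs_mul, abs_mul, abs_of_pos (by norm_num : (0:ℝ) < 1 / 2)]
      _ ≤ B / (N - (D + γ)) := by linarith
  · exact (by fun_prop : Continuous _).intervalIntegrable _ _
  · exact (by fun_prop : Continuous _).intervalIntegrable _ _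

lemma Q_mul_S {a b : ℝ} {f : ℝ → ℝ} (hf : Continuous f) {D B d : ℝ} (hB : 0 ≤ B)
    (h : Q a b f D B) (n : ℕ → ℕ) (m : ℕ) (hd : ∀ k < m, (n k : ℝ) ≤ d) :
    Q a b (fun x => f x * S n m x) (D + d) (m * B) := by
  intro N hN
  have e : ∀ x : ℝ, f x * S n m x * Real.cos (N * x) =
      ∑ k ∈ Finset.range m, (f x * Real.cos ((n k : ℝ) * x) * Real.cos (N * x)) := by
    intro x
    rw [S, Finset.mul_sum, Finset.sum_mul]
  simp_rw [e]
  rw [intervalIntegral.integral_finsetSum]
  · calc _ ≤ ∑ k ∈ Finset.range m, |∫ x in a..b, f x * Real.cos ((n k : ℝ) * x) * Real.cos (N * x)| :=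
          Finset.abs_sum_le_sum_abs _ _
      _ ≤ ∑ k ∈ Finset.range m, B / (N - (D + d)) := by
          apply Finset.sum_le_sum
          intro k hk
          have hk' : (n k : ℝ) ≤ d := hd k (Finset.mem_range.mp hk)
          have := Q_mono hB (Q_mul_cos hf hB (Nat.cast_nonneg (n k)) h) (by linarith : D + (n k : ℝ) ≤ D + d)
          exact this N hN
      _ = m * B / (N - (D + d)) := by simp; ring
  · intro k _
    exact (by fun_prop : Continuous _).intervalIntegrable _ _

end Pool.Agent.W774.Lac
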