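import Pool.Agent.W774.LacA

set_option autoImplicit false
open MeasureTheory Filter Topology Set

namespace Pool.Agent.W774.Lac

section
variable {n : ℕ → ℕ} {q : ℝ}

lemma gap_pow (hq : 1 < q) (hgap : ∀ k, q * (n k : ℝ) ≤ (n (k + 1) : ℝ)) (k j : ℕ) :
    q ^ j * (n k : ℝ) ≤ (n (k + j) : ℝ) := by
  induction j with
  | zero => simp
  | succ j ih =>
    calc q ^ (j + 1) * (n k : ℝ) = q * (q ^ j * (n k : ℝ)) := by ring
      _ ≤ q * (n (k + j) : ℝ) := by gcongr
      _ ≤ _ := hgap (k + j)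

lemma growth (hq : 1 < q) (hpos : ∀ k, 0 < n k) (hgap : ∀ k, q * (n k : ℝ) ≤ (n (k + 1) : ℝ)) (k : ℕ) :
    q ^ k ≤ (n k : ℝ) := by
  have h := gap_pow hq hgap 0 k
  rw [zero_add] at h
  have h0 : (1 : ℝ) ≤ (n 0 : ℝ) := by exact_mod_cast hpos 0
  have : 0 < q ^ k := by positivity
  nlinarith

lemma lt_le (hq : 1 < q) (hgap : ∀ k, q * (n k : ℝ) ≤ (n (k + 1) : ℝ)) {k m : ℕ} (h : k < m) :
    (n k : ℝ) ≤ (n m : ℝ) / q := by
  obtain ⟨j, rfl⟩ := Nat.exists_eq_add_of_lt h
  have h1 := gap_pow hq hgap k (j + 1)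
  rw [le_div_iff₀ (by linarith)]
  have h2 : (1 : ℝ) ≤ q ^ j := one_le_pow₀ hq.le
  have h3 : (0 : ℝ) ≤ n k := Nat.cast_nonneg _
  calc (n k : ℝ) * q ≤ q ^ j * ((n k : ℝ) * q) := by
        apply le_mul_of_one_le_left (by positivity) h2
    _ = q ^ (j + 1) * (n k : ℝ) := by ring
    _ ≤ _ := by rw [← add_assoc] at h1; exact h1

lemma summ (hq : 1 < q) : Summable (fun k : ℕ => ((k : ℝ) + 1) / q ^ k) := by
  have hr : ‖(1 / q : ℝ)‖ < 1 := by
    rw [Real.norm_of_nonneg (by positivity), div_lt_one (by linarith)]; exact hq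
  have h1 := summable_pow_mul_geometric_of_norm_lt_one 1 hr
  have h2 := summable_geometric_of_norm_lt_one hr
  refine (h1.add h2).congr ?_
  intro k
  simp [div_eq_mul_inv]
  ring

/-- first moment -/
lemma first_moment (hq : 1 < q) (hpos : ∀ k, 0 < n k)
    (hgap : ∀ k, q * (n k : ℝ) ≤ (n (k + 1) : ℝ)) (a b : ℝ) :
    ∃ C : ℝ, 0 ≤ C ∧ ∀ m, |∫ x in a..b, S n m x| ≤ C := by
  have hs := summ hq
  refine ⟨2 * ∑' k : ℕ, ((k : ℝ) + 1) / q ^ k, ?_, ?_⟩
  · have : 0 ≤ ∑' k : ℕ, ((k : ℝ) + 1) / q ^ k := tsum_nonneg (fun k => by positivity)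
    positivity
  intro m
  unfold S
  rw [intervalIntegral.integral_finsetSum]
  · calc _ ≤ ∑ k ∈ Finset.range m, |∫ x in a..b, Real.cos ((n k : ℝ) * x)| :=
          Finset.abs_sum_le_sum_abs _ _
      _ ≤ ∑ k ∈ Finset.range m, 2 * (((k : ℝ) + 1) / q ^ k) := by
          apply Finset.sum_le_sum
          intro k _
          have hk : (0 : ℝ) < n k := by exact_mod_cast hpos k
          have h1 := abs_int_cos a b (n k) hk
          have h2 := growth hq hpos hgap k
          have h3 : 0 < q ^ k := by positivity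
          have h4 : (2 : ℝ) / n k ≤ 2 / q ^ k := by
            apply div_le_div_of_nonneg_left (by norm_num) h3 h2
          have h5 : (2 : ℝ) / q ^ k ≤ 2 * (((k : ℝ) + 1) / q ^ k) := by
            rw [← mul_div_assoc]
            gcongr
            have : (0 : ℝ) ≤ k := Nat.cast_nonneg _
            linarith
          linarith
      _ = 2 * ∑ k ∈ Finset.range m, (((k : ℝ) + 1) / q ^ k) := by rw [Finset.mul_sum]
      _ ≤ _ := by
          apply mul_le_mul_of_nonneg_left _ (by norm_num)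
          exact hs.sum_le_tsum _ (fun k _ => by positivity)
  · intro k _
    exact (by fun_prop : Continuous _).intervalIntegrable _ _

/-- second moment -/
lemma second_moment (hq : 1 < q) (hpos : ∀ k, 0 < n k)
    (hgap : ∀ k, q * (n k : ℝ) ≤ (n (k + 1) : ℝ)) (a b : ℝ) :
    ∃ C : ℝ, 0 ≤ C ∧ ∀ m : ℕ, |(∫ x in a..b, (S n m x) ^ 2) - m * (b - a) / 2| ≤ C := by
  have hs := summ hq
  set K : ℝ := 4 * q / (q - 1) + 1 with hK
  have hq1 : 0 < q - 1 := by linarith
  have hK0 : 0 ≤ K := by positivity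
  have key : ∀ m : ℕ, |(∫ x in a..b, (S n m x) ^ 2) - m * (b - a) / 2| ≤
      K * ∑ k ∈ Finset.range m, (((k : ℝ) + 1) / q ^ k) := by
    intro m
    induction m with
    | zero => simp [S]
    | succ m ih =>
      have hm : (0 : ℝ) < n m := by exact_mod_cast hpos m
      have e : ∀ x : ℝ, (S n (m + 1) x) ^ 2 = (S n m x) ^ 2 +
          (2 * (S n m x * Real.cos ((n m : ℝ) * x)) + (1 / 2 + (1 / 2) * Real.cos ((2 * (n m : ℝ)) * x))) := by
        intro x
        rw [S_succ]
        have h1 : (2 * (n m : ℝ)) * x = 2 * ((n m : ℝ) * x) := by ring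
        rw [h1, Real.cos_two_mul]
        ring
      have hi : ∀ f : ℝ → ℝ, Continuous f → IntervalIntegrable f volume a b :=
        fun f hf => hf.intervalIntegrable _ _
      have hS := S_cont n m
      have e2 : (∫ x in a..b, (S n (m + 1) x) ^ 2) = (∫ x in a..b, (S n m x) ^ 2) +
          (2 * (∫ x in a..b, S n m x * Real.cos ((n m : ℝ) * x)) +
            ((b - a) / 2 + (1 / 2) * ∫ x in a..b, Real.cos ((2 * (n m : ℝ)) * x))) := by
        simp_rw [e]
        rw [intervalIntegral.integral_add (hi _ (by fun_prop)) (hi _ (by fun_prop)),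
          intervalIntegral.integral_add (hi _ (by fun_prop)) (hi _ (by fun_prop)),
          intervalIntegral.integral_add (hi _ (by fun_prop)) (hi _ (by fun_prop)),
          intervalIntegral.integral_const_mul, intervalIntegral.integral_const_mul,
          intervalIntegral.integral_const, smul_eq_mul]
        ring
      have hQ := Q_mul_S (a := a) (b := b) (f := fun _ => 1) continuous_const (by norm_num : (0:ℝ) ≤ 2)
        (Q_one a b) n m (d := (n m : ℝ) / q) (fun k hk => lt_le hq hgap hk)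
      have hlt : 0 + (n m : ℝ) / q < n m := by
        rw [zero_add, div_lt_iff₀ (by linarith)]
        nlinarith
      have b1 := hQ (n m) hlt
      simp only [one_mul, zero_add] at b1
      have b2 := abs_int_cos a b (2 * (n m : ℝ)) (by positivity)
      have hg := growth hq hpos hgap m
      have hqm : 0 < q ^ m := by positivity
      have b3 : (m : ℝ) * 2 / ((n m : ℝ) - (n m : ℝ) / q) ≤ 2 * q / (q - 1) * (m / q ^ m) := by
        have e3 : (n m : ℝ) - (n m : ℝ) / q = (n m : ℝ) * ((q - 1) / q) := by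
          field_simp
        rw [e3]
        have e4 : (m : ℝ) * 2 / ((n m : ℝ) * ((q - 1) / q)) = 2 * q / (q - 1) * (m / (n m : ℝ)) := by
          field_simp
        rw [e4]
        gcongr
      have b4 : (2 : ℝ) / (2 * (n m : ℝ)) ≤ 1 / q ^ m := by
        rw [show (2 : ℝ) / (2 * (n m : ℝ)) = 1 / (n m : ℝ) by field_simp]
        gcongr
      rw [e2, Finset.sum_range_succ, mul_add]
      push_cast
      have t1 : |(∫ x in a..b, (S n m x) ^ 2) + (2 * (∫ x in a..b, S n m x * Real.cos ((n m : ℝ) * x)) +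
            ((b - a) / 2 + (1 / 2) * ∫ x in a..b, Real.cos ((2 * (n m : ℝ)) * x))) - ((m : ℝ) + 1) * (b - a) / 2|
          ≤ |(∫ x in a..b, (S n m x) ^ 2) - m * (b - a) / 2| + (2 * |∫ x in a..b, S n m x * Real.cos ((n m : ℝ) * x)|
            + (1 / 2) * |∫ x in a..b, Real.cos ((2 * (n m : ℝ)) * x)|) := by
        set X := (∫ x in a..b, (S n m x) ^ 2)
        set Y := ∫ x in a..b, S n m x * Real.cos ((n m : ℝ) * x)
        set Z := ∫ x in a..b, Real.cos ((2 * (n m : ℝ)) * x)
        have : X + (2 * Y + ((b - a) / 2 + 1 / 2 * Z)) - ((m : ℝ) + 1) * (b - a) / 2 =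
          (X - m * (b - a) / 2) + (2 * Y + 1 / 2 * Z) := by ring
        rw [this]
        refine (abs_add_le _ _).trans ?_
        gcongr
        refine (abs_add_le _ _).trans ?_
        rw [abs_mul, abs_mul, abs_of_pos (by norm_num : (0:ℝ) < 2), abs_of_pos (by norm_num : (0:ℝ) < 1 / 2)]
      refine t1.trans ?_
      have b5 : K * (((m : ℝ) + 1) / q ^ m) ≥ 4 * q / (q - 1) * (m / q ^ m) + 1 / q ^ m := by
        have hm0 : (0 : ℝ) ≤ m := Nat.cast_nonneg _
        have h1 : K * (((m : ℝ) + 1) / q ^ m) = 4 * q / (q - 1) * (m / q ^ m) + 4 * q / (q - 1) * (1 / q ^ m)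
          + (m : ℝ) / q ^ m + 1 / q ^ m := by
          rw [hK]; ring
        rw [h1]
        have h2 : 0 ≤ 4 * q / (q - 1) * (1 / q ^ m) := by positivity
        have h3 : 0 ≤ (m : ℝ) / q ^ m := by positivity
        linarith
      have b6 : 2 * (2 * q / (q - 1) * (m / q ^ m)) = 4 * q / (q - 1) * (m / q ^ m) := by ring
      have b7 : 0 ≤ 1 / q ^ m := by positivity
      have c1 := b1.trans b3
      have c2 := b2.trans b4
      linarith
  refine ⟨K * ∑' k : ℕ, ((k : ℝ) + 1) / q ^ k, ?_, ?_⟩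
  · have : 0 ≤ ∑' k : ℕ, ((k : ℝ) + 1) / q ^ k := tsum_nonneg (fun k => by positivity)
    positivity
  · intro m
    refine (key m).trans ?_
    apply mul_le_mul_of_nonneg_left _ hK0
    exact hs.sum_le_tsum _ (fun k _ => by positivity)

end

lemma cube_le_four_pow (m : ℕ) : (m : ℝ) ^ 3 ≤ 4 ^ m := by
  induction m with
  | zero => norm_num
  | succ m ih =>
    rcases m with _ | _ | m
    · norm_num
    · norm_num
    · have h : ((m : ℝ) + 1 + 1 + 1) ^ 3 ≤ 4 * ((m : ℝ) + 1 + 1) ^ 3 := by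
        have : (0:ℝ) ≤ m := Nat.cast_nonneg _
        nlinarith [pow_nonneg this 2, pow_nonneg this 3]
      push_cast at ih ⊢
      calc _ ≤ 4 * ((m : ℝ) + 1 + 1) ^ 3 := h
        _ ≤ 4 * 4 ^ (m + 1 + 1) := by linarith
        _ = _ := by ring

/-- fourth moment for gap at least four -/
lemma fourth_moment_four {n : ℕ → ℕ} (hpos : ∀ k, 0 < n k)
    (hgap : ∀ k, (4 : ℝ) * (n k : ℝ) ≤ (n (k + 1) : ℝ)) (a b : ℝ) (hab : a ≤ b) :
    ∃ C : ℝ, 0 ≤ C ∧ ∀ m : ℕ, (∫ x in a..b, (S n m x) ^ 4) ≤ 2 * (m : ℝ) ^ 2 * (b - a) + C * m := by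
  obtain ⟨C2, hC2, h2⟩ := second_moment (by norm_num : (1:ℝ) < 4) hpos hgap a b
  refine ⟨8 * C2 + 3 * (b - a) + 32, by nlinarith, ?_⟩
  intro m
  induction m with
  | zero => simp [S]
  | succ m ih =>
    have hm : (0 : ℝ) < n m := by exact_mod_cast hpos m
    have hi : ∀ f : ℝ → ℝ, Continuous f → IntervalIntegrable f volume a b :=
        fun f hf => hf.intervalIntegrable _ _
    have hS := S_cont n m
    -- the cubic term
    have hd : ∀ k < m, (n k : ℝ) ≤ (n m : ℝ) / 4 := fun k hk => lt_le (by norm_num) hgap hk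
    have hQ1 := Q_mul_S (a := a) (b := b) (f := fun _ => 1) continuous_const (by norm_num : (0:ℝ) ≤ 2)
        (Q_one a b) n m (d := (n m : ℝ) / 4) hd
    have hQ2 := Q_mul_S (by fun_prop) (by positivity) hQ1 n m (d := (n m : ℝ) / 4) hd
    have hQ3 := Q_mul_S (by fun_prop) (by positivity) hQ2 n m (d := (n m : ℝ) / 4) hd
    have b1 := hQ3 (n m) (by linarith)
    have e1 : ∀ x : ℝ, 1 * S n m x * S n m x * S n m x * Real.cos ((n m : ℝ) * x) =
        (S n m x) ^ 3 * Real.cos ((n m : ℝ) * x) := by intro x; ring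
    simp_rw [e1] at b1
    have e2 : (n m : ℝ) - (0 + (n m : ℝ) / 4 + (n m : ℝ) / 4 + (n m : ℝ) / 4) = (n m : ℝ) / 4 := by ring
    rw [e2] at b1
    have b2 : (m : ℝ) * (m * (m * 2)) / ((n m : ℝ) / 4) ≤ 8 := by
      rw [div_le_iff₀ (by positivity)]
      have h3 := cube_le_four_pow m
      have h4 := growth (by norm_num : (1:ℝ) < 4) hpos hgap m
      nlinarith
    have b3 := b1.trans b2
    have b4 : (∫ x in a..b, (S n m x) ^ 3 * Real.cos ((n m : ℝ) * x)) ≤ 8 := (le_abs_self _).trans b3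
    -- pointwise
    have pw : ∀ x : ℝ, (S n (m + 1) x) ^ 4 ≤ (S n m x) ^ 4 + (4 * ((S n m x) ^ 3 * Real.cos ((n m : ℝ) * x)) +
        (8 * (S n m x) ^ 2 + 3)) := by
      intro x
      rw [S_succ]
      set s := S n m x
      set c := Real.cos ((n m : ℝ) * x)
      have hc1 : c ^ 2 ≤ 1 := by
        have := Real.neg_one_le_cos ((n m : ℝ) * x)
        have := Real.cos_le_one ((n m : ℝ) * x)
        nlinarith
      have hc4 : c ^ 4 ≤ 1 := by nlinarith [sq_nonneg c, sq_nonneg (c^2)]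
      have hsc : 4 * s * c ^ 3 ≤ 2 * s ^ 2 + 2 := by
        have h6 : c ^ 6 ≤ 1 := by nlinarith [sq_nonneg c, sq_nonneg (c^2), sq_nonneg (c^3)]
        nlinarith [sq_nonneg (s - c ^ 3)]
      have hs2 : 6 * s ^ 2 * c ^ 2 ≤ 6 * s ^ 2 := by nlinarith [sq_nonneg s]
      nlinarith
    have hS1 := S_cont n (m + 1)
    have b5 : (∫ x in a..b, (S n (m + 1) x) ^ 4) ≤ ∫ x in a..b, ((S n m x) ^ 4 + (4 * ((S n m x) ^ 3 * Real.cos ((n m : ℝ) * x)) +
        (8 * (S n m x) ^ 2 + 3))) := by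
      apply intervalIntegral.integral_mono hab (hi _ (by fun_prop)) (hi _ (by fun_prop))
      intro x; exact pw x
    rw [intervalIntegral.integral_add (hi _ (by fun_prop)) (hi _ (by fun_prop)),
          intervalIntegral.integral_add (hi _ (by fun_prop)) (hi _ (by fun_prop)),
          intervalIntegral.integral_add (hi _ (by fun_prop)) (hi _ (by fun_prop)),
          intervalIntegral.integral_const_mul, intervalIntegral.integral_const_mul,
          intervalIntegral.integral_const, smul_eq_mul] at b5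
    have h2m := (abs_le.mp (h2 m)).2
    push_cast
    have hL : 0 ≤ b - a := by linarith
    nlinarith [b5, h2m, b4, ih]

end Pool.Agent.W774.Lac
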