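import Pool.Agent.W774.LacB

set_option autoImplicit false
open MeasureTheory Filter Topology Set

namespace Pool.Agent.W774.Lac

lemma sum_split (f : ℕ → ℝ) (r t : ℕ) :
    ∑ k ∈ Finset.range (r * t), f k = ∑ i ∈ Finset.range r, ∑ k ∈ Finset.range t, f (r * k + i) := by
  induction t with
  | zero => simp
  | succ t ih =>
    rw [Nat.mul_succ, Finset.sum_range_add, ih]
    simp_rw [Finset.sum_range_succ]
    rw [Finset.sum_add_distrib]

lemma S_split (n : ℕ → ℕ) (r t : ℕ) (x : ℝ) :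
    S n (r * t) x = ∑ i ∈ Finset.range r, S (fun k => n (r * k + i)) t x := by
  unfold S
  exact sum_split (fun k => Real.cos ((n k : ℝ) * x)) r t

lemma pow_four_sum_le (r : ℕ) (f : ℕ → ℝ) :
    (∑ i ∈ Finset.range r, f i) ^ 4 ≤ (r : ℝ) ^ 3 * ∑ i ∈ Finset.range r, (f i) ^ 4 := by
  have h1 := sq_sum_le_card_mul_sum_sq (s := Finset.range r) (f := f)
  have h2 := sq_sum_le_card_mul_sum_sq (s := Finset.range r) (f := fun i => (f i) ^ 2)
  simp only [Finset.card_range] at h1 h2
  have h0 : 0 ≤ (∑ i ∈ Finset.range r, f i) ^ 2 := sq_nonneg _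
  have hr : (0 : ℝ) ≤ r := Nat.cast_nonneg r
  calc (∑ i ∈ Finset.range r, f i) ^ 4 = ((∑ i ∈ Finset.range r, f i) ^ 2) ^ 2 := by ring
    _ ≤ ((r : ℝ) * ∑ i ∈ Finset.range r, (f i) ^ 2) ^ 2 := by gcongr
    _ = (r : ℝ) ^ 2 * (∑ i ∈ Finset.range r, (f i) ^ 2) ^ 2 := by ring
    _ ≤ (r : ℝ) ^ 2 * ((r : ℝ) * ∑ i ∈ Finset.range r, ((f i) ^ 2) ^ 2) := by gcongr
    _ = _ := by
      have : ∀ i, ((f i) ^ 2) ^ 2 = (f i) ^ 4 := fun i => by ring
      simp_rw [this]; ring

lemma pointwise (lam A s σ : ℝ) (hlam0 : 0 < lam) (hA : 0 ≤ A) (hσ : σ = 1 ∨ σ = -1) (g : ℝ)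
    (hg : (g = 0 ∧ -A ≤ σ * s) ∨ g = 1) :
    s ^ 2 ≤ (lam * σ) * s + 2 * lam * A + (4 * lam ^ 2) * g
      + (1 / 4) * s ^ 2 + (1 / lam ^ 2) * s ^ 4 := by
  have hσ2 : (σ * s) ^ 2 = s ^ 2 := by rcases hσ with h | h <;> rw [h] <;> ring
  have h1 : s ^ 2 ≤ lam * |σ * s| + (1 / lam ^ 2) * s ^ 4 := by
    have habs : |σ * s| ^ 2 = s ^ 2 := by rw [sq_abs, hσ2]
    rcases le_total (|σ * s|) lam with h | h
    · have h3 : 0 ≤ (1 / lam ^ 2) * s ^ 4 := by positivity
      have h4 : |σ * s| * |σ * s| ≤ lam * |σ * s| := by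
        apply mul_le_mul_of_nonneg_right h (abs_nonneg _)
      nlinarith
    · have h3 : 0 ≤ lam * |σ * s| := by positivity
      have h4 : lam ^ 2 ≤ s ^ 2 := by rw [← habs]; gcongr
      have h5 : s ^ 2 ≤ (1 / lam ^ 2) * s ^ 4 := by
        rw [one_div, ← div_eq_inv_mul, le_div_iff₀ (by positivity)]
        nlinarith [sq_nonneg s]
      linarith
  have h2 : lam * |σ * s| ≤ lam * (σ * s) + 2 * lam * A + (4 * lam ^ 2) * g + (1 / 4) * s ^ 2 := by
    rcases hg with ⟨hg, h3⟩ | hg
    · rw [hg]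
      have h4 : |σ * s| ≤ σ * s + 2 * A := by
        rw [abs_le]; constructor <;> linarith
      have h5 : 0 ≤ (1 / 4) * s ^ 2 := by positivity
      nlinarith
    · rw [hg]
      have h4 : lam * |σ * s| ≤ lam * (σ * s) + 2 * (lam * |s|) := by
        have : |σ * s| ≤ σ * s + 2 * |s| := by
          have h5 : |σ * s| = |s| := by rcases hσ with h | h <;> rw [h] <;> simp
          have h6 := neg_abs_le (σ * s)
          rw [h5] at h6 ⊢
          linarith
        nlinarith
      have h5 : 2 * (lam * |s|) ≤ 4 * lam ^ 2 + (1 / 4) * s ^ 2 := by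
        have : |s| ^ 2 = s ^ 2 := sq_abs s
        nlinarith [sq_nonneg (2 * lam - (1 / 2) * |s|)]
      have h6 : 0 ≤ 2 * lam * A := by positivity
      linarith
  linarith

lemma final_arith (M2 X1 X2 X3 X4 LC m C2 L α β y C4' : ℝ)
    (hint : M2 ≤ X1 + X2 + X3 + (1 / 4) * M2 + X4) (k1 : X1 ≤ LC) (k2 : -C2 ≤ M2 - m * L / 2)
    (k3 : X3 ≤ (1 / 8) * m * L) (k6 : X4 ≤ (1 / 8) * m * L + C4')
    (hlamy : LC + X2 = α * y) (hβ : C2 + C4' = β) (hC2 : 0 ≤ C2) (hα0 : 0 ≤ α) (hβ0 : 0 ≤ β) (hy1 : 1 < y)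
    (hfin3 : 8 * (α + β) < y * L) (hy2 : y ^ 2 = m) : False := by
  have h1 : (1 / 8) * (m * L) ≤ α * y + β := by linarith
  rw [← hy2] at h1
  have h2 : β ≤ β * y := by nlinarith
  have h3 : (8 * (α + β)) * y < (y * L) * y := by
    apply mul_lt_mul_of_pos_right hfin3; linarith
  nlinarith

section
variable {n : ℕ → ℕ} {q : ℝ}

lemma fourth_moment (hq : 1 < q) (hpos : ∀ k, 0 < n k)
    (hgap : ∀ k, q * (n k : ℝ) ≤ (n (k + 1) : ℝ)) :
    ∃ r : ℕ, 0 < r ∧ ∀ a b : ℝ, a ≤ b → ∃ C : ℝ, 0 ≤ C ∧ ∀ t : ℕ,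
      (∫ x in a..b, (S n (r * t) x) ^ 4) ≤ 2 * (r : ℝ) ^ 4 * (t : ℝ) ^ 2 * (b - a) + C * t := by
  obtain ⟨r, hr⟩ := pow_unbounded_of_one_lt (4 : ℝ) hq
  have hr0 : 0 < r := by
    rcases Nat.eq_zero_or_pos r with h | h
    · rw [h] at hr; norm_num at hr
    · exact h
  refine ⟨r, hr0, ?_⟩
  intro a b hab
  have hcl : ∀ i : ℕ, ∃ C : ℝ, 0 ≤ C ∧ ∀ m : ℕ,
      (∫ x in a..b, (S (fun k => n (r * k + i)) m x) ^ 4) ≤ 2 * (m : ℝ) ^ 2 * (b - a) + C * m := by
    intro i
    apply fourth_moment_four (fun k => hpos _) _ a b hab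
    intro k
    have h := gap_pow hq hgap (r * k + i) r
    have e : r * k + i + r = r * (k + 1) + i := by ring
    rw [e] at h
    have h0 : (0 : ℝ) ≤ n (r * k + i) := Nat.cast_nonneg _
    nlinarith
  choose C hC0 hC using hcl
  refine ⟨(r : ℝ) ^ 3 * ∑ i ∈ Finset.range r, C i, ?_, ?_⟩
  · have := Finset.sum_nonneg (fun i (_ : i ∈ Finset.range r) => hC0 i)
    positivity
  · intro t
    have hi : ∀ f : ℝ → ℝ, Continuous f → IntervalIntegrable f volume a b :=
        fun f hf => hf.intervalIntegrable _ _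
    have hS := S_cont n (r * t)
    have hSi : ∀ i, Continuous (S (fun k => n (r * k + i)) t) := fun i => S_cont _ t
    have c1 : Continuous (fun x => (S n (r * t) x) ^ 4) := hS.pow 4
    have c2 : ∀ i, Continuous (fun x => (S (fun k => n (r * k + i)) t x) ^ 4) := fun i => (hSi i).pow 4
    have c3 : Continuous (fun x => (r : ℝ) ^ 3 * ∑ i ∈ Finset.range r, (S (fun k => n (r * k + i)) t x) ^ 4) :=
      continuous_const.mul (continuous_finsetSum _ (fun i _ => c2 i))
    calc (∫ x in a..b, (S n (r * t) x) ^ 4)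
        ≤ ∫ x in a..b, (r : ℝ) ^ 3 * ∑ i ∈ Finset.range r, (S (fun k => n (r * k + i)) t x) ^ 4 := by
          apply intervalIntegral.integral_mono hab (hi _ c1) (hi _ c3)
          intro x
          have := pow_four_sum_le r (fun i => S (fun k => n (r * k + i)) t x)
          rw [← S_split] at this
          exact this
      _ = (r : ℝ) ^ 3 * ∑ i ∈ Finset.range r, ∫ x in a..b, (S (fun k => n (r * k + i)) t x) ^ 4 := by
          rw [intervalIntegral.integral_const_mul, intervalIntegral.integral_finsetSum]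
          intro i _
          exact hi _ (c2 i)
      _ ≤ (r : ℝ) ^ 3 * ∑ i ∈ Finset.range r, (2 * (t : ℝ) ^ 2 * (b - a) + C i * t) := by
          gcongr with i hi
          exact hC i t
      _ = _ := by
          have e : (∑ i ∈ Finset.range r, C i) * t = ∑ i ∈ Finset.range r, C i * t :=
            Finset.sum_mul _ _ _
          rw [Finset.sum_add_distrib, ← e, Finset.sum_const, Finset.card_range, nsmul_eq_mul]
          ring

/-- the set where the sums are bounded on one side from some index on is null -/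
lemma null_onesided (hq : 1 < q) (hpos : ∀ k, 0 < n k)
    (hgap : ∀ k, q * (n k : ℝ) ≤ (n (k + 1) : ℝ)) (σ : ℝ) (hσ : σ = 1 ∨ σ = -1) (A : ℝ) (m0 : ℕ) :
    volume {x : ℝ | ∀ m ≥ m0, -A ≤ σ * S n m x} = 0 := by
  wlog hA : 0 ≤ A with H
  · have := H hq hpos hgap σ hσ 0 m0 le_rfl
    refine measure_mono_null ?_ this
    intro x hx m hm
    have := hx m hm
    push Not at hA
    linarith
  set E : Set ℝ := {x : ℝ | ∀ m ≥ m0, -A ≤ σ * S n m x} with hE
  have hEc : IsClosed E := by
    have : E = ⋂ m, ⋂ (_ : m ≥ m0), {x : ℝ | -A ≤ σ * S n m x} := by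
      ext x; simp [hE]
    rw [this]
    refine isClosed_iInter (fun m => isClosed_iInter (fun _ => ?_))
    exact isClosed_le continuous_const (continuous_const.mul (S_cont n m))
  by_contra hne
  obtain ⟨r, hr0, h4⟩ := fourth_moment hq hpos hgap
  have hdens := Besicovitch.ae_tendsto_measure_inter_div (volume : Measure ℝ) E
  have hne' : (volume.restrict E) ≠ 0 := by
    intro h
    rw [Measure.restrict_eq_zero] at h
    exact hne h
  have : NeZero (volume.restrict E) := ⟨hne'⟩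
  obtain ⟨x0, hx0⟩ := hdens.exists
  have hrr : (0 : ℝ) < r := by exact_mod_cast hr0
  -- choose a radius
  set η : ℝ := 1 / (512 * (r : ℝ) ^ 2) with hη
  have hη0 : 0 < η := by positivity
  have hη1 : η < 1 := by
    rw [hη, div_lt_one (by positivity)]
    have : (1 : ℝ) ≤ r := by exact_mod_cast hr0
    nlinarith
  have hev : ∀ᶠ ρ in 𝓝[>] (0 : ℝ), ENNReal.ofReal (1 - η) <
      volume (E ∩ Metric.closedBall x0 ρ) / volume (Metric.closedBall x0 ρ) := by
    apply hx0.eventually_const_lt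
    rw [ENNReal.ofReal_lt_one]
    linarith
  obtain ⟨ρ, hρ, hρ0⟩ := (hev.and self_mem_nhdsWithin).exists
  have hρ0 : 0 < ρ := hρ0
  set a := x0 - ρ with ha
  set b := x0 + ρ with hb
  have hab : a ≤ b := by linarith
  have hL : b - a = 2 * ρ := by rw [ha, hb]; ring
  have hball : Metric.closedBall x0 ρ = Icc a b := Real.closedBall_eq_Icc
  rw [hball, Real.volume_Icc, hL] at hρ
  have hbad : (volume (Icc a b \ E)).toReal ≤ η * (b - a) := by
    have h1 : ENNReal.ofReal (1 - η) * ENNReal.ofReal (2 * ρ) < volume (E ∩ Icc a b) := by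
      rw [ENNReal.lt_div_iff_mul_lt] at hρ
      · exact hρ
      · left
        have : 0 < ENNReal.ofReal (2 * ρ) := ENNReal.ofReal_pos.mpr (by linarith)
        exact this.ne'
      · left; exact ENNReal.ofReal_ne_top
    have h2 : volume (Icc a b \ E) + volume (E ∩ Icc a b) = ENNReal.ofReal (2 * ρ) := by
      have := measure_inter_add_sdiff (μ := (volume : Measure ℝ)) (Icc a b) hEc.measurableSet
      rw [inter_comm, Real.volume_Icc, hL] at this
      rw [add_comm]; exact this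
    have hfin : volume (Icc a b \ E) ≠ ⊤ := by
      apply ne_top_of_le_ne_top _ (measure_mono sdiff_subset)
      rw [Real.volume_Icc]; exact ENNReal.ofReal_ne_top
    have hfin2 : volume (E ∩ Icc a b) ≠ ⊤ := by
      apply ne_top_of_le_ne_top _ (measure_mono inter_subset_right)
      rw [Real.volume_Icc]; exact ENNReal.ofReal_ne_top
    have h3 := congrArg ENNReal.toReal h2
    rw [ENNReal.toReal_add hfin hfin2, ENNReal.toReal_ofReal (by linarith)] at h3
    have h4' : (1 - η) * (2 * ρ) < (volume (E ∩ Icc a b)).toReal := by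
      rw [← ENNReal.ofReal_mul (by linarith)] at h1
      have := (ENNReal.ofReal_lt_iff_lt_toReal (by nlinarith) hfin2).mp h1
      exact this
    rw [hL]; nlinarith
  -- moments
  obtain ⟨C1, hC1, m1⟩ := first_moment hq hpos hgap a b
  obtain ⟨C2, hC2, m2⟩ := second_moment hq hpos hgap a b
  obtain ⟨C4, hC4, m4⟩ := h4 a b hab
  have hL0 : 0 < b - a := by rw [hL]; linarith
  -- large index
  set α : ℝ := 4 * r * C1 + 8 * r * A * (b - a) with hα
  set β : ℝ := C2 + C4 / (16 * r ^ 3) with hβ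
  have hα0 : 0 ≤ α := by positivity
  have hβ0 : 0 ≤ β := by positivity
  obtain ⟨t, ht⟩ := exists_nat_gt (max ((8 * (α + β) / (b - a)) ^ 2) (max (m0 : ℝ) 1))
  have ht1 : (8 * (α + β) / (b - a)) ^ 2 < t := lt_of_le_of_lt (le_max_left _ _) ht
  have ht2 : (m0 : ℝ) < t := lt_of_le_of_lt ((le_max_left _ _).trans (le_max_right _ _)) ht
  have ht3 : (1 : ℝ) < t := lt_of_le_of_lt ((le_max_right _ _).trans (le_max_right _ _)) ht
  have ht2' : m0 < t := by exact_mod_cast ht2
  set m := r * t with hm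
  have hmr : (m : ℝ) = r * t := by rw [hm]; push_cast; ring
  have hr1 : (1 : ℝ) ≤ r := by exact_mod_cast hr0
  have hmt : (t : ℝ) ≤ m := by rw [hmr]; nlinarith
  have hm0 : m0 ≤ m := by
    have : (m0 : ℝ) ≤ m := by linarith
    exact_mod_cast this
  set y : ℝ := Real.sqrt m with hy
  have hy2 : y ^ 2 = m := Real.sq_sqrt (by positivity)
  have hy1 : 1 < y := by
    rw [hy, Real.lt_sqrt (by norm_num)]; nlinarith
  have hy3 : 8 * (α + β) / (b - a) < y := by
    rw [hy]; apply Real.lt_sqrt_of_sq_lt; linarith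
  set lam : ℝ := 4 * r * y with hlam
  have hlam0 : 0 < lam := by positivity
  -- the pointwise inequality
  set g : ℝ → ℝ := fun x => indicator (Eᶜ) (fun _ => (1 : ℝ)) x with hg
  have pw : ∀ x, (S n m x) ^ 2 ≤ (lam * σ) * S n m x + 2 * lam * A + (4 * lam ^ 2) * g x
      + (1 / 4) * (S n m x) ^ 2 + (1 / lam ^ 2) * (S n m x) ^ 4 := by
    intro x
    apply pointwise lam A (S n m x) σ hlam0 hA hσ
    by_cases hx : x ∈ E
    · left; exact ⟨by simp [hg, hx], hx m hm0⟩
    · right; simp [hg, hx]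
  have hi : ∀ f : ℝ → ℝ, Continuous f → IntervalIntegrable f volume a b :=
        fun f hf => hf.intervalIntegrable _ _
  have hS := S_cont n m
  have hgi : IntervalIntegrable g volume a b := by
    rw [intervalIntegrable_iff_integrableOn_Ioc_of_le hab, hg]
    apply Integrable.indicator _ hEc.measurableSet.compl
    exact integrableOn_const (by simp)
  have hgint : (∫ x in a..b, g x) ≤ η * (b - a) := by
    rw [intervalIntegral.integral_of_le hab, ← integral_Icc_eq_integral_Ioc, hg,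
      integral_indicator hEc.measurableSet.compl, Measure.restrict_restrict hEc.measurableSet.compl]
    rw [setIntegral_const, smul_eq_mul, mul_one]
    have : Eᶜ ∩ Icc a b = Icc a b \ E := by ext x; simp [and_comm]
    rw [this]
    exact hbad
  have J1 : IntervalIntegrable (fun x => (lam * σ) * S n m x) volume a b := hi _ (by fun_prop)
  have J2 : IntervalIntegrable (fun _ : ℝ => 2 * lam * A) volume a b := hi _ (by fun_prop)
  have J3 : IntervalIntegrable (fun x => (4 * lam ^ 2) * g x) volume a b := hgi.const_mul _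
  have J4 : IntervalIntegrable (fun x => (1 / 4) * (S n m x) ^ 2) volume a b := hi _ (by fun_prop)
  have J5 : IntervalIntegrable (fun x => (1 / lam ^ 2) * (S n m x) ^ 4) volume a b := hi _ (by fun_prop)
  have hint : (∫ x in a..b, (S n m x) ^ 2) ≤ ∫ x in a..b, ((lam * σ) * S n m x + 2 * lam * A + (4 * lam ^ 2) * g x
      + (1 / 4) * (S n m x) ^ 2 + (1 / lam ^ 2) * (S n m x) ^ 4) :=
    intervalIntegral.integral_mono hab (hi _ (hS.pow 2)) ((((J1.add J2).add J3).add J4).add J5) pw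
  rw [intervalIntegral.integral_add (((J1.add J2).add J3).add J4) J5,
    intervalIntegral.integral_add ((J1.add J2).add J3) J4,
    intervalIntegral.integral_add (J1.add J2) J3, intervalIntegral.integral_add J1 J2,
    intervalIntegral.integral_const_mul, intervalIntegral.integral_const,
    intervalIntegral.integral_const_mul, intervalIntegral.integral_const_mul,
    intervalIntegral.integral_const_mul, smul_eq_mul] at hint
  have k1 : (lam * σ) * (∫ x in a..b, S n m x) ≤ lam * C1 := by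
    have h1 := m1 m
    have h2 : |(lam * σ) * (∫ x in a..b, S n m x)| ≤ lam * C1 := by
      have h3 : |lam * σ| = lam := by
        rcases hσ with h | h <;> rw [h] <;> simp [abs_of_pos hlam0]
      rw [abs_mul, h3]
      gcongr
    exact (le_abs_self _).trans h2
  have k2 := (abs_le.mp (m2 m)).1
  have k4 := m4 t
  rw [← hm] at k4
  have k3 : (4 * lam ^ 2) * (∫ x in a..b, g x) ≤ (4 * lam ^ 2) * (η * (b - a)) := by gcongr
  have hlam2 : lam ^ 2 = 16 * r ^ 2 * m := by rw [hlam, ← hy2]; ring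
  have k5 : (4 * lam ^ 2) * (η * (b - a)) = (1 / 8) * m * (b - a) := by
    rw [hlam2, hη]; field_simp; ring
  have k6 : (1 / lam ^ 2) * (∫ x in a..b, (S n m x) ^ 4) ≤ (1 / 8) * m * (b - a) + C4 / (16 * r ^ 3) := by
    have h1 : (1 / lam ^ 2) * (∫ x in a..b, (S n m x) ^ 4) ≤
        (1 / lam ^ 2) * (2 * (r : ℝ) ^ 4 * (t : ℝ) ^ 2 * (b - a) + C4 * t) := by
      gcongr
    refine h1.trans (le_of_eq ?_)
    rw [hlam2, hmr]
    have : (t : ℝ) ≠ 0 := by positivity
    field_simp
    ring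
  have hlamy : lam * C1 + (b - a) * (2 * lam * A) = α * y := by
    rw [hlam, hα]; ring
  have hfin3 : 8 * (α + β) < y * (b - a) := by
    rwa [div_lt_iff₀ hL0] at hy3
  exact final_arith _ _ _ _ _ _ _ _ _ _ _ _ _ hint k1 k2 (k3.trans k5.le) k6 hlamy hβ.symm hC2 hα0 hβ0 hy1 hfin3 hy2

end

end Pool.Agent.W774.Lac
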