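import Mathlib

set_option autoImplicit false
open Filter Topology

namespace Pool.Agent.W774.Orl

/-- conditional expectation surrogate of `1 - (4/81)(S^2/v0 - 5)^2` -/
noncomputable def Psi (v0 S v : ℝ) : ℝ :=
  1 - ((S ^ 4 + 6 * S ^ 2 * v + 3 * v ^ 2) - 10 * v0 * (S ^ 2 + v) + 25 * v0 ^ 2) / (81 / 4 * v0 ^ 2)

lemma Psi_avg (v0 S v c : ℝ) (h : 0 < v0) :
    2 * Psi v0 S v ≤ Psi v0 (S + c) (v - c ^ 2) + Psi v0 (S - c) (v - c ^ 2) := by
  unfold Psi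
  have h0 : 0 < 81 / 4 * v0 ^ 2 := by positivity
  have key : (((S + c) ^ 4 + 6 * (S + c) ^ 2 * (v - c ^ 2) + 3 * (v - c ^ 2) ^ 2) - 10 * v0 * ((S + c) ^ 2 + (v - c ^ 2)) + 25 * v0 ^ 2)
      + (((S - c) ^ 4 + 6 * (S - c) ^ 2 * (v - c ^ 2) + 3 * (v - c ^ 2) ^ 2) - 10 * v0 * ((S - c) ^ 2 + (v - c ^ 2)) + 25 * v0 ^ 2)
      ≤ 2 * ((S ^ 4 + 6 * S ^ 2 * v + 3 * v ^ 2) - 10 * v0 * (S ^ 2 + v) + 25 * v0 ^ 2) := by
    nlinarith [sq_nonneg (c ^ 2)]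
  have := div_le_div_of_nonneg_right key h0.le
  rw [add_div, mul_div_assoc] at this
  linarith

lemma Psi_start (v0 : ℝ) (h : 0 < v0) : Psi v0 0 v0 = 1 / 9 := by
  unfold Psi; field_simp; ring

lemma Psi_end (v0 S : ℝ) (h : 0 < v0) : Psi v0 S 0 ≤ if v0 / 2 ≤ S ^ 2 then 1 else 0 := by
  unfold Psi
  have h0 : 0 < 81 / 4 * v0 ^ 2 := by positivity
  have e : (S ^ 4 + 6 * S ^ 2 * 0 + 3 * (0:ℝ) ^ 2) - 10 * v0 * (S ^ 2 + 0) + 25 * v0 ^ 2 = (S ^ 2 - 5 * v0) ^ 2 := by ring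
  rw [e]
  split_ifs with hS
  · have : 0 ≤ (S ^ 2 - 5 * v0) ^ 2 / (81 / 4 * v0 ^ 2) := by positivity
    linarith
  · push Not at hS
    have : 1 ≤ (S ^ 2 - 5 * v0) ^ 2 / (81 / 4 * v0 ^ 2) := by
      rw [one_le_div h0]
      nlinarith [sq_nonneg S]
    linarith

/-- choice of signs -/
lemma greedy {ι : Type} [DecidableEq ι] (X : Finset ℝ) (c : ι → ℝ → ℝ) (v0 : ℝ) (hv : 0 < v0) (T : ℝ → ℝ)
    (A : Finset ι) : ∃ s : ι → ℝ, (∀ i, s i = 1 ∨ s i = -1) ∧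
      ∑ x ∈ X, Psi v0 0 (T x) ≤
        ∑ x ∈ X, Psi v0 (∑ i ∈ A, s i * c i x) (T x - ∑ i ∈ A, (c i x) ^ 2) := by
  induction A using Finset.induction_on with
  | empty => exact ⟨fun _ => 1, fun _ => Or.inl rfl, by simp⟩
  | insert j A hj ih =>
    obtain ⟨s, hs, hsum⟩ := ih
    have havg : 2 * ∑ x ∈ X, Psi v0 (∑ i ∈ A, s i * c i x) (T x - ∑ i ∈ A, (c i x) ^ 2) ≤
        (∑ x ∈ X, Psi v0 ((∑ i ∈ A, s i * c i x) + c j x) ((T x - ∑ i ∈ A, (c i x) ^ 2) - (c j x) ^ 2)) +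
        (∑ x ∈ X, Psi v0 ((∑ i ∈ A, s i * c i x) - c j x) ((T x - ∑ i ∈ A, (c i x) ^ 2) - (c j x) ^ 2)) := by
      rw [Finset.mul_sum, ← Finset.sum_add_distrib]
      apply Finset.sum_le_sum
      intro x _
      exact Psi_avg _ _ _ _ hv
    have hor : ∃ e : ℝ, (e = 1 ∨ e = -1) ∧
        ∑ x ∈ X, Psi v0 (∑ i ∈ A, s i * c i x) (T x - ∑ i ∈ A, (c i x) ^ 2) ≤
        ∑ x ∈ X, Psi v0 ((∑ i ∈ A, s i * c i x) + e * c j x) ((T x - ∑ i ∈ A, (c i x) ^ 2) - (c j x) ^ 2) := by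
      by_contra hcon
      push Not at hcon
      have h1 := hcon 1 (Or.inl rfl)
      have h2 := hcon (-1) (Or.inr rfl)
      simp only [one_mul, neg_mul, ← sub_eq_add_neg] at h1 h2
      linarith
    obtain ⟨e, he, hle⟩ := hor
    refine ⟨Function.update s j e, ?_, ?_⟩
    · intro i
      by_cases hij : i = j
      · subst hij; simpa using he
      · rw [Function.update_of_ne hij]; exact hs i
    · refine hsum.trans (hle.trans (le_of_eq ?_))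
      apply Finset.sum_congr rfl
      intro x _
      rw [Finset.sum_insert hj, Finset.sum_insert hj, Function.update_self]
      have : ∑ i ∈ A, Function.update s j e i * c i x = ∑ i ∈ A, s i * c i x := by
        apply Finset.sum_congr rfl
        intro i hi
        have : i ≠ j := by rintro rfl; exact hj hi
        rw [Function.update_of_ne this]
      rw [this]
      congr 1 <;> ring

/-- one block of the series -/
noncomputable def blk (s : ℕ × Bool → ℝ) (i j : ℕ) (x : ℝ) : ℝ :=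
  ∑ n ∈ Finset.Ioc i j, (s (n, true) * (Real.cos (n * x) / √n) + s (n, false) * (Real.sin (n * x) / √n))

lemma card_filter_ge (X : Finset ℝ) (i j : ℕ) (hi : 0 < i) (hv : 0 < ∑ n ∈ Finset.Ioc i j, (1 : ℝ) / n) :
    ∃ s : ℕ × Bool → ℝ, (∀ i, s i = 1 ∨ s i = -1) ∧
      (X.card : ℝ) ≤ 9 * ((X.filter (fun x => (∑ n ∈ Finset.Ioc i j, (1 : ℝ) / n) / 2 ≤ (blk s i j x) ^ 2)).card : ℝ) := by
  set v0 := ∑ n ∈ Finset.Ioc i j, (1 : ℝ) / n with hv0
  set c : ℕ × Bool → ℝ → ℝ := fun p x => if p.2 then Real.cos (p.1 * x) / √p.1 else Real.sin (p.1 * x) / √p.1 with hc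
  obtain ⟨s, hs, hle⟩ := greedy X c v0 hv (fun _ => v0) ((Finset.Ioc i j) ×ˢ (Finset.univ : Finset Bool))
  refine ⟨s, hs, ?_⟩
  have h1 : ∀ x, ∑ p ∈ (Finset.Ioc i j) ×ˢ (Finset.univ : Finset Bool), s p * c p x = blk s i j x := by
    intro x
    rw [Finset.sum_product, blk]
    apply Finset.sum_congr rfl
    intro n _
    simp [hc]
  have h2 : ∀ x, ∑ p ∈ (Finset.Ioc i j) ×ˢ (Finset.univ : Finset Bool), (c p x) ^ 2 = v0 := by
    intro x
    rw [Finset.sum_product, hv0]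
    apply Finset.sum_congr rfl
    intro n hn
    have hn0 : (0 : ℝ) < n := by
      have := (Finset.mem_Ioc.mp hn).1
      exact_mod_cast (by omega : 0 < n)
    simp only [hc, Fintype.sum_bool]
    simp only [if_true, Bool.false_eq_true, if_false, div_pow, Real.sq_sqrt hn0.le]
    rw [← add_div, Real.cos_sq_add_sin_sq]
  simp_rw [h1, h2, sub_self, Psi_start v0 hv] at hle
  rw [Finset.sum_const, nsmul_eq_mul] at hle
  have h3 : ∑ x ∈ X, Psi v0 (blk s i j x) 0 ≤ ∑ x ∈ X, (if v0 / 2 ≤ (blk s i j x) ^ 2 then (1:ℝ) else 0) :=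
    Finset.sum_le_sum (fun x _ => Psi_end _ _ hv)
  rw [← Finset.sum_filter, Finset.sum_const, nsmul_eq_mul, mul_one] at h3
  linarith

end Pool.Agent.W774.Orl
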