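import Pool.Agent.W774.OrlA

set_option autoImplicit false
open Filter Topology

namespace Pool.Agent.W774.Orl

/-- block endpoints -/
def ms (M : ℕ) : ℕ → ℕ
  | 0 => M
  | l + 1 => ms M l + ms M l / 20

lemma ms_ge (M l : ℕ) : M ≤ ms M l := by
  induction l with
  | zero => simp [ms]
  | succ l ih => simp only [ms]; omega

lemma ms_mono (M : ℕ) {l k : ℕ} (h : l ≤ k) : ms M l ≤ ms M k := by
  induction h with
  | refl => exact le_rfl
  | step _ ih => simp only [ms]; omega

lemma ms_lt (M l : ℕ) (hM : 20 ≤ M) : ms M l < ms M (l + 1) := by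
  have := ms_ge M l
  simp only [ms]; omega

lemma ms_le (M l : ℕ) : (ms M l : ℝ) ≤ M * (21 / 20) ^ l := by
  induction l with
  | zero => simp [ms]
  | succ l ih =>
    simp only [ms]
    push_cast
    have h : ((ms M l / 20 : ℕ) : ℝ) ≤ (ms M l : ℝ) / 20 := Nat.cast_div_le
    rw [pow_succ]
    nlinarith

lemma var_ge (M l : ℕ) (hM : 20 ≤ M) :
    (1 : ℝ) / 50 ≤ ∑ n ∈ Finset.Ioc (ms M l) (ms M (l + 1)), (1 : ℝ) / n := by
  have h1 := ms_ge M l
  set a := ms M l with ha
  have hb : ms M (l + 1) = a + a / 20 := rfl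
  rw [hb]
  have h2 : ∀ n ∈ Finset.Ioc a (a + a / 20), (1 : ℝ) / (a + a / 20 : ℕ) ≤ (1 : ℝ) / n := by
    intro n hn
    rw [Finset.mem_Ioc] at hn
    have : (0 : ℝ) < n := by exact_mod_cast (by omega : 0 < n)
    apply one_div_le_one_div_of_le this
    exact_mod_cast hn.2
  have h3 := Finset.sum_le_sum h2
  rw [Finset.sum_const, Nat.card_Ioc, nsmul_eq_mul] at h3
  refine le_trans ?_ h3
  have h4 : a + a / 20 - a = a / 20 := by omega
  rw [h4, mul_one_div, le_div_iff₀ (by exact_mod_cast (by omega : 0 < a + a / 20))]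
  have h5 : a ≤ 40 * (a / 20) := by omega
  have h6 : (a : ℝ) ≤ 40 * ((a / 20 : ℕ) : ℝ) := by exact_mod_cast h5
  have h7 : ((a / 20 : ℕ) : ℝ) ≤ (a : ℝ) / 20 := Nat.cast_div_le
  push_cast
  linarith

lemma blk_congr (s s' : ℕ × Bool → ℝ) (i j : ℕ) (x : ℝ) (h : ∀ n ∈ Finset.Ioc i j, ∀ t, s (n, t) = s' (n, t)) :
    blk s i j x = blk s' i j x := by
  unfold blk
  apply Finset.sum_congr rfl
  intro n hn
  rw [h n hn, h n hn]

lemma multi (M : ℕ) (hM : 20 ≤ M) (X : Finset ℝ) (R : ℕ) :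
    ∃ s : ℕ × Bool → ℝ, (∀ i, s i = 1 ∨ s i = -1) ∧
      9 ^ R * ((X.filter (fun x => ∀ l < R, |blk s (ms M l) (ms M (l + 1)) x| < 1 / 10)).card : ℝ) ≤
        8 ^ R * (X.card : ℝ) := by
  classical
  induction R with
  | zero => exact ⟨fun _ => 1, fun _ => Or.inl rfl, by simp⟩
  | succ R ih =>
    obtain ⟨s, hs, hle⟩ := ih
    set Bad := X.filter (fun x => ∀ l < R, |blk s (ms M l) (ms M (l + 1)) x| < 1 / 10) with hBad
    have hv : (1 : ℝ) / 50 ≤ ∑ n ∈ Finset.Ioc (ms M R) (ms M (R + 1)), (1 : ℝ) / n := var_ge M R hM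
    obtain ⟨s1, hs1, hle1⟩ := card_filter_ge Bad (ms M R) (ms M (R + 1)) (by have := ms_ge M R; omega)
      (by linarith)
    set s2 : ℕ × Bool → ℝ := fun p => if p.1 ≤ ms M R then s p else s1 p with hs2
    refine ⟨s2, ?_, ?_⟩
    · intro i
      simp only [hs2]
      split_ifs
      · exact hs i
      · exact hs1 i
    · have e1 : ∀ l < R, ∀ x, blk s2 (ms M l) (ms M (l + 1)) x = blk s (ms M l) (ms M (l + 1)) x := by
        intro l hl x
        apply blk_congr
        intro n hn t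
        rw [Finset.mem_Ioc] at hn
        have : n ≤ ms M R := hn.2.trans (ms_mono M hl)
        simp [hs2, this]
      have e2 : ∀ x, blk s2 (ms M R) (ms M (R + 1)) x = blk s1 (ms M R) (ms M (R + 1)) x := by
        intro x
        apply blk_congr
        intro n hn t
        rw [Finset.mem_Ioc] at hn
        have : ¬ (n ≤ ms M R) := by omega
        simp [hs2, this]
      set G := Bad.filter (fun x => (∑ n ∈ Finset.Ioc (ms M R) (ms M (R + 1)), (1 : ℝ) / n) / 2 ≤ (blk s1 (ms M R) (ms M (R + 1)) x) ^ 2) with hG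
      have hsub : X.filter (fun x => ∀ l < R + 1, |blk s2 (ms M l) (ms M (l + 1)) x| < 1 / 10) ⊆ Bad \ G := by
        intro x hx
        rw [Finset.mem_filter] at hx
        rw [Finset.mem_sdiff]
        constructor
        · rw [hBad, Finset.mem_filter]
          refine ⟨hx.1, ?_⟩
          intro l hl
          rw [← e1 l hl]
          exact hx.2 l (by omega)
        · intro hxG
          rw [hG, Finset.mem_filter] at hxG
          have h1 := hx.2 R (by omega)
          rw [e2] at h1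
          have h2 := hxG.2
          have h3 : (blk s1 (ms M R) (ms M (R + 1)) x) ^ 2 < (1 / 10) ^ 2 := by
            rw [← sq_abs]
            gcongr
          linarith
      have hcard := Finset.card_le_card hsub
      have hGsub : G ⊆ Bad := Finset.filter_subset _ _
      rw [Finset.card_sdiff_of_subset hGsub] at hcard
      have hGle := Finset.card_le_card hGsub
      have hcard' : ((X.filter (fun x => ∀ l < R + 1, |blk s2 (ms M l) (ms M (l + 1)) x| < 1 / 10)).card : ℝ) ≤ Bad.card - G.card := by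
        have : ((Bad.card - G.card : ℕ) : ℝ) = Bad.card - G.card := by push_cast [hGle]; ring
        rw [← this]; exact_mod_cast hcard
      have h9 : 9 * ((X.filter (fun x => ∀ l < R + 1, |blk s2 (ms M l) (ms M (l + 1)) x| < 1 / 10)).card : ℝ) ≤ 8 * Bad.card := by
        linarith
      calc (9 : ℝ) ^ (R + 1) * _ = 9 ^ R * (9 * ((X.filter (fun x => ∀ l < R + 1, |blk s2 (ms M l) (ms M (l + 1)) x| < 1 / 10)).card : ℝ)) := by ring
        _ ≤ 9 ^ R * (8 * Bad.card) := by gcongr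
        _ = 8 * (9 ^ R * Bad.card) := by ring
        _ ≤ 8 * (8 ^ R * X.card) := by gcongr
        _ = _ := by ring

lemma blk_lip (s : ℕ × Bool → ℝ) (hs : ∀ i, s i = 1 ∨ s i = -1) (i j : ℕ) (x y : ℝ) :
    |blk s i j x - blk s i j y| ≤ 2 * (j : ℝ) ^ 2 * |x - y| := by
  unfold blk
  rw [← Finset.sum_sub_distrib]
  have habs : ∀ p, |s p| = 1 := by
    intro p; rcases hs p with h | h <;> rw [h] <;> simp
  have hterm : ∀ n ∈ Finset.Ioc i j, |(s (n, true) * (Real.cos (n * x) / √n) + s (n, false) * (Real.sin (n * x) / √n)) -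
      (s (n, true) * (Real.cos (n * y) / √n) + s (n, false) * (Real.sin (n * y) / √n))| ≤ 2 * j * |x - y| := by
    intro n hn
    rw [Finset.mem_Ioc] at hn
    have hn1 : (1 : ℝ) ≤ n := by exact_mod_cast (by omega : 1 ≤ n)
    have hnj : (n : ℝ) ≤ j := by exact_mod_cast hn.2
    have hsq : 1 ≤ √(n : ℝ) := by rw [Real.one_le_sqrt]; exact hn1
    have e : (s (n, true) * (Real.cos (n * x) / √n) + s (n, false) * (Real.sin (n * x) / √n)) -
      (s (n, true) * (Real.cos (n * y) / √n) + s (n, false) * (Real.sin (n * y) / √n)) =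
      s (n, true) * ((Real.cos (n * x) - Real.cos (n * y)) / √n) + s (n, false) * ((Real.sin (n * x) - Real.sin (n * y)) / √n) := by
      ring
    rw [e]
    have hc : |Real.cos (n * x) - Real.cos (n * y)| ≤ n * |x - y| := by
      have h := Real.abs_cos_sub_cos_le (n * x) (n * y)
      rwa [← mul_sub, abs_mul, abs_of_nonneg (by positivity : (0:ℝ) ≤ n)] at h
    have hsn : |Real.sin (n * x) - Real.sin (n * y)| ≤ n * |x - y| := by
      have h := Real.abs_sin_sub_sin_le (n * x) (n * y)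
      rwa [← mul_sub, abs_mul, abs_of_nonneg (by positivity : (0:ℝ) ≤ n)] at h
    have hd : ∀ z : ℝ, |z| ≤ n * |x - y| → |z / √n| ≤ j * |x - y| := by
      intro z hz
      rw [abs_div, abs_of_pos (by linarith : 0 < √(n : ℝ))]
      calc |z| / √n ≤ |z| := div_le_self (abs_nonneg _) hsq
        _ ≤ n * |x - y| := hz
        _ ≤ j * |x - y| := by gcongr
    calc _ ≤ |s (n, true) * ((Real.cos (n * x) - Real.cos (n * y)) / √n)| + |s (n, false) * ((Real.sin (n * x) - Real.sin (n * y)) / √n)| := abs_add_le _ _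
      _ = |((Real.cos (n * x) - Real.cos (n * y)) / √n)| + |((Real.sin (n * x) - Real.sin (n * y)) / √n)| := by
        rw [abs_mul, abs_mul, habs, habs, one_mul, one_mul]
      _ ≤ _ := by linarith [hd _ hc, hd _ hsn]
  calc _ ≤ ∑ n ∈ Finset.Ioc i j, |(s (n, true) * (Real.cos (n * x) / √n) + s (n, false) * (Real.sin (n * x) / √n)) -
      (s (n, true) * (Real.cos (n * y) / √n) + s (n, false) * (Real.sin (n * y) / √n))| := Finset.abs_sum_le_sum_abs _ _
    _ ≤ ∑ n ∈ Finset.Ioc i j, 2 * (j : ℝ) * |x - y| := Finset.sum_le_sum hterm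
    _ = ((j - i : ℕ) : ℝ) * (2 * (j : ℝ) * |x - y|) := by
        rw [Finset.sum_const, Nat.card_Ioc, nsmul_eq_mul]
    _ ≤ (j : ℝ) * (2 * (j : ℝ) * |x - y|) := by
        gcongr
        omega
    _ = _ := by ring

lemma blk_periodic (s : ℕ × Bool → ℝ) (i j : ℕ) (x : ℝ) (k : ℤ) :
    blk s i j (x + k * (2 * Real.pi)) = blk s i j x := by
  unfold blk
  apply Finset.sum_congr rfl
  intro n _
  have e : (n : ℝ) * (x + k * (2 * Real.pi)) = n * x + ((n * k : ℤ) : ℝ) * (2 * Real.pi) := by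
    push_cast; ring
  rw [e, Real.cos_add_int_mul_two_pi, Real.sin_add_int_mul_two_pi]

/-- the block lemma -/
lemma block (M : ℕ) (hM : 20 ≤ M) : ∃ M' > M, ∃ s : ℕ × Bool → ℝ, (∀ i, s i = 1 ∨ s i = -1) ∧
    ∀ x : ℝ, ∃ i j, M ≤ i ∧ i ≤ j ∧ j ≤ M' ∧ 1 / 20 ≤ |blk s i j x| := by
  -- choose R
  have hlim : Tendsto (fun R : ℕ => (260 * (M : ℝ) ^ 2 + 1) * ((3528 : ℝ) / 3600) ^ R) atTop (𝓝 ((260 * (M : ℝ) ^ 2 + 1) * 0)) :=
    (tendsto_pow_atTop_nhds_zero_of_lt_one (by norm_num) (by norm_num)).const_mul _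
  rw [mul_zero] at hlim
  obtain ⟨R, hR1, hR⟩ := ((eventually_ge_atTop 1).and (hlim.eventually_lt_const (by norm_num : (0:ℝ) < 1))).exists
  set J := ms M R with hJ
  have hJle : (J : ℝ) ≤ M * (21 / 20) ^ R := ms_le M R
  have hJM : M < J := by
    have h1 := ms_lt M 0 hM
    have h2 := ms_mono M hR1
    simp only [ms] at h1 h2
    rw [hJ]
    omega
  set G : ℕ := 260 * J ^ 2 with hG
  have hJ0' : 0 < J := by omega
  have hG0 : 0 < G := by rw [hG]; positivity
  have hGr : (0 : ℝ) < G := by exact_mod_cast hG0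
  set X : Finset ℝ := (Finset.range G).image (fun j : ℕ => 2 * Real.pi * (j / G)) with hX
  have hXc : (X.card : ℝ) ≤ G := by
    have := Finset.card_image_le (s := Finset.range G) (f := fun j : ℕ => 2 * Real.pi * ((j : ℝ) / G))
    rw [Finset.card_range] at this
    exact_mod_cast this
  obtain ⟨s, hs, hle⟩ := multi M hM X R
  refine ⟨J, hJM, s, hs, ?_⟩
  -- the bad set is empty
  have hbad : (X.filter (fun x => ∀ l < R, |blk s (ms M l) (ms M (l + 1)) x| < 1 / 10)).card = 0 := by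
    by_contra hne
    have h1 : (1 : ℝ) ≤ ((X.filter (fun x => ∀ l < R, |blk s (ms M l) (ms M (l + 1)) x| < 1 / 10)).card : ℝ) := by
      exact_mod_cast Nat.one_le_iff_ne_zero.mpr hne
    have h2 : (9 : ℝ) ^ R ≤ 8 ^ R * G := by
      calc (9 : ℝ) ^ R = 9 ^ R * 1 := by ring
        _ ≤ 9 ^ R * ((X.filter (fun x => ∀ l < R, |blk s (ms M l) (ms M (l + 1)) x| < 1 / 10)).card : ℝ) := by gcongr
        _ ≤ 8 ^ R * X.card := hle
        _ ≤ 8 ^ R * G := by gcongr
    have h3 : (G : ℝ) ≤ 260 * (M : ℝ) ^ 2 * (441 / 400) ^ R := by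
      rw [hG]; push_cast
      calc (260 : ℝ) * (J : ℝ) ^ 2 ≤ 260 * (M * (21 / 20) ^ R) ^ 2 := by gcongr
        _ = 260 * (M : ℝ) ^ 2 * (((21 : ℝ) / 20) ^ 2) ^ R := by rw [mul_pow, ← pow_mul, ← pow_mul, mul_comm R 2]; ring
        _ = _ := by norm_num
    have h4 : (8 : ℝ) ^ R * G ≤ (260 * (M : ℝ) ^ 2) * ((3528 : ℝ) / 3600) ^ R * 9 ^ R := by
      calc (8 : ℝ) ^ R * G ≤ 8 ^ R * (260 * (M : ℝ) ^ 2 * (441 / 400) ^ R) := by gcongr
        _ = (260 * (M : ℝ) ^ 2) * (8 ^ R * (441 / 400) ^ R) := by ring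
        _ = (260 * (M : ℝ) ^ 2) * (((3528 : ℝ) / 3600) ^ R * 9 ^ R) := by
            rw [← mul_pow, ← mul_pow]; norm_num
        _ = _ := by ring
    have h5 : (260 * (M : ℝ) ^ 2) * ((3528 : ℝ) / 3600) ^ R < 1 := by
      refine lt_of_le_of_lt ?_ hR
      gcongr
      linarith
    have h6 : (260 * (M : ℝ) ^ 2) * ((3528 : ℝ) / 3600) ^ R * 9 ^ R < 1 * 9 ^ R := by
      apply mul_lt_mul_of_pos_right h5 (by positivity)
    linarith
  rw [Finset.card_eq_zero] at hbad
  intro x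
  -- reduce to a net point
  set t := x / (2 * Real.pi) with ht
  have hpi := Real.pi_pos
  have hxt : x = Int.fract t * (2 * Real.pi) + (⌊t⌋ : ℤ) * (2 * Real.pi) := by
    rw [← add_mul, add_comm, Int.floor_add_fract, ht]; field_simp
  set u := Int.fract t with hu
  have hu0 : 0 ≤ u := Int.fract_nonneg t
  have hu1 : u < 1 := Int.fract_lt_one t
  set j0 := ⌊u * G⌋₊ with hj0
  have hj1 : (j0 : ℝ) ≤ u * G := Nat.floor_le (by positivity)
  have hj2 : u * G < j0 + 1 := Nat.lt_floor_add_one _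
  have hj0G : j0 < G := by
    have : (j0 : ℝ) < G := by nlinarith
    exact_mod_cast this
  set y := 2 * Real.pi * ((j0 : ℝ) / G) with hy
  have hyX : y ∈ X := by
    rw [hX, Finset.mem_image]
    exact ⟨j0, Finset.mem_range.mpr hj0G, rfl⟩
  have hybad : ¬ (∀ l < R, |blk s (ms M l) (ms M (l + 1)) y| < 1 / 10) := by
    intro h
    have : y ∈ X.filter (fun x => ∀ l < R, |blk s (ms M l) (ms M (l + 1)) x| < 1 / 10) :=
      Finset.mem_filter.mpr ⟨hyX, h⟩
    rw [hbad] at this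
    simp at this
  push Not at hybad
  obtain ⟨l, hl, hlb⟩ := hybad
  refine ⟨ms M l, ms M (l + 1), ms_ge M l, ms_mono M (Nat.le_succ l), ms_mono M hl, ?_⟩
  rw [hxt, blk_periodic]
  have hdist : |u * (2 * Real.pi) - y| ≤ 2 * Real.pi / G := by
    have e : u * (2 * Real.pi) - y = 2 * Real.pi / G * (u * G - j0) := by
      rw [hy]; field_simp
    rw [e, abs_mul, abs_of_pos (by positivity : 0 < 2 * Real.pi / G)]
    have : |u * G - j0| ≤ 1 := by rw [abs_le]; constructor <;> linarith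
    calc _ ≤ 2 * Real.pi / G * 1 := by gcongr
      _ = _ := by ring
  have hlip := blk_lip s hs (ms M l) (ms M (l + 1)) (u * (2 * Real.pi)) y
  have hmJ : (ms M (l + 1) : ℝ) ≤ J := by exact_mod_cast ms_mono M hl
  have hsmall : 2 * (ms M (l + 1) : ℝ) ^ 2 * |u * (2 * Real.pi) - y| ≤ 1 / 20 := by
    have hJ0 : (0 : ℝ) < J := by exact_mod_cast (by omega : 0 < J)
    calc 2 * (ms M (l + 1) : ℝ) ^ 2 * |u * (2 * Real.pi) - y| ≤ 2 * (J : ℝ) ^ 2 * (2 * Real.pi / G) := by gcongr
      _ = 4 * Real.pi / 260 := by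
          rw [hG]; push_cast; field_simp; ring
      _ ≤ 1 / 20 := by
          have := Real.pi_lt_d2
          linarith
  have h1 : |blk s (ms M l) (ms M (l + 1)) y| ≤ |blk s (ms M l) (ms M (l + 1)) (u * (2 * Real.pi))| +
      |blk s (ms M l) (ms M (l + 1)) (u * (2 * Real.pi)) - blk s (ms M l) (ms M (l + 1)) y| := by
    have := abs_sub_abs_le_abs_sub (blk s (ms M l) (ms M (l + 1)) y) (blk s (ms M l) (ms M (l + 1)) (u * (2 * Real.pi)))
    rw [abs_sub_comm] at this
    linarith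
  linarith

end Pool.Agent.W774.Orl
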