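import Pool.Agent.W774.OrlB

set_option autoImplicit false
open Filter Topology

namespace Pool.Agent.W774.Orl

/-- the partial sums -/
noncomputable def PS (a b : ℕ → ℝ) (x : ℝ) (N : ℕ) : ℝ :=
  ∑ n ∈ Finset.Icc 1 N, (a n * Real.cos (n * x) + b n * Real.sin (n * x))

lemma PS_sub (a b : ℕ → ℝ) (x : ℝ) (i j : ℕ) (hij : i ≤ j) :
    PS a b x j - PS a b x i = ∑ n ∈ Finset.Ioc i j, (a n * Real.cos (n * x) + b n * Real.sin (n * x)) := by
  have h : Finset.Icc 1 j = Finset.Icc 1 i ∪ Finset.Ioc i j := by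
    ext n; simp only [Finset.mem_Icc, Finset.mem_union, Finset.mem_Ioc]; omega
  have hd : Disjoint (Finset.Icc 1 i) (Finset.Ioc i j) := by
    rw [Finset.disjoint_left]
    intro n; simp only [Finset.mem_Icc, Finset.mem_Ioc]; omega
  unfold PS
  rw [h, Finset.sum_union hd]; ring

theorem core (α : ℕ → ℝ) (hmono : Monotone α) (h0 : ∀ n, 0 ≤ α n) (hlim : Tendsto α atTop atTop) :
    ∃ a b : ℕ → ℝ, (∀ n, |a n| ≤ α n / √n ∧ |b n| ≤ α n / √n) ∧
      ∀ x : ℝ, ∀ C : ℝ, ∃ N, C < |PS a b x N| := by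
  have hb : ∀ M : ℕ, ∃ M' : ℕ, ∃ s : ℕ × Bool → ℝ, M < M' ∧ (∀ i, s i = 1 ∨ s i = -1) ∧
    (20 ≤ M → ∀ x : ℝ, ∃ i j, M ≤ i ∧ i ≤ j ∧ j ≤ M' ∧ 1 / 20 ≤ |blk s i j x|) := by
    intro M
    by_cases hM : 20 ≤ M
    · obtain ⟨M', hM', s, hs, h⟩ := block M hM
      exact ⟨M', s, hM', hs, fun _ => h⟩
    · exact ⟨M + 1, fun _ => 1, by omega, fun _ => Or.inl rfl, fun h => absurd h hM⟩
  choose f g hf hg hblk using hb
  -- endpoints
  set E : ℕ → ℕ := fun k => f^[k] 20 with hE
  have hE0 : E 0 = 20 := rfl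
  have hEs : ∀ k, E (k + 1) = f (E k) := fun k => by simp only [hE]; rw [Function.iterate_succ_apply']
  have hElt : ∀ k, E k < E (k + 1) := fun k => by rw [hEs]; exact hf _
  have hEm : StrictMono E := strictMono_nat_of_lt_succ hElt
  have hEk : ∀ k, k ≤ E k := fun k => hEm.id_le k
  have hE20 : ∀ k, 20 ≤ E k := fun k => by rw [← hE0]; exact hEm.monotone (Nat.zero_le k)
  set κ : ℕ → ℕ := fun n => Nat.findGreatest (fun k => E k < n) n with hκ
  have hκ1 : ∀ k n, E k < n → n ≤ E (k + 1) → κ n = k := by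
    intro k n h1 h2
    simp only [hκ]
    rw [Nat.findGreatest_eq_iff]
    refine ⟨(hEk k).trans h1.le, fun _ => h1, ?_⟩
    intro j hj1 hj2 hj3
    have : E (k + 1) ≤ E j := hEm.monotone hj1
    omega
  have hκ2 : ∀ n, 20 < n → E (κ n) < n := by
    intro n hn
    have := Nat.findGreatest_spec (P := fun k => E k < n) (m := 0) (n := n) (Nat.zero_le n) (by simpa [hE0] using hn)
    exact this
  set a : ℕ → ℝ := fun n => if 20 < n then α (E (κ n)) * g (E (κ n)) (n, true) / √n else 0 with ha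
  set b : ℕ → ℝ := fun n => if 20 < n then α (E (κ n)) * g (E (κ n)) (n, false) / √n else 0 with hb
  refine ⟨a, b, ?_, ?_⟩
  · have habs : ∀ M p, |g M p| = 1 := by
      intro M p; rcases hg M p with h | h <;> rw [h] <;> simp
    intro n
    have hα : 0 ≤ α n / √n := div_nonneg (h0 n) (Real.sqrt_nonneg _)
    by_cases hn : 20 < n
    · have hle : α (E (κ n)) ≤ α n := hmono (hκ2 n hn).le
      simp only [ha, hb, if_pos hn]
      rw [abs_div, abs_mul, habs, mul_one, abs_of_nonneg (h0 _), abs_of_nonneg (Real.sqrt_nonneg _),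
        abs_div, abs_mul, habs, mul_one, abs_of_nonneg (h0 _), abs_of_nonneg (Real.sqrt_nonneg _)]
      exact ⟨by gcongr, by gcongr⟩
    · simp only [ha, hb, if_neg hn, abs_zero]
      exact ⟨hα, hα⟩
  · intro x C
    -- pick a block with large amplitude
    obtain ⟨k, hk⟩ := (((hlim.comp hEm.tendsto_atTop).eventually_gt_atTop (40 * C))).exists
    simp only [Function.comp_apply] at hk
    obtain ⟨i, j, hi, hij, hj, hlow⟩ := hblk (E k) (hE20 k) x
    rw [← hEs] at hj
    have hdiff : PS a b x j - PS a b x i = α (E k) * blk (g (E k)) i j x := by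
      rw [PS_sub a b x i j hij, blk, Finset.mul_sum]
      apply Finset.sum_congr rfl
      intro n hn
      rw [Finset.mem_Ioc] at hn
      have hkn : κ n = k := hκ1 k n (by omega) (by omega)
      have h20 : 20 < n := by have := hE20 k; omega
      simp only [ha, hb, if_pos h20, hkn]
      ring
    by_contra hcon
    push Not at hcon
    have h1 := hcon i
    have h2 := hcon j
    have h3 : |PS a b x j - PS a b x i| ≤ 2 * C := by
      calc _ ≤ |PS a b x j| + |PS a b x i| := abs_sub _ _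
        _ ≤ 2 * C := by linarith
    rw [hdiff, abs_mul, abs_of_nonneg (h0 _)] at h3
    have h4 : α (E k) * (1 / 20) ≤ α (E k) * |blk (g (E k)) i j x| := by
      apply mul_le_mul_of_nonneg_left hlow (h0 _)
    linarith

lemma summable_log (a : ℕ → ℝ) (h : ∀ n, |a n| ≤ Real.log n / √n) (ε : ℝ) (hε : 0 < ε) :
    Summable (fun n : ℕ => |a n| ^ (2 + ε)) := by
  set δ : ℝ := ε / (4 * (2 + ε)) with hδ
  have hδ0 : 0 < δ := by positivity
  have hs : Summable (fun n : ℕ => (1 / δ) ^ (2 + ε) * (1 / (n : ℝ) ^ (1 + ε / 4))) :=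
    (Real.summable_one_div_nat_rpow.mpr (by linarith)).mul_left _
  refine Summable.of_nonneg_of_le (fun n => by positivity) (fun n => ?_) hs
  rcases Nat.eq_zero_or_pos n with hn | hn
  · subst hn
    have := h 0
    simp only [Nat.cast_zero, Real.log_zero, zero_div] at this
    have h0 : |a 0| = 0 := le_antisymm this (abs_nonneg _)
    rw [h0, Real.zero_rpow (by positivity)]
    positivity
  · have hn' : (0 : ℝ) < n := by exact_mod_cast hn
    have hn1 : (1 : ℝ) ≤ n := by exact_mod_cast hn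
    have h1 : Real.log n / √n ≤ (n : ℝ) ^ δ / δ / √n := by
      gcongr
      exact Real.log_le_rpow_div hn'.le hδ0
    have h2 : |a n| ≤ (1 / δ) * (n : ℝ) ^ (δ - 1 / 2) := by
      refine (h n).trans (h1.trans (le_of_eq ?_))
      rw [Real.sqrt_eq_rpow, Real.rpow_sub hn']
      ring
    calc |a n| ^ (2 + ε) ≤ ((1 / δ) * (n : ℝ) ^ (δ - 1 / 2)) ^ (2 + ε) := by
          apply Real.rpow_le_rpow (abs_nonneg _) h2 (by positivity)
      _ = (1 / δ) ^ (2 + ε) * (n : ℝ) ^ ((δ - 1 / 2) * (2 + ε)) := by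
          rw [Real.mul_rpow (by positivity) (by positivity), ← Real.rpow_mul hn'.le]
      _ = (1 / δ) ^ (2 + ε) * (1 / (n : ℝ) ^ (1 + ε / 4)) := by
          have e1 : 1 / (n : ℝ) ^ (1 + ε / 4) = (n : ℝ) ^ (-(1 + ε / 4)) := by
            rw [Real.rpow_neg hn'.le, one_div]
          have e2 : (δ - 1 / 2) * (2 + ε) = -(1 + ε / 4) := by
            rw [hδ]; field_simp; ring
          rw [e1, e2]

end Pool.Agent.W774.Orl
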